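import Pool.Agent.FGS.Big

/-!
Project FGS (separable version of FG, MP_0c7c15_an): the algebra `A0` of all 2-norm limits of
bounded sequences of a Skolem hull `C`.
-/

set_option autoImplicit false

open Filter Topology
open scoped ComplexOrder ENNReal

namespace Pool.Agent.FG.S

open UP UP.Br

section

variable {A : Type} [CStarAlgebra A] [TracialState A] {b : Par A} {C : Set A}

/-- `x` is a limit of elements of `C` with norm at most `c` -/
def LimC (C : Set A) (c : ℝ) (x : A) : Prop := ∀ ε : ℝ, 0 < ε → ∃ y ∈ C, ‖y‖ ≤ c ∧ nrm2 (x - y) < ε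

theorem LimC.mono {c d : ℝ} (h : c ≤ d) {x : A} (hx : LimC C c x) : LimC C d x := by
  intro ε hε
  obtain ⟨y, hy, hyc, hyx⟩ := hx ε hε
  exact ⟨y, hy, hyc.trans h, hyx⟩

theorem LimC.nonneg {c : ℝ} {x : A} (hx : LimC C c x) : 0 ≤ c := by
  obtain ⟨y, -, hy, -⟩ := hx 1 one_pos
  exact (norm_nonneg y).trans hy

theorem LimC.of_mem {x : A} (hx : x ∈ C) : LimC C ‖x‖ x := by
  intro ε hε
  exact ⟨x, hx, le_rfl, by rw [sub_self, nrm2_zero]; exact hε⟩

theorem LimC.add (hC : Hull b C) {c d : ℝ} {x y : A} (hx : LimC C c x) (hy : LimC C d y) :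
    LimC C (c + d) (x + y) := by
  intro ε hε
  obtain ⟨x', hx', hxc, hxx⟩ := hx (ε / 2) (by positivity)
  obtain ⟨y', hy', hyc, hyy⟩ := hy (ε / 2) (by positivity)
  refine ⟨x' + y', hC.add_mem _ hx' _ hy', (norm_add_le _ _).trans (add_le_add hxc hyc), ?_⟩
  have e : x + y - (x' + y') = (x - x') + (y - y') := by abel
  rw [e]
  have := nrm2_add_le (x - x') (y - y')
  linarith

theorem LimC.mul (hC : Hull b C) {c d : ℝ} {x y : A} (hx : LimC C c x) (hy : LimC C d y) :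
    LimC C (c * d) (x * y) := by
  intro ε hε
  have hc := hx.nonneg
  have hy0 := norm_nonneg y
  have h1 : 0 < ‖y‖ + c + 1 := by positivity
  obtain ⟨x', hx', hxc, hxx⟩ := hx (ε / (‖y‖ + c + 1)) (by positivity)
  obtain ⟨y', hy', hyc, hyy⟩ := hy (ε / (‖y‖ + c + 1)) (by positivity)
  refine ⟨x' * y', hC.mul_mem _ hx' _ hy', ?_, ?_⟩
  · exact (norm_mul_le _ _).trans (mul_le_mul hxc hyc (norm_nonneg _) hc)
  have e : x * y - x' * y' = (x - x') * y + x' * (y - y') := by noncomm_ring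
  rw [e]
  have a1 := nrm2_add_le ((x - x') * y) (x' * (y - y'))
  have a2 := nrm2_mul_le_right (x - x') y
  have a3 := nrm2_mul_le_left x' (y - y')
  have a4 : nrm2 (x - x') * ‖y‖ ≤ ε / (‖y‖ + c + 1) * ‖y‖ :=
    mul_le_mul_of_nonneg_right hxx.le hy0
  have a5 : ‖x'‖ * nrm2 (y - y') ≤ c * (ε / (‖y‖ + c + 1)) :=
    mul_le_mul hxc hyy.le (nrm2_nonneg _) hc
  have a6 : ε / (‖y‖ + c + 1) * ‖y‖ + c * (ε / (‖y‖ + c + 1)) < ε := by
    have : ε / (‖y‖ + c + 1) * ‖y‖ + c * (ε / (‖y‖ + c + 1))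
        = ε * ((‖y‖ + c) / (‖y‖ + c + 1)) := by field_simp
    rw [this]
    have h2 : (‖y‖ + c) / (‖y‖ + c + 1) < 1 := by
      rw [div_lt_one h1]
      linarith
    nlinarith
  linarith

theorem LimC.star (hC : Hull b C) {c : ℝ} {x : A} (hx : LimC C c x) : LimC C c (star x) := by
  intro ε hε
  obtain ⟨y, hy, hyc, hyx⟩ := hx ε hε
  refine ⟨Star.star y, hC.star_mem _ hy, by rwa [norm_star], ?_⟩
  rw [← star_sub, nrm2_star]
  exact hyx

/-- complex numbers are approximated by rational ones -/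
theorem exists_ratC_near (z : ℂ) {ε : ℝ} (hε : 0 < ε) :
    ∃ p q : ℚ, ‖z - ((p : ℂ) + (q : ℂ) * Complex.I)‖ < ε := by
  obtain ⟨p, hp⟩ := _root_.exists_rat_near z.re (show (0 : ℝ) < ε / 2 by positivity)
  obtain ⟨q, hq⟩ := _root_.exists_rat_near z.im (show (0 : ℝ) < ε / 2 by positivity)
  refine ⟨p, q, ?_⟩
  have e : z - ((p : ℂ) + (q : ℂ) * Complex.I)
      = ((z.re - p : ℝ) : ℂ) + ((z.im - q : ℝ) : ℂ) * Complex.I := by
    apply Complex.ext <;> simp
  rw [e]
  refine (norm_add_le _ _).trans_lt ?_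
  rw [norm_mul, Complex.norm_I, mul_one, Complex.norm_real, Complex.norm_real, Real.norm_eq_abs,
    Real.norm_eq_abs]
  linarith

theorem LimC.smul (hC : Hull b C) {c : ℝ} {x : A} (z : ℂ) (hx : LimC C c x) :
    LimC C ((‖z‖ + 1) * c) (z • x) := by
  intro ε hε
  have hc := hx.nonneg
  obtain ⟨y, hy, hyc, hyx⟩ := hx (ε / (2 * (‖z‖ + 1))) (by positivity)
  obtain ⟨p, q, hpq⟩ := exists_ratC_near z (show 0 < min 1 (ε / (2 * (c + 1))) by positivity)
  set w : ℂ := (p : ℂ) + (q : ℂ) * Complex.I with hw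
  have hw1 : ‖z - w‖ < 1 := hpq.trans_le (min_le_left _ _)
  have hw2 : ‖z - w‖ < ε / (2 * (c + 1)) := hpq.trans_le (min_le_right _ _)
  have hwn : ‖w‖ ≤ ‖z‖ + 1 := by
    have : w = z - (z - w) := by ring
    rw [this]
    refine (norm_sub_le _ _).trans ?_
    linarith
  refine ⟨w • y, hC.smul_mem p q y hy, ?_, ?_⟩
  · rw [norm_smul]
    exact mul_le_mul hwn hyc (norm_nonneg _) (by positivity)
  have e : z • x - w • y = z • (x - y) + (z - w) • y := by
    rw [smul_sub, sub_smul]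
    abel
  rw [e]
  have a1 := nrm2_add_le (z • (x - y)) ((z - w) • y)
  rw [nrm2_smul, nrm2_smul] at a1
  have a2 : ‖z‖ * nrm2 (x - y) ≤ ε / 2 * (‖z‖ / (‖z‖ + 1)) := by
    have := mul_le_mul_of_nonneg_left hyx.le (norm_nonneg z)
    refine this.trans (le_of_eq ?_)
    field_simp
  have a3 : ‖z‖ / (‖z‖ + 1) < 1 := by
    rw [div_lt_one (by positivity)]
    linarith
  have a4 : ‖z - w‖ * nrm2 y ≤ ε / (2 * (c + 1)) * c :=
    mul_le_mul hw2.le ((nrm2_le_norm y).trans hyc) (nrm2_nonneg _) (by positivity)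
  have a5 : ε / (2 * (c + 1)) * c ≤ ε / 2 := by
    rw [div_mul_eq_mul_div, div_le_div_iff₀ (by positivity) (by positivity)]
    nlinarith
  nlinarith

/-- norm control -/
theorem LimC.norm (hC : Hull b C) {c : ℝ} {x : A} (hx : LimC C c x) :
    LimC C (‖x‖ + 1) x := by
  intro ε hε
  have hc := hx.nonneg
  obtain ⟨K, hK1, hK2⟩ := exists_rat_btwn (show ‖x‖ < ‖x‖ + 1 by linarith)
  have hK0 : (0 : ℝ) < K := lt_of_le_of_lt (norm_nonneg x) hK1
  set D : ℝ := c * ((c + ‖x‖) / (K : ℝ) ^ 2) + 1 with hD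
  have hD0 : 0 < D := by positivity
  obtain ⟨y, hy, hyc, hyx⟩ := hx (ε / (D + 1)) (by positivity)
  obtain ⟨y', hy', hyK, hcut⟩ := hC.cut y hy K (by exact_mod_cast hK0)
  refine ⟨y', hy', hyK.trans hK2.le, ?_⟩
  have h1 := hcut (Star.star x * x) (by
    rw [CStarRing.norm_star_mul_self, ← sq]
    exact pow_le_pow_left₀ (norm_nonneg x) hK1.le 2)
  have h2 : nrm2 (Star.star y * y - Star.star x * x) ≤ (c + ‖x‖) * nrm2 (x - y) := by
    have e : Star.star y * y - Star.star x * x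
        = Star.star y * (y - x) + Star.star (y - x) * x := by
      rw [star_sub]; noncomm_ring
    rw [e]
    refine (nrm2_add_le _ _).trans ?_
    have b1 := nrm2_mul_le_left (Star.star y) (y - x)
    have b2 := nrm2_mul_le_right (Star.star (y - x)) x
    rw [nrm2_star] at b2
    rw [norm_star] at b1
    rw [nrm2_sub_comm y x] at b1 b2
    have b3 : ‖y‖ * nrm2 (x - y) ≤ c * nrm2 (x - y) :=
      mul_le_mul_of_nonneg_right hyc (nrm2_nonneg _)
    nlinarith
  have h3 : nrm2 (y - y') ≤ c * ((c + ‖x‖) / (K : ℝ) ^ 2) * nrm2 (x - y) := by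
    refine h1.trans ?_
    have h4 : nrm2 (Star.star y * y - Star.star x * x) / (K : ℝ) ^ 2
        ≤ (c + ‖x‖) / (K : ℝ) ^ 2 * nrm2 (x - y) := by
      rw [div_mul_eq_mul_div]
      exact div_le_div_of_nonneg_right h2 (by positivity)
    calc ‖y‖ * (nrm2 (Star.star y * y - Star.star x * x) / (K : ℝ) ^ 2)
        ≤ c * ((c + ‖x‖) / (K : ℝ) ^ 2 * nrm2 (x - y)) :=
          mul_le_mul hyc h4 (div_nonneg (nrm2_nonneg _) (by positivity)) hc
      _ = _ := by ring
  have e : x - y' = (x - y) + (y - y') := by abel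
  rw [e]
  refine (nrm2_add_le _ _).trans_lt ?_
  have h5 : nrm2 (x - y) + nrm2 (y - y') ≤ D * nrm2 (x - y) := by
    rw [hD]; linarith
  refine h5.trans_lt ?_
  have h6 : D * nrm2 (x - y) ≤ D * (ε / (D + 1)) := mul_le_mul_of_nonneg_left hyx.le hD0.le
  have h7 : D * (ε / (D + 1)) < ε := by
    rw [mul_div_assoc', div_lt_iff₀ (by positivity)]
    nlinarith
  linarith

variable (hC : Hull b C)

/-- the algebra of all limits -/
def A0 (hC : Hull b C) : StarSubalgebra ℂ A where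
  carrier := {x | ∃ c : ℝ, LimC C c x}
  mul_mem' := by
    rintro x y ⟨c, hx⟩ ⟨d, hy⟩
    exact ⟨_, hx.mul hC hy⟩
  add_mem' := by
    rintro x y ⟨c, hx⟩ ⟨d, hy⟩
    exact ⟨_, hx.add hC hy⟩
  algebraMap_mem' := by
    intro z
    rw [Algebra.algebraMap_eq_smul_one]
    exact ⟨_, (LimC.of_mem hC.one_mem).smul hC z⟩
  star_mem' := by
    rintro x ⟨c, hx⟩
    exact ⟨_, hx.star hC⟩

theorem mem_A0 {x : A} : x ∈ A0 hC ↔ ∃ c : ℝ, LimC C c x := Iff.rfl

theorem mem_A0_of_mem {x : A} (hx : x ∈ C) : x ∈ A0 hC := ⟨_, LimC.of_mem hx⟩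

theorem limC_norm {x : A} (hx : x ∈ A0 hC) : LimC C (‖x‖ + 1) x := by
  obtain ⟨c, hc⟩ := hx
  exact hc.norm hC

theorem isClosed_A0 : IsClosed ((A0 hC : StarSubalgebra ℂ A) : Set A) := by
  refine isClosed_of_closure_subset fun x hx => ?_
  refine ⟨‖x‖ + 2, fun ε hε => ?_⟩
  obtain ⟨y, hy, hxy⟩ := Metric.mem_closure_iff.1 hx (min 1 (ε / 2)) (by positivity)
  rw [dist_eq_norm] at hxy
  have h1 : ‖y‖ ≤ ‖x‖ + 1 := by
    have e : y = x - (x - y) := by abel
    rw [e]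
    refine (norm_sub_le _ _).trans ?_
    have := hxy.trans_le (min_le_left _ _)
    linarith
  obtain ⟨z, hz, hzn, hzy⟩ := limC_norm hC hy (ε / 2) (by positivity)
  refine ⟨z, hz, by linarith, ?_⟩
  have e : x - z = (x - y) + (y - z) := by abel
  rw [e]
  refine (nrm2_add_le _ _).trans_lt ?_
  have h2 := nrm2_le_norm (x - y)
  have h3 := hxy.trans_le (min_le_right 1 (ε / 2))
  linarith

instance : IsClosed ((A0 hC : StarSubalgebra ℂ A) : Set A) := isClosed_A0 hC

noncomputable instance : CStarAlgebra (A0 hC) := StarSubalgebra.cstarAlgebra (A0 hC)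

/-- the trace of `A0` -/
noncomputable instance : TracialState (A0 hC) where
  tau := (tau : A →ₗ[ℂ] ℂ) ∘ₗ (A0 hC).subtype.toAlgHom.toLinearMap
  tau_one := tau_one
  tau_mul_comm x y := tau_mul_comm (x : A) (y : A)
  tau_nonneg x := tau_star_mul_self_nonneg (x : A)
  tau_faithful x hx := by
    apply Subtype.ext
    exact TracialState.tau_faithful (x : A) hx

theorem tau_coe (x : A0 hC) : tau x = tau (x : A) := rfl

theorem nrm2_coe (x : A0 hC) : nrm2 x = nrm2 (x : A) := rfl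

theorem norm_coe (x : A0 hC) : ‖x‖ = ‖(x : A)‖ := rfl

theorem unitBallComplete_A0 (hA : UnitBallComplete A) : UnitBallComplete (A0 hC) := by
  intro s hs hcauchy
  obtain ⟨a, ha, hlim⟩ := hA (fun n => (s n : A)) hs hcauchy
  have hmem : a ∈ A0 hC := by
    refine ⟨2, fun ε hε => ?_⟩
    have h1 := (hlim.eventually (gt_mem_nhds (show (0 : ℝ) < ε / 2 by positivity))).exists
    obtain ⟨n, hn⟩ := h1
    obtain ⟨z, hz, hzn, hzy⟩ := limC_norm hC (s n).2 (ε / 2) (by positivity)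
    refine ⟨z, hz, hzn.trans ?_, ?_⟩
    · have := hs n
      rw [norm_coe] at this
      linarith
    · have e : a - z = (a - (s n : A)) + ((s n : A) - z) := by abel
      rw [e]
      refine (nrm2_add_le _ _).trans_lt ?_
      rw [nrm2_sub_comm a]
      linarith
  exact ⟨⟨a, hmem⟩, ha, hlim⟩

end

end Pool.Agent.FG.S
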