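import Pool.Agent.FGS.M0
import Pool.Agent.FG.UPInfinite

/-!
Project FGS (separable version of FG, MP_0c7c15_an), row FGS-11: the algebra `A0` has trivial
center, is infinite-dimensional, and its Hilbert space is separable.
-/

set_option autoImplicit false

open Filter Topology
open scoped ComplexOrder ENNReal

namespace Pool.Agent.FG.S

open UP UP.Br

section

variable {A : Type} [CStarAlgebra A] [TracialState A] {b : Par A} {C : Set A}

private theorem s11_norm_le_one {u : A} (hu : u ∈ unitary A) : ‖u‖ ≤ 1 := by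
  rcases subsingleton_or_nontrivial A with h | h
  · rw [Subsingleton.elim u 0, norm_zero]
    exact zero_le_one
  · exact (CStarRing.norm_of_mem_unitary hu).le

theorem center_A0 (hC : Hull b C) (z : A0 hC) (hz : ∀ x : A0 hC, z * x = x * z) :
    ∃ c : ℂ, z = c • (1 : A0 hC) := by
  refine ⟨tau (z : A), ?_⟩
  apply Subtype.ext
  rw [← sub_eq_zero, ← nrm2_eq_zero_iff]
  change nrm2 ((z : A) - tau (z : A) • (1 : A)) = 0
  apply le_antisymm ?_ (nrm2_nonneg _)
  apply le_of_forall_pos_le_add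
  intro ε hε
  rw [zero_add]
  obtain ⟨y, hy, -, hyz⟩ := limC_norm hC z.2 (ε / 6) (by positivity)
  obtain ⟨u, huC, huU, hu⟩ := hC.dix y hy
  have hzu : (z : A) * u = u * (z : A) :=
    congrArg (fun x : A0 hC => (x : A)) (hz ⟨u, mem_A0_of_mem hC huC⟩)
  have hu1 := s11_norm_le_one huU
  have e1 : y * u - u * y = (y - (z : A)) * u - u * (y - (z : A)) := by
    rw [sub_mul, mul_sub, hzu]
    abel
  rw [nrm2_sub_comm] at hyz
  have h1 : nrm2 (y * u - u * y) ≤ ε / 6 + ε / 6 := by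
    rw [e1]
    refine (nrm2_sub_le _ _).trans (add_le_add ?_ ?_)
    · refine (nrm2_mul_le_right _ _).trans ?_
      calc nrm2 (y - (z : A)) * ‖u‖ ≤ nrm2 (y - (z : A)) * 1 :=
            mul_le_mul_of_nonneg_left hu1 (nrm2_nonneg _)
        _ ≤ ε / 6 := by rw [mul_one]; exact hyz.le
    · refine (nrm2_mul_le_left _ _).trans ?_
      calc ‖u‖ * nrm2 (y - (z : A)) ≤ 1 * nrm2 (y - (z : A)) :=
            mul_le_mul_of_nonneg_right hu1 (nrm2_nonneg _)
        _ ≤ ε / 6 := by rw [one_mul]; exact hyz.le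
  have h2 : nrm2 (y - tau y • (1 : A)) ≤ 4 * (ε / 6) := by linarith
  have h3 : nrm2 ((tau y - tau (z : A)) • (1 : A)) ≤ ε / 6 := by
    rw [nrm2_smul, nrm2_one, mul_one, ← map_sub]
    exact (norm_tau_le _).trans hyz.le
  have e2 : (z : A) - tau (z : A) • (1 : A) =
      ((z : A) - y) + ((y - tau y • (1 : A)) + (tau y - tau (z : A)) • (1 : A)) := by
    rw [sub_smul]
    abel
  rw [e2]
  have h4 := nrm2_add_le ((z : A) - y) ((y - tau y • (1 : A)) + (tau y - tau (z : A)) • (1 : A))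
  have h5 := nrm2_add_le (y - tau y • (1 : A)) ((tau y - tau (z : A)) • (1 : A))
  rw [nrm2_sub_comm (z : A) y] at h4
  linarith

theorem not_finiteDimensional_A0 (hC : Hull b C) : ¬ FiniteDimensional ℂ (A0 hC) := by
  apply up5_indep
  intro D
  obtain ⟨e, he, hjk⟩ := hC.orth D
  refine ⟨fun j => ⟨e j, mem_A0_of_mem hC (he j).1⟩, fun j => ?_, fun j h => ?_,
    fun j k h => ?_⟩
  · apply Subtype.ext
    exact (he j).2.2
  · exact (he j).2.1 (congrArg (fun x : A0 hC => (x : A)) h)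
  · apply Subtype.ext
    exact hjk j k h

theorem separable_A0 (hC : Hull b C) : TopologicalSpace.SeparableSpace (L2 (A0 hC)) := by
  have hcount : {x : A0 hC | (x : A) ∈ C}.Countable :=
    hC.countable.preimage Subtype.val_injective
  refine ⟨(emb : A0 hC → L2 (A0 hC)) '' {x : A0 hC | (x : A) ∈ C}, hcount.image _, ?_⟩
  intro ξ
  rw [Metric.mem_closure_iff]
  intro ε hε
  obtain ⟨x, hx⟩ := denseRange_emb.exists_dist_lt ξ (show (0 : ℝ) < ε / 2 by positivity)
  obtain ⟨y, hy, -, hyx⟩ := limC_norm hC x.2 (ε / 2) (by positivity)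
  refine ⟨emb (⟨y, mem_A0_of_mem hC hy⟩ : A0 hC), ⟨_, hy, rfl⟩, ?_⟩
  have h1 : dist (emb x) (emb (⟨y, mem_A0_of_mem hC hy⟩ : A0 hC)) < ε / 2 := by
    rw [dist_eq_norm, ← emb_sub, norm_emb]
    exact hyx
  have h2 := dist_triangle ξ (emb x) (emb (⟨y, mem_A0_of_mem hC hy⟩ : A0 hC))
  linarith

end

end Pool.Agent.FG.S
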