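import Pool.Agent.FGS.Big

/-!
Project FGS (MP_0c7c15_an), row FGS-02: failure witnesses for `AxT` (helper3).
-/

set_option autoImplicit false

open Filter Topology
open scoped ComplexOrder ENNReal

namespace Pool.Agent.FG.S

open UP UP.Br

theorem exists_failW {M : Type*} [Ring M] [StarRing M] [Algebra ℂ M] {τ : M →ₗ[ℂ] ℂ}
    {b : Par M} {ε δ₁ δ₂ : ℝ} (h : ¬ AxT τ b ε δ₁ δ₂) : ∃ x y, FailW τ b ε δ₁ δ₂ x y := by
  by_contra hno
  have hn : ∀ x y, ¬ FailW τ b ε δ₁ δ₂ x y := fun x y hxy => hno ⟨x, y, hxy⟩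
  apply h
  refine ⟨?_, ?_, ?_, ?_, ?_, ?_, ?_, ?_⟩
  · intro j s
    by_contra hc
    exact hn 1 1 (Or.inl ⟨j, s, hc⟩)
  · intro i
    by_contra hc
    exact hn 1 1 (Or.inr (Or.inl ⟨i, hc⟩))
  · intro j u hu v hv h1 h2
    by_contra hc
    refine hn u v (Or.inr (Or.inr (Or.inl ⟨j, hu, hv, h1, h2, fun w hw hw1 => ?_⟩)))
    by_contra hle
    exact hc ⟨w, hw, hw1, not_lt.mp hle⟩
  · intro j u hu v hv h1 h2
    by_contra hc
    rw [not_or, not_le, not_le] at hc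
    exact hn u v (Or.inr (Or.inr (Or.inr (Or.inl ⟨j, hu, hv, h1, h2, hc.1, hc.2⟩))))
  · intro j u hu v hv h1 h2
    by_contra hc
    refine hn u v (Or.inr (Or.inr (Or.inr (Or.inr (Or.inl ⟨j, hu, hv, h1, h2, fun s => ?_⟩)))))
    by_contra hle
    exact hc ⟨s, not_lt.mp hle⟩
  · intro j u hu h1
    by_contra hc
    rw [not_or] at hc
    refine hn u 1 (Or.inr (Or.inr (Or.inr (Or.inr (Or.inr (Or.inl ⟨j, hu, h1, fun s => ?_,
      fun v hv hv1 => ?_⟩))))))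
    · by_contra hle
      exact hc.1 ⟨s, not_lt.mp hle⟩
    · by_contra hle
      exact hc.2 ⟨v, hv, hv1, not_lt.mp hle⟩
  · intro u hu v hv h1 h2
    by_contra hc
    exact hn u v (Or.inr (Or.inr (Or.inr (Or.inr (Or.inr (Or.inr (Or.inl
      ⟨hu, hv, h1, h2, not_le.mp hc⟩)))))))
  · intro x hx hall
    by_contra hc
    exact hn x 1 (Or.inr (Or.inr (Or.inr (Or.inr (Or.inr (Or.inr (Or.inr
      ⟨hx, hall, not_le.mp hc⟩)))))))

section Map

variable {M M' : Type*} [Ring M] [StarRing M] [Algebra ℂ M]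
    [Ring M'] [StarRing M'] [Algebra ℂ M'] {τ : M →ₗ[ℂ] ℂ} {τ' : M' →ₗ[ℂ] ℂ}

theorem s02_unitary (f : M →⋆ₐ[ℂ] M') {x : M} (hx : x ∈ unitary M) : f x ∈ unitary M' := by
  rw [Unitary.mem_iff] at hx ⊢
  rw [← map_star, ← map_mul, ← map_mul, hx.1, hx.2, map_one]
  exact ⟨rfl, rfl⟩

theorem s02_unitary_of (f : M →⋆ₐ[ℂ] M') (hf : Function.Injective f) {x : M}
    (hx : f x ∈ unitary M') : x ∈ unitary M := by
  rw [Unitary.mem_iff] at hx ⊢
  refine ⟨hf ?_, hf ?_⟩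
  · rw [map_mul, map_star, map_one]
    exact hx.1
  · rw [map_mul, map_star, map_one]
    exact hx.2

theorem s02_n2 (f : M →⋆ₐ[ℂ] M') (hτ : ∀ x, τ' (f x) = τ x) (z : M) :
    n2 τ' (f z) = n2 τ z := by
  unfold n2
  rw [← map_star, ← map_mul, hτ]

theorem s02_zed (f : M →⋆ₐ[ℂ] M') (b : Par M) (i : Fin 2) (u : M) :
    zed (parMap f b) i (f u) = f (zed b i u) := by
  unfold zed parMap
  simp only [map_mul, map_star]

theorem s02_Phi (f : M →⋆ₐ[ℂ] M') (hτ : ∀ x, τ' (f x) = τ x) (b : Par M) (j : Fin 2) (u : M) :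
    Phi τ' (parMap f b) j (f u) = Phi τ b j u := by
  have hc : ∀ j s, (parMap f b).c j s = f (b.c j s) := fun _ _ => rfl
  unfold Phi
  simp only [s02_zed, hc, ← map_mul, ← map_sub, ← map_pow, s02_n2 f hτ]
  rw [← map_one f, ← map_sub, s02_n2 f hτ]

theorem not_axT_of_failW {M M' : Type*} [Ring M] [StarRing M] [Algebra ℂ M]
    [Ring M'] [StarRing M'] [Algebra ℂ M'] {τ : M →ₗ[ℂ] ℂ} {τ' : M' →ₗ[ℂ] ℂ}
    (f : M →⋆ₐ[ℂ] M') (hf : Function.Injective f) (hτ : ∀ x, τ' (f x) = τ x)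
    {b : Par M} {ε δ₁ δ₂ : ℝ} {x y : M} (h : FailW τ' (parMap f b) ε δ₁ δ₂ (f x) (f y)) :
    ¬ AxT τ b ε δ₁ δ₂ := by
  intro H
  have hU : ∀ {x : M}, f x ∈ unitary M' → x ∈ unitary M := fun hx => s02_unitary_of f hf hx
  have hP : ∀ (j : Fin 2) (u : M), Phi τ' (parMap f b) j (f u) = Phi τ b j u :=
    fun j u => s02_Phi f hτ b j u
  have hN : ∀ z : M, n2 τ' (f z) = n2 τ z := fun z => s02_n2 f hτ z
  have hsub : ∀ u v w : M, n2 τ' (f u * f v - f w) = n2 τ (u * v - w) := by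
    intro u v w
    rw [← map_mul, ← map_sub, hN]
  have hcomm : ∀ u v : M, n2 τ' (f u * f v - f v * f u) = n2 τ (u * v - v * u) := by
    intro u v
    rw [← map_mul, ← map_mul, ← map_sub, hN]
  rcases h with ⟨j, s, hc⟩ | ⟨i, hc⟩ | ⟨j, hx, hy, h1, h2, hw⟩ | ⟨j, hx, hy, h1, h2, h3, h4⟩ |
    ⟨j, hx, hy, h1, h2, hs⟩ | ⟨j, hx, h1, hs, hv⟩ | ⟨hx, hy, h1, h2, h3⟩ | ⟨hx, hall, h3⟩
  · exact hc (s02_unitary f (H.unitary_c j s))
  · exact hc (s02_unitary f (H.unitary_U i))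
  · rw [hP] at h1 h2
    obtain ⟨w, hw0, hw1, hw2⟩ := H.mul j x (hU hx) y (hU hy) h1 h2
    have h5 := hw (f w) (s02_unitary f hw0) (by rw [hP]; exact hw1)
    rw [hsub] at h5
    linarith
  · rw [hP] at h1 h2
    rw [← map_sub, hN] at h3 h4
    rcases H.sep j x (hU hx) y (hU hy) h1 h2 with h5 | h5
    · linarith
    · linarith
  · rw [hP] at h1 h2
    obtain ⟨s, hs1⟩ := H.comm j x (hU hx) y (hU hy) h1 h2
    have h5 := hs s
    rw [← map_mul, ← map_mul, ← map_smul, ← map_sub, hN] at h5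
    linarith
  · rw [hP] at h1
    rcases H.nondeg j x (hU hx) h1 with ⟨s, hs1⟩ | ⟨v, hv0, hv1, hv2⟩
    · have h5 := hs s
      rw [← map_one f, ← map_smul, ← map_sub, hN] at h5
      linarith
    · have h5 := hv (f v) (s02_unitary f hv0) (by rw [hP]; exact hv1)
      rw [hcomm] at h5
      linarith
  · rw [hP] at h1 h2
    rw [hcomm] at h3
    have h5 := H.cross x (hU hx) y (hU hy) h1 h2
    linarith
  · rw [hτ] at h3
    have h5 := H.irr x (hU hx) (fun j p hp hp1 => by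
      have h6 := hall j (f p) (s02_unitary f hp) (by rw [hP]; exact hp1)
      rw [hcomm] at h6
      exact h6)
    linarith

end Map

end Pool.Agent.FG.S
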