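import Pool.Agent.FGS.M0
import Pool.Agent.FGS.Fail

/-!
Project FGS (MP_0c7c15_an), row FGS-18: `AxT` passes from a corner of `M_r(A0)` to the corner of
`M_r(A)` (helper88).
-/

set_option autoImplicit false

open Filter Topology
open scoped ComplexOrder ENNReal

namespace Pool.Agent.FG.S

open UP UP.Br

section

variable {A : Type} [CStarAlgebra A] [TracialState A] {b : Par A} {C : Set A}

theorem s18_inc_injective (hC : Hull b C) (r : ℕ) : Function.Injective (inc hC r) := by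
  intro x y hxy
  ext a c
  have h := congrArg (fun z : Matrix (Fin r) (Fin r) A => z a c) hxy
  exact h

theorem s18_trM_inc (hC : Hull b C) (r : ℕ) (x : Matrix (Fin r) (Fin r) (A0 hC)) :
    trM r (tau : A →ₗ[ℂ] ℂ) (inc hC r x) = trM r (tau : A0 hC →ₗ[ℂ] ℂ) x := by
  rw [iso6_trM_apply, iso6_trM_apply]
  rfl

theorem s18_lift (hC : Hull b C) {r : ℕ} (q : Proj (Matrix (Fin r) (Fin r) (A0 hC)))
    (x : Cor (q.map (inc hC r))) (hx : InC C x.val) :
    ∃ y : Cor q, corMap (inc hC r) (q := q.map (inc hC r)) rfl y = x := by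
  have h1 : inc hC r (Matrix.of fun a c => (⟨x.val a c, mem_A0_of_mem hC (hx a c)⟩ : A0 hC)) =
      x.val := rfl
  refine ⟨Cor.mk (Matrix.of fun a c => ⟨x.val a c, mem_A0_of_mem hC (hx a c)⟩) ?_,
    Cor.ext h1⟩
  apply s18_inc_injective hC r
  rw [map_mul, map_mul, h1]
  exact x.prop

theorem axT_big (hC : Hull b C) {r : ℕ} (q : Proj (Matrix (Fin r) (Fin r) (A0 hC)))
    (hq : InC C (inc hC r q.val)) (b' : Par (Cor q))
    (hb : (∀ j s, InC C (inc hC r (b'.c j s).val)) ∧ ∀ i, InC C (inc hC r (b'.U i).val))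
    {ε δ₁ δ₂ : ℚ} (h : AxT (corTr (trM r (tau : A0 hC →ₗ[ℂ] ℂ)) q) b' ε δ₁ δ₂) :
    AxT (corTr (trM r (tau : A →ₗ[ℂ] ℂ)) (q.map (inc hC r)))
      (parMap (corMap (inc hC r) (q := q.map (inc hC r)) rfl) b') ε δ₁ δ₂ := by
  by_contra hn
  obtain ⟨x, y, hx, hy, hf⟩ := hC.fail r (q.map (inc hC r))
    (parMap (corMap (inc hC r) (q := q.map (inc hC r)) rfl) b') ε δ₁ δ₂ hq ⟨hb.1, hb.2⟩
    (exists_failW hn)
  obtain ⟨x', rfl⟩ := s18_lift hC q x hx
  obtain ⟨y', rfl⟩ := s18_lift hC q y hy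
  exact not_axT_of_failW (corMap (inc hC r) (q := q.map (inc hC r)) rfl)
    (corMap_injective (inc hC r) (s18_inc_injective hC r) rfl)
    (corTr_corMap (inc hC r) (s18_trM_inc hC r) rfl) hf h

end

end Pool.Agent.FG.S
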