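import Pool.Agent.FGS.M0

/-!
Project FGS (MP_0c7c15_an), row FGS-12: representatives with values in the hull `C` (helper3).
-/

set_option autoImplicit false

open Filter Topology
open scoped ComplexOrder ENNReal

namespace Pool.Agent.FG.S

open UP UP.Br

section

variable {A : Type} [CStarAlgebra A] [TracialState A] {b : Par A} {C : Set A}

theorem s12_mk_eq (hC : Hull b C) {U : Ultrafilter ℕ} (x y : BSeq (A0 hC))
    (h : Tendsto (fun k => nrm2 (x k - y k)) U (𝓝 0)) :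
    mkL (A0 hC) U x = mkL (A0 hC) U y :=
  (Ultraproduct.mk_eq_mk_iff (fun _ : ℕ => A0 hC) U).2 h

/-- elements of `M0` lift to bounded sequences with values in `C` -/
theorem s12_rep (hC : Hull b C) {U : Ultrafilter ℕ} (hU : (U : Filter ℕ) ≤ cofinite)
    (a : M0 hC U) : ∃ x : BSeq (A0 hC), mkL (A0 hC) U x = a ∧ ∀ k, ((x k : A0 hC) : A) ∈ C := by
  obtain ⟨y, hy⟩ := Ultraproduct.mk_surjective (fun _ : ℕ => A0 hC) U a
  have h1 : ∀ k : ℕ, ∃ z ∈ C, ‖z‖ ≤ ‖((y k : A0 hC) : A)‖ + 1 ∧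
      nrm2 (((y k : A0 hC) : A) - z) < 1 / ((k : ℝ) + 1) := fun k =>
    limC_norm hC (y k).2 (1 / ((k : ℝ) + 1)) (by positivity)
  choose z hzC hzn hzy using h1
  have hb : ∀ k, ‖(⟨z k, mem_A0_of_mem hC (hzC k)⟩ : A0 hC)‖ ≤ ‖y‖ + 1 := by
    intro k
    have h2 : ‖((y k : A0 hC) : A)‖ ≤ ‖y‖ := lp.norm_apply_le_norm ENNReal.top_ne_zero y k
    exact (hzn k).trans (by linarith)
  let x : BSeq (A0 hC) := ⟨fun k => ⟨z k, mem_A0_of_mem hC (hzC k)⟩,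
    memℓp_infty ⟨‖y‖ + 1, by rintro _ ⟨k, rfl⟩; exact hb k⟩⟩
  refine ⟨x, ?_, fun k => hzC k⟩
  rw [← hy]
  refine s12_mk_eq hC x y ?_
  have hlim : Tendsto (fun k : ℕ => 1 / ((k : ℝ) + 1)) U (𝓝 0) :=
    tendsto_one_div_add_atTop_nhds_zero_nat.mono_left (hU.trans Nat.cofinite_eq_atTop.le)
  refine squeeze_zero (fun k => nrm2_nonneg _) (fun k => ?_) hlim
  have h3 : nrm2 (x k - y k) = nrm2 (((y k : A0 hC) : A) - z k) := by
    rw [nrm2_sub_comm, nrm2_coe]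
    rfl
  rw [h3]
  exact (hzy k).le

theorem exists_repC (hC : Hull b C) {U : Ultrafilter ℕ} (hU : (U : Filter ℕ) ≤ cofinite) {r : ℕ}
    (X : Matrix (Fin r) (Fin r) (M0 hC U)) :
    ∃ X' : Matrix (Fin r) (Fin r) (BSeq (A0 hC)), clM (A0 hC) r U X' = X ∧
      ∀ k, InC C (inc hC r (evM (A0 hC) r k X')) := by
  choose x hx hxC using fun (i j : Fin r) => s12_rep hC hU (X i j)
  refine ⟨Matrix.of x, ?_, fun k i j => hxC i j k⟩
  ext i j
  exact hx i j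

/-- unitaries of `M0` lift to sequences of unitaries with values in `C` -/
theorem exists_unitary_repC (hC : Hull b C) {U : Ultrafilter ℕ}
    (hU : (U : Filter ℕ) ≤ cofinite) (u : M0 hC U) (hu : u ∈ unitary (M0 hC U)) :
    ∃ x : BSeq (A0 hC), mkL (A0 hC) U x = u ∧
      ∀ k, x k ∈ unitary (A0 hC) ∧ ((x k : A0 hC) : A) ∈ C := by
  obtain ⟨x, hx, hxC⟩ := s12_rep hC hU u
  choose w hwC hwu hw using fun k : ℕ => hC.upolar _ (hxC k)
  have hu0 : ∀ k, (⟨w k, mem_A0_of_mem hC (hwC k)⟩ : A0 hC) ∈ unitary (A0 hC) := by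
    intro k
    rw [Unitary.mem_iff]
    exact ⟨Subtype.ext (Unitary.mem_iff.mp (hwu k)).1, Subtype.ext (Unitary.mem_iff.mp (hwu k)).2⟩
  have hb : ∀ k, ‖(⟨w k, mem_A0_of_mem hC (hwC k)⟩ : A0 hC)‖ ≤ 1 := fun k =>
    (CStarRing.norm_of_mem_unitary (hu0 k)).le
  let W : BSeq (A0 hC) := ⟨fun k => ⟨w k, mem_A0_of_mem hC (hwC k)⟩,
    memℓp_infty ⟨1, by rintro _ ⟨k, rfl⟩; exact hb k⟩⟩
  refine ⟨W, ?_, fun k => ⟨hu0 k, hwC k⟩⟩
  rw [← hx]
  refine s12_mk_eq hC W x ?_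
  have h1 := Ultraproduct.tendsto_nrm2 (fun _ : ℕ => A0 hC) U (star x * x - 1)
  have h2 : Ultraproduct.mk (fun _ : ℕ => A0 hC) U (star x * x - 1) = 0 := by
    have h3 : mkL (A0 hC) U (star x * x - 1) = 0 := by
      rw [map_sub, map_mul, map_star, map_one, hx, (Unitary.mem_iff.mp hu).1, sub_self]
    exact h3
  rw [h2, nrm2_zero] at h1
  refine squeeze_zero (fun k => nrm2_nonneg _) (fun k => ?_) h1
  have h3 : nrm2 (W k - x k) = nrm2 (((x k : A0 hC) : A) - w k) := by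
    rw [nrm2_sub_comm, nrm2_coe]
    rfl
  rw [h3]
  exact hw k

end

end Pool.Agent.FG.S
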