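import Pool.Agent.FGS.M0
import Pool.Agent.FGS.RepC

/-!
# Project FGS, row FGS-17: the finite precision properties of `M0`
-/

set_option autoImplicit false

open Filter Topology
open scoped ComplexOrder ENNReal

namespace Pool.Agent.FG.S

open UP UP.Br

section

variable {A : Type} [CStarAlgebra A] [TracialState A] {b : Par A} {C : Set A}

theorem s17_n2 (hC : Hull b C) (U : Ultrafilter ℕ) (z : BSeq (A0 hC)) :
    Tendsto (fun k => n2 (tau : A →ₗ[ℂ] ℂ) ((z k : A0 hC) : A)) U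
      (𝓝 (n2 (tau : M0 hC U →ₗ[ℂ] ℂ) (mkL (A0 hC) U z))) :=
  Ultraproduct.tendsto_nrm2 (fun _ : ℕ => A0 hC) U z

theorem s17_Phi (hC : Hull b C) (U : Ultrafilter ℕ) (j : Fin 2) (x : BSeq (A0 hC)) :
    Tendsto (fun k => Phi (tau : A →ₗ[ℂ] ℂ) b j ((x k : A0 hC) : A)) U
      (𝓝 (Phi (tau : M0 hC U →ₗ[ℂ] ℂ) (parM0 hC U) j (mkL (A0 hC) U x))) := by
  have hterm : ∀ (c : A0 hC) (z : BSeq (A0 hC)),
      Tendsto (fun k => n2 (tau : A →ₗ[ℂ] ℂ)
        ((c : A) * ((z k : A0 hC) : A) - ((z k : A0 hC) : A) * (c : A))) U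
      (𝓝 (n2 (tau : M0 hC U →ₗ[ℂ] ℂ)
        (mkL (A0 hC) U (constL (A0 hC) c) * mkL (A0 hC) U z -
          mkL (A0 hC) U z * mkL (A0 hC) U (constL (A0 hC) c)))) := by
    intro c z
    have := s17_n2 hC U (constL (A0 hC) c * z - z * constL (A0 hC) c)
    rw [map_sub, map_mul, map_mul] at this
    exact this
  have hz : ∀ i : Fin 2, zed (parM0 hC U) i (mkL (A0 hC) U x) =
      mkL (A0 hC) U (star (constL (A0 hC) ((parA0 hC).U i)) * x *
        constL (A0 hC) ((parA0 hC).U i) * star x) := by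
    intro i
    rw [map_mul, map_mul, map_mul, map_star, map_star]
    rfl
  refine Tendsto.add (Tendsto.add ?_ ?_) ?_
  · exact tendsto_finsetSum _ fun s _ => hterm ((parA0 hC).c (1 - j) s) x
  · refine tendsto_finsetSum _ fun i _ => tendsto_finsetSum _ fun s _ => ?_
    have := hterm ((parA0 hC).c j s) (star (constL (A0 hC) ((parA0 hC).U i)) * x *
        constL (A0 hC) ((parA0 hC).U i) * star x)
    rw [← hz] at this
    exact this
  · have := s17_n2 hC U (x ^ 3 - 1)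
    rw [map_sub, map_pow, map_one] at this
    exact this

/-- a sequence of unitaries of `A0` -/
theorem s17_seq (hC : Hull b C) (w : ℕ → A0 hC) (hw : ∀ k, w k ∈ unitary (A0 hC)) :
    ∃ x : BSeq (A0 hC), ∀ k, x k = w k := by
  refine ⟨⟨w, memℓp_infty ⟨1, ?_⟩⟩, fun k => rfl⟩
  rintro _ ⟨k, rfl⟩
  exact (CStarRing.norm_of_mem_unitary (hw k)).le

theorem s17_mk_unitary (hC : Hull b C) (U : Ultrafilter ℕ) (x : BSeq (A0 hC))
    (hx : ∀ k, x k ∈ unitary (A0 hC)) : mkL (A0 hC) U x ∈ unitary (M0 hC U) := by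
  have h1 : star x * x = 1 := by
    apply Subtype.ext
    funext k
    exact (Unitary.mem_iff.mp (hx k)).1
  have h2 : x * star x = 1 := by
    apply Subtype.ext
    funext k
    exact (Unitary.mem_iff.mp (hx k)).2
  rw [Unitary.mem_iff]
  constructor
  · rw [← map_star, ← map_mul, h1, map_one]
  · rw [← map_star, ← map_mul, h2, map_one]

theorem s17_unitary_A0 (hC : Hull b C) {x : A0 hC} :
    x ∈ unitary (A0 hC) ↔ (x : A) ∈ unitary A := by
  rw [Unitary.mem_iff, Unitary.mem_iff]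
  constructor
  · rintro ⟨h1, h2⟩
    exact ⟨congrArg (Subtype.val) h1, congrArg (Subtype.val) h2⟩
  · rintro ⟨h1, h2⟩
    exact ⟨Subtype.ext h1, Subtype.ext h2⟩

/-- choice of witnesses in `C` -/
theorem s17_choose (hC : Hull b C) (U : Ultrafilter ℕ) (Q : ℕ → A → Prop)
    (hQ : ∀ᶠ k in (U : Filter ℕ), ∃ w ∈ C, w ∈ unitary A ∧ Q k w) :
    ∃ x : BSeq (A0 hC), mkL (A0 hC) U x ∈ unitary (M0 hC U) ∧
      ∀ᶠ k in (U : Filter ℕ), Q k ((x k : A0 hC) : A) := by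
  classical
  have hex : ∀ k, ∃ w : A0 hC, w ∈ unitary (A0 hC) ∧
      ((∃ w ∈ C, w ∈ unitary A ∧ Q k w) → Q k (w : A)) := by
    intro k
    by_cases hk : ∃ w ∈ C, w ∈ unitary A ∧ Q k w
    · obtain ⟨w, hw, hwu, hwQ⟩ := hk
      exact ⟨⟨w, mem_A0_of_mem hC hw⟩, (s17_unitary_A0 hC).mpr hwu, fun _ => hwQ⟩
    · exact ⟨1, one_mem _, fun h => absurd h hk⟩
  choose w hw hwQ using hex
  obtain ⟨x, hx⟩ := s17_seq hC w hw
  refine ⟨x, s17_mk_unitary hC U x fun k => by rw [hx]; exact hw k, ?_⟩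
  filter_upwards [hQ] with k hk
  rw [hx]
  exact hwQ k hk

theorem axT_M0 (hC : Hull b C) {U : Ultrafilter ℕ} (hU : (U : Filter ℕ) ≤ cofinite)
    {ε ε' δ₁ δ₁' δ₂ : ℚ} (h1 : ε < ε') (h2 : δ₁ < δ₁')
    (h : AxT (tau : A →ₗ[ℂ] ℂ) b ε δ₁ δ₂) :
    AxT (tau : M0 hC U →ₗ[ℂ] ℂ) (parM0 hC U) ε' δ₁' δ₂ := by
  classical
  have h1' : (ε : ℝ) < ε' := by exact_mod_cast h1
  have h2' : (δ₁ : ℝ) < δ₁' := by exact_mod_cast h2
  have hrep : ∀ u : M0 hC U, u ∈ unitary (M0 hC U) → ∃ x : BSeq (A0 hC),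
      mkL (A0 hC) U x = u ∧ ∀ k, ((x k : A0 hC) : A) ∈ unitary A ∧ ((x k : A0 hC) : A) ∈ C := by
    intro u hu
    obtain ⟨x, hx, hxk⟩ := exists_unitary_repC hC hU u hu
    exact ⟨x, hx, fun k => ⟨(s17_unitary_A0 hC).mp (hxk k).1, (hxk k).2⟩⟩
  have hPhi : ∀ (j : Fin 2) (x : BSeq (A0 hC)),
      Phi (tau : M0 hC U →ₗ[ℂ] ℂ) (parM0 hC U) j (mkL (A0 hC) U x) < δ₂ →
      ∀ᶠ k in (U : Filter ℕ), Phi (tau : A →ₗ[ℂ] ℂ) b j ((x k : A0 hC) : A) < δ₂ := by
    intro j x hx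
    exact (s17_Phi hC U j x).eventually_lt_const hx
  have hPhi' : ∀ (j : Fin 2) (x : BSeq (A0 hC)),
      (∀ᶠ k in (U : Filter ℕ), Phi (tau : A →ₗ[ℂ] ℂ) b j ((x k : A0 hC) : A) < δ₁) →
      Phi (tau : M0 hC U →ₗ[ℂ] ℂ) (parM0 hC U) j (mkL (A0 hC) U x) < δ₁' := by
    intro j x hx
    refine lt_of_le_of_lt ?_ h2'
    exact le_of_tendsto (s17_Phi hC U j x) (hx.mono fun k hk => hk.le)
  refine
    { unitary_c := ?_
      unitary_U := ?_
      mul := ?_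
      sep := ?_
      comm := ?_
      nondeg := ?_
      cross := ?_
      irr := ?_ }
  · intro j s
    exact s17_mk_unitary hC U (constL (A0 hC) ((parA0 hC).c j s))
      fun k => (s17_unitary_A0 hC).mpr (h.unitary_c j s)
  · intro i
    exact s17_mk_unitary hC U (constL (A0 hC) ((parA0 hC).U i))
      fun k => (s17_unitary_A0 hC).mpr (h.unitary_U i)
  · intro j u hu v hv hPu hPv
    obtain ⟨x, rfl, hx⟩ := hrep u hu
    obtain ⟨y, rfl, hy⟩ := hrep v hv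
    obtain ⟨w, hwu, hw⟩ := s17_choose hC U (fun k w =>
      Phi (tau : A →ₗ[ℂ] ℂ) b j w < δ₁ ∧
        nrm2 (((x k : A0 hC) : A) * ((y k : A0 hC) : A) - w) ≤ ε) (by
      filter_upwards [hPhi j x hPu, hPhi j y hPv] with k hk1 hk2
      obtain ⟨w, hw, hw1, hw2⟩ := h.mul j _ (hx k).1 _ (hy k).1 hk1 hk2
      obtain ⟨w', hwC, hwu, hw3, hw4⟩ := hC.wmul j ε δ₁ _ (hx k).2 _ (hy k).2 ⟨w, hw, hw1, hw2⟩
      exact ⟨w', hwC, hwu, hw3, hw4⟩)
    refine ⟨_, hwu, hPhi' j w (hw.mono fun k hk => hk.1), ?_⟩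
    have h5 := s17_n2 hC U (x * y - w)
    rw [map_sub, map_mul] at h5
    exact le_trans (le_of_tendsto h5 (hw.mono fun k hk => hk.2)) h1'.le
  · intro j u hu v hv hPu hPv
    obtain ⟨x, rfl, hx⟩ := hrep u hu
    obtain ⟨y, rfl, hy⟩ := hrep v hv
    have h5 := s17_n2 hC U (x - y)
    rw [map_sub] at h5
    by_cases hc : ∀ᶠ k in (U : Filter ℕ),
        n2 (tau : A →ₗ[ℂ] ℂ) (((x k : A0 hC) : A) - ((y k : A0 hC) : A)) ≤ ε
    · exact Or.inl (le_trans (le_of_tendsto h5 hc) h1'.le)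
    · rw [← Ultrafilter.eventually_not] at hc
      right
      have h6 : 6 / 5 - (ε : ℝ) ≤ n2 (tau : M0 hC U →ₗ[ℂ] ℂ)
          (mkL (A0 hC) U x - mkL (A0 hC) U y) := by
        refine ge_of_tendsto h5 ?_
        filter_upwards [hPhi j x hPu, hPhi j y hPv, hc] with k hk1 hk2 hk3
        exact (h.sep j _ (hx k).1 _ (hy k).1 hk1 hk2).resolve_left hk3
      linarith
  · intro j u hu v hv hPu hPv
    obtain ⟨x, rfl, hx⟩ := hrep u hu
    obtain ⟨y, rfl, hy⟩ := hrep v hv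
    have h4 : ∃ s : Fin 3, ∀ᶠ k in (U : Filter ℕ),
        n2 (tau : A →ₗ[ℂ] ℂ) (((x k : A0 hC) : A) * ((y k : A0 hC) : A) -
          om ^ (s : ℕ) • (((y k : A0 hC) : A) * ((x k : A0 hC) : A))) ≤ ε := by
      by_contra hn
      push Not at hn
      have h6 : ∀ s : Fin 3, ∀ᶠ k in (U : Filter ℕ),
          ¬ n2 (tau : A →ₗ[ℂ] ℂ) (((x k : A0 hC) : A) * ((y k : A0 hC) : A) -
            om ^ (s : ℕ) • (((y k : A0 hC) : A) * ((x k : A0 hC) : A))) ≤ ε := fun s =>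
        (hn s).mono fun k hk => not_le.mpr hk
      obtain ⟨k, ⟨⟨⟨hk1, hk2⟩, k0⟩, k1⟩, k2⟩ :=
        (((((hPhi j x hPu)).and (hPhi j y hPv)).and (h6 0)).and (h6 1)).and (h6 2) |>.exists
      obtain ⟨s, hs⟩ := h.comm j _ (hx k).1 _ (hy k).1 hk1 hk2
      fin_cases s
      · exact k0 hs
      · exact k1 hs
      · exact k2 hs
    obtain ⟨s, hs⟩ := h4
    refine ⟨s, ?_⟩
    have h5 := s17_n2 hC U (x * y - om ^ (s : ℕ) • (y * x))
    rw [map_sub, map_smul, map_mul, map_mul] at h5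
    exact le_trans (le_of_tendsto h5 hs) h1'.le
  · intro j u hu hPu
    obtain ⟨x, rfl, hx⟩ := hrep u hu
    by_cases hc : ∃ s : Fin 3, ∀ᶠ k in (U : Filter ℕ),
        n2 (tau : A →ₗ[ℂ] ℂ) (((x k : A0 hC) : A) - om ^ (s : ℕ) • 1) ≤ ε
    · left
      obtain ⟨s, hs⟩ := hc
      refine ⟨s, ?_⟩
      have h5 := s17_n2 hC U (x - om ^ (s : ℕ) • 1)
      rw [map_sub, map_smul, map_one] at h5
      exact le_trans (le_of_tendsto h5 hs) h1'.le
    · right
      push Not at hc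
      have h6 : ∀ s : Fin 3, ∀ᶠ k in (U : Filter ℕ),
          ¬ n2 (tau : A →ₗ[ℂ] ℂ) (((x k : A0 hC) : A) - om ^ (s : ℕ) • 1) ≤ ε := fun s =>
        (hc s).mono fun k hk => not_le.mpr hk
      obtain ⟨v, hvu, hv⟩ := s17_choose hC U (fun k v =>
        Phi (tau : A →ₗ[ℂ] ℂ) b j v < δ₁ ∧
          ((6 / 5 - ε : ℚ) : ℝ) ≤ nrm2 (((x k : A0 hC) : A) * v - v * ((x k : A0 hC) : A))) (by
        filter_upwards [hPhi j x hPu, h6 0, h6 1, h6 2] with k hk1 k0 k1 k2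
        rcases h.nondeg j _ (hx k).1 hk1 with ⟨s, hs⟩ | ⟨v, hv, hv1, hv2⟩
        · exfalso
          fin_cases s
          · exact k0 hs
          · exact k1 hs
          · exact k2 hs
        · exact hC.wnondeg j (6 / 5 - ε) δ₁ _ (hx k).2 ⟨v, hv, hv1, by
            push_cast
            exact hv2⟩)
      refine ⟨_, hvu, hPhi' j v (hv.mono fun k hk => hk.1), ?_⟩
      have h5 := s17_n2 hC U (x * v - v * x)
      rw [map_sub, map_mul, map_mul] at h5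
      have h7 := ge_of_tendsto h5 (hv.mono fun k hk => hk.2)
      push_cast at h7
      refine le_trans ?_ h7
      linarith
  · intro u hu v hv hPu hPv
    obtain ⟨x, rfl, hx⟩ := hrep u hu
    obtain ⟨y, rfl, hy⟩ := hrep v hv
    have h5 := s17_n2 hC U (x * y - y * x)
    rw [map_sub, map_mul, map_mul] at h5
    refine le_trans (le_of_tendsto h5 ?_) h1'.le
    filter_upwards [hPhi 0 x hPu, hPhi 1 y hPv] with k hk1 hk2
    exact h.cross _ (hx k).1 _ (hy k).1 hk1 hk2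
  · intro u hu hup
    obtain ⟨x, rfl, hx⟩ := hrep u hu
    -- for most `k` the hypothesis of `irr` holds
    have key : ∀ j : Fin 2, ∀ᶠ k in (U : Filter ℕ), ∀ p ∈ unitary A,
        Phi (tau : A →ₗ[ℂ] ℂ) b j p < δ₁ →
        n2 (tau : A →ₗ[ℂ] ℂ) (((x k : A0 hC) : A) * p - p * ((x k : A0 hC) : A)) ≤
          1 / 4 - ε := by
      intro j
      by_contra hn
      rw [← Ultrafilter.eventually_not] at hn
      obtain ⟨p, hpu, hp⟩ := s17_choose hC U (fun k p =>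
        Phi (tau : A →ₗ[ℂ] ℂ) b j p < δ₁ ∧
          ((1 / 4 - ε : ℚ) : ℝ) < nrm2 (((x k : A0 hC) : A) * p - p * ((x k : A0 hC) : A))) (by
        filter_upwards [hn] with k hk
        push Not at hk
        obtain ⟨p, hp, hp1, hp2⟩ := hk
        exact hC.wirr j (1 / 4 - ε) δ₁ _ (hx k).2 ⟨p, hp, hp1, by
          push_cast
          exact hp2⟩)
      have h7 := hup j _ hpu (hPhi' j p (hp.mono fun k hk => hk.1))
      have h5 := s17_n2 hC U (x * p - p * x)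
      rw [map_sub, map_mul, map_mul] at h5
      have h8 := ge_of_tendsto h5 (hp.mono fun k hk => hk.2.le)
      push_cast at h8
      linarith
    have h9 : Tendsto (fun k => ‖(tau : A →ₗ[ℂ] ℂ) ((x k : A0 hC) : A)‖) U
        (𝓝 ‖(tau : M0 hC U →ₗ[ℂ] ℂ) (mkL (A0 hC) U x)‖) :=
      (Ultraproduct.tendsto_tau (fun _ : ℕ => A0 hC) U x).norm
    have h10 : 6 / 10 - (ε : ℝ) ≤ ‖(tau : M0 hC U →ₗ[ℂ] ℂ) (mkL (A0 hC) U x)‖ := by
      refine ge_of_tendsto h9 ?_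
      filter_upwards [key 0, key 1] with k hk0 hk1
      refine h.irr _ (hx k).1 ?_
      intro j
      fin_cases j
      · exact hk0
      · exact hk1
    linarith

end

end Pool.Agent.FG.S
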