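import Pool.Agent.FG.Tr

/-!
Project FGS (separable version of FG, MP_0c7c15_an): corners `p B p` of a *-algebra.
-/

set_option autoImplicit false
set_option linter.unusedSectionVars false

open scoped ComplexOrder

namespace Pool.Agent.FG.S

/-- a projection of a *-ring -/
structure Proj (B : Type*) [Mul B] [Star B] where
  /-- the element -/
  val : B
  mul_self : val * val = val
  star_val : star val = val

section Corner

variable {B : Type*} [Ring B] [StarRing B] [Algebra ℂ B]

/-- the subspace `p B p` -/
def corSub (p : Proj B) : Submodule ℂ B where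
  carrier := {x | p.val * x * p.val = x}
  zero_mem' := by
    change p.val * 0 * p.val = 0
    rw [mul_zero, zero_mul]
  add_mem' := by
    intro x y hx hy
    change p.val * (x + y) * p.val = x + y
    rw [mul_add, add_mul, show p.val * x * p.val = x from hx, show p.val * y * p.val = y from hy]
  smul_mem' := by
    intro c x hx
    change p.val * (c • x) * p.val = c • x
    rw [mul_smul_comm, smul_mul_assoc, show p.val * x * p.val = x from hx]

/-- the corner `p B p`, an algebra with unit `p` -/
def Cor (p : Proj B) : Type _ := corSub p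

variable {p : Proj B}

noncomputable instance : AddCommGroup (Cor p) := inferInstanceAs (AddCommGroup (corSub p))

noncomputable instance : Module ℂ (Cor p) := inferInstanceAs (Module ℂ (corSub p))

/-- the underlying element of `B` -/
def Cor.val (x : Cor p) : B := Subtype.val x

theorem Cor.ext {x y : Cor p} (h : x.val = y.val) : x = y := Subtype.ext h

/-- an element of the corner -/
def Cor.mk (x : B) (hx : p.val * x * p.val = x) : Cor p := ⟨x, hx⟩

theorem Cor.val_mk (x : B) (hx : p.val * x * p.val = x) : (Cor.mk x hx : Cor p).val = x := rfl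

theorem Cor.prop (x : Cor p) : p.val * x.val * p.val = x.val := Subtype.prop x

theorem Cor.left (x : Cor p) : p.val * x.val = x.val := by
  conv_lhs => rw [← x.prop]
  rw [← mul_assoc, ← mul_assoc, p.mul_self, x.prop]

theorem Cor.right (x : Cor p) : x.val * p.val = x.val := by
  conv_lhs => rw [← x.prop]
  rw [mul_assoc, p.mul_self, x.prop]

theorem Cor.prop_of {x : B} (h1 : p.val * x = x) (h2 : x * p.val = x) :
    p.val * x * p.val = x := by rw [h1, h2]

noncomputable instance : Mul (Cor p) where
  mul x y := Cor.mk (x.val * y.val) (Cor.prop_of (by rw [← mul_assoc, x.left])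
    (by rw [mul_assoc, y.right]))

noncomputable instance : One (Cor p) where
  one := Cor.mk p.val (by rw [p.mul_self, p.mul_self])

theorem Cor.val_mul (x y : Cor p) : (x * y).val = x.val * y.val := rfl

theorem Cor.val_one : (1 : Cor p).val = p.val := rfl

theorem Cor.val_add (x y : Cor p) : (x + y).val = x.val + y.val := rfl

theorem Cor.val_sub (x y : Cor p) : (x - y).val = x.val - y.val := rfl

theorem Cor.val_neg (x : Cor p) : (-x).val = -x.val := rfl

theorem Cor.val_zero : (0 : Cor p).val = 0 := rfl

theorem Cor.val_smul (c : ℂ) (x : Cor p) : (c • x).val = c • x.val := rfl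

noncomputable instance : Ring (Cor p) where
  __ := (inferInstance : AddCommGroup (Cor p))
  mul_assoc x y z := Cor.ext (mul_assoc x.val y.val z.val)
  one_mul x := Cor.ext x.left
  mul_one x := Cor.ext x.right
  left_distrib x y z := Cor.ext (mul_add x.val y.val z.val)
  right_distrib x y z := Cor.ext (add_mul x.val y.val z.val)
  zero_mul x := Cor.ext (zero_mul x.val)
  mul_zero x := Cor.ext (mul_zero x.val)

noncomputable instance : Algebra ℂ (Cor p) :=
  Algebra.ofModule (fun c x y => Cor.ext (smul_mul_assoc c x.val y.val))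
    (fun c x y => Cor.ext (mul_smul_comm c x.val y.val))

noncomputable instance : Star (Cor p) where
  star x := Cor.mk (star x.val) (by
    have h := congrArg star x.prop
    rw [star_mul, star_mul, p.star_val, ← mul_assoc] at h
    exact h)

theorem Cor.val_star (x : Cor p) : (star x).val = star x.val := rfl

noncomputable instance : StarRing (Cor p) where
  star_involutive x := Cor.ext (star_star x.val)
  star_mul x y := Cor.ext (star_mul x.val y.val)
  star_add x y := Cor.ext (star_add x.val y.val)

instance [StarModule ℂ B] : StarModule ℂ (Cor p) where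
  star_smul c x := Cor.ext (star_smul c x.val)

example (c : ℂ) (x : Cor p) : (c • x).val = c • x.val := rfl

theorem Cor.val_pow (x : Cor p) (n : ℕ) : (x ^ (n + 1)).val = x.val ^ (n + 1) := by
  induction n with
  | zero => rw [zero_add, pow_one, pow_one]
  | succ n ih => rw [pow_succ, Cor.val_mul, ih, ← pow_succ]

/-- the normalised trace of the corner -/
noncomputable def corTr (τ : B →ₗ[ℂ] ℂ) (p : Proj B) : Cor p →ₗ[ℂ] ℂ :=
  (τ p.val)⁻¹ • (τ ∘ₗ (corSub p).subtype)

theorem corTr_apply (τ : B →ₗ[ℂ] ℂ) (x : Cor p) : corTr τ p x = (τ p.val)⁻¹ * τ x.val := rfl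

theorem tr_proj_nonneg {τ : B →ₗ[ℂ] ℂ} (hτ : IsTr τ) (p : Proj B) : 0 ≤ τ p.val := by
  have h := hτ.pos p.val
  rwa [p.star_val, p.mul_self] at h

theorem isTr_corTr {τ : B →ₗ[ℂ] ℂ} (hτ : IsTr τ) (hp : τ p.val ≠ 0) : IsTr (corTr τ p) where
  one := by
    rw [corTr_apply, Cor.val_one, inv_mul_cancel₀ hp]
  comm x y := by
    rw [corTr_apply, corTr_apply, Cor.val_mul, Cor.val_mul, hτ.comm]
  pos x := by
    rw [corTr_apply]
    refine mul_nonneg ?_ (hτ.pos x.val)
    exact inv_nonneg.2 (tr_proj_nonneg hτ p)

/-- `x` is unitary in the corner if and only if `x* x = p = x x*` -/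
theorem Cor.mem_unitary_iff {x : Cor p} :
    x ∈ unitary (Cor p) ↔ star x.val * x.val = p.val ∧ x.val * star x.val = p.val := by
  rw [Unitary.mem_iff]
  constructor
  · rintro ⟨h1, h2⟩
    exact ⟨congrArg Cor.val h1, congrArg Cor.val h2⟩
  · rintro ⟨h1, h2⟩
    exact ⟨Cor.ext h1, Cor.ext h2⟩

end Corner

section Map

variable {B B' : Type*} [Ring B] [StarRing B] [Algebra ℂ B] [Ring B'] [StarRing B'] [Algebra ℂ B']

/-- a *-homomorphism with `f p = q` restricted to the corners -/
noncomputable def corMap (f : B →⋆ₐ[ℂ] B') {p : Proj B} {q : Proj B'} (h : f p.val = q.val) :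
    Cor p →⋆ₐ[ℂ] Cor q where
  toFun x := Cor.mk (f x.val) (by rw [← h, ← map_mul, ← map_mul, x.prop])
  map_one' := Cor.ext h
  map_mul' x y := Cor.ext (map_mul f x.val y.val)
  map_zero' := Cor.ext (map_zero f)
  map_add' x y := Cor.ext (map_add f x.val y.val)
  commutes' c := Cor.ext (by
    rw [Algebra.algebraMap_eq_smul_one, Algebra.algebraMap_eq_smul_one]
    change f (c • p.val) = c • q.val
    rw [map_smul, h])
  map_star' x := Cor.ext (map_star f x.val)

theorem corMap_val (f : B →⋆ₐ[ℂ] B') {p : Proj B} {q : Proj B'} (h : f p.val = q.val)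
    (x : Cor p) : (corMap f h x).val = f x.val := rfl

theorem corMap_injective (f : B →⋆ₐ[ℂ] B') (hf : Function.Injective f) {p : Proj B}
    {q : Proj B'} (h : f p.val = q.val) : Function.Injective (corMap f h) := by
  intro x y hxy
  exact Cor.ext (hf (congrArg Cor.val hxy))

theorem corTr_corMap {τ : B →ₗ[ℂ] ℂ} {τ' : B' →ₗ[ℂ] ℂ} (f : B →⋆ₐ[ℂ] B')
    (hf : ∀ x, τ' (f x) = τ x) {p : Proj B} {q : Proj B'} (h : f p.val = q.val) (x : Cor p) :
    corTr τ' q (corMap f h x) = corTr τ p x := by
  rw [corTr_apply, corTr_apply, corMap_val, hf, ← h, hf]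

end Map

end Pool.Agent.FG.S
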