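import Pool.Agent.FG.UPFactor
import Pool.Agent.FG.UDefs
import Pool.Agent.FG.MatModel
import Pool.Agent.FGS.Cor

/-!
Project FGS (separable version of FG, MP_0c7c15_an): the big algebra (an ultraproduct of matrix
algebras) as a C*-algebra, failure witnesses, Skolem hulls, and the separable subalgebra `A0`.
Definitions only.
-/

set_option autoImplicit false

open Filter Topology
open scoped ComplexOrder ENNReal

namespace Pool.Agent.FG.S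

open UP UP.Br

section BigAlg

open scoped Matrix.Norms.L2Operator

variable (n : ℕ → Type) [∀ i, Fintype (n i)] [∀ i, DecidableEq (n i)] [∀ i, Nonempty (n i)]
  (V : Ultrafilter ℕ)

/-- the ultraproduct of the matrix algebras over `n i`, a C*-algebra with trace -/
abbrev Big : Type := Ultraproduct (fun i => Matrix (n i) (n i) ℂ) V

/-- it is modelled by its defining family -/
noncomputable def bigModel : Model n (tau : Big n V →ₗ[ℂ] ℂ) V where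
  pi := (upf_mk n V).comp (upf_toLp n)
  surj := fun a => by
    obtain ⟨y, hy, hyn⟩ := Ultraproduct.exists_lift_norm_lt _ V a one_pos
    have hb : ∀ i, ‖y i‖ ≤ ‖a‖ + 1 := fun i =>
      (lp.norm_apply_le_norm ENNReal.top_ne_zero y i).trans hyn.le
    exact ⟨⟨fun i => y i, ⟨‖a‖ + 1, hb⟩⟩, hy⟩
  tr := fun x => Ultraproduct.tendsto_tau _ V (upf_toLp n x)
  ker := fun x => Ultraproduct.mk_eq_zero_iff _ V

end BigAlg

/-- `x, y` are witnesses for the failure of `AxT` -/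
def FailW {M : Type*} [Ring M] [StarRing M] [Algebra ℂ M] (τ : M →ₗ[ℂ] ℂ) (b : Par M)
    (ε δ₁ δ₂ : ℝ) (x y : M) : Prop :=
  (∃ j s, b.c j s ∉ unitary M) ∨ (∃ i, b.U i ∉ unitary M) ∨
  (∃ j, x ∈ unitary M ∧ y ∈ unitary M ∧ Phi τ b j x < δ₂ ∧ Phi τ b j y < δ₂ ∧
    ∀ w ∈ unitary M, Phi τ b j w < δ₁ → ε < n2 τ (x * y - w)) ∨
  (∃ j, x ∈ unitary M ∧ y ∈ unitary M ∧ Phi τ b j x < δ₂ ∧ Phi τ b j y < δ₂ ∧
    ε < n2 τ (x - y) ∧ n2 τ (x - y) < 6 / 5 - ε) ∨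
  (∃ j, x ∈ unitary M ∧ y ∈ unitary M ∧ Phi τ b j x < δ₂ ∧ Phi τ b j y < δ₂ ∧
    ∀ s : Fin 3, ε < n2 τ (x * y - om ^ (s : ℕ) • (y * x))) ∨
  (∃ j, x ∈ unitary M ∧ Phi τ b j x < δ₂ ∧ (∀ s : Fin 3, ε < n2 τ (x - om ^ (s : ℕ) • 1)) ∧
    ∀ v ∈ unitary M, Phi τ b j v < δ₁ → n2 τ (x * v - v * x) < 6 / 5 - ε) ∨
  (x ∈ unitary M ∧ y ∈ unitary M ∧ Phi τ b 0 x < δ₂ ∧ Phi τ b 1 y < δ₂ ∧
    ε < n2 τ (x * y - y * x)) ∨
  (x ∈ unitary M ∧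
    (∀ j, ∀ p ∈ unitary M, Phi τ b j p < δ₁ → n2 τ (x * p - p * x) ≤ 1 / 4 - ε) ∧
    ‖τ x‖ < 6 / 10 - ε)

/-- the parameters under a map -/
def parMap {M M' : Type*} (f : M → M') (b : Par M) : Par M' :=
  ⟨fun j s => f (b.c j s), fun i => f (b.U i)⟩

/-- the image of a projection -/
def Proj.map {B B' : Type*} [Ring B] [StarRing B] [Algebra ℂ B] [Ring B'] [StarRing B']
    [Algebra ℂ B'] (f : B →⋆ₐ[ℂ] B') (p : Proj B) : Proj B' where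
  val := f p.val
  mul_self := by rw [← map_mul, p.mul_self]
  star_val := by rw [← map_star, p.star_val]

/-- a *-homomorphism applied to the entries of matrices -/
def mapM {B B' : Type*} [Ring B] [StarRing B] [Algebra ℂ B] [Ring B'] [StarRing B']
    [Algebra ℂ B'] (r : ℕ) (f : B →⋆ₐ[ℂ] B') :
    Matrix (Fin r) (Fin r) B →⋆ₐ[ℂ] Matrix (Fin r) (Fin r) B' where
  __ := f.toAlgHom.mapMatrix
  map_star' x := by
    ext a b
    exact map_star f (x b a)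

theorem mapM_apply {B B' : Type*} [Ring B] [StarRing B] [Algebra ℂ B] [Ring B'] [StarRing B']
    [Algebra ℂ B'] (r : ℕ) (f : B →⋆ₐ[ℂ] B') (x : Matrix (Fin r) (Fin r) B) (a b : Fin r) :
    mapM r f x a b = f (x a b) := rfl

/-- all entries of the matrix are in `C` -/
def InC {A : Type*} (C : Set A) {r : ℕ} (X : Matrix (Fin r) (Fin r) A) : Prop :=
  ∀ a b, X a b ∈ C

/-- the parameters of a corner of a matrix algebra have entries in `C` -/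
def ParInC {A : Type*} [Ring A] [StarRing A] [Algebra ℂ A] (C : Set A) {r : ℕ}
    {p : Proj (Matrix (Fin r) (Fin r) A)} (b : Par (Cor p)) : Prop :=
  (∀ j s, InC C (b.c j s).val) ∧ ∀ i, InC C (b.U i).val

/-- A countable subset `C` of the tracial C*-algebra `A` that is closed under the algebraic
operations (with rational scalars) and under the witnesses for all properties that are used. -/
structure Hull {A : Type} [CStarAlgebra A] [TracialState A] (b : Par A) (C : Set A) :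
    Prop where
  countable : C.Countable
  one_mem : (1 : A) ∈ C
  add_mem : ∀ x ∈ C, ∀ y ∈ C, x + y ∈ C
  mul_mem : ∀ x ∈ C, ∀ y ∈ C, x * y ∈ C
  star_mem : ∀ x ∈ C, star x ∈ C
  smul_mem : ∀ p q : ℚ, ∀ x ∈ C, ((p : ℂ) + (q : ℂ) * Complex.I) • x ∈ C
  cut : ∀ x ∈ C, ∀ K : ℚ, 0 < K → ∃ x' ∈ C, ‖x'‖ ≤ K ∧
    ∀ z : A, ‖z‖ ≤ (K : ℝ) ^ 2 → nrm2 (x - x') ≤ ‖x‖ * (nrm2 (star x * x - z) / (K : ℝ) ^ 2)
  dix : ∀ x ∈ C, ∃ u ∈ C, u ∈ unitary A ∧ nrm2 (x - tau x • (1 : A)) ≤ 2 * nrm2 (x * u - u * x)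
  orth : ∀ D : ℕ, ∃ e : Fin (D + 1) → A, (∀ j, e j ∈ C ∧ e j ≠ 0 ∧ e j * e j = e j) ∧
    ∀ j k, j ≠ k → e j * e k = 0
  center : ∀ x ∈ C, (1 / 2 : ℂ) • (x + star x) -
    tau ((1 / 2 : ℂ) • (x + star x)) • (1 : A) ∈ C
  comm : ∀ x ∈ C, star x = x → tau x = 0 →
    ∃ Y ∈ C, ∃ Z ∈ C, x = Y * Z - Z * Y ∧ ‖Y‖ ≤ 2 * ‖x‖ + 2 ∧ ‖Z‖ ≤ 1
  proj : ∀ (r : ℕ) (h : Matrix (Fin r) (Fin r) A), InC C h → star h = h →
    ∃ q : Matrix (Fin r) (Fin r) A, InC C q ∧ q * q = q ∧ star q = q ∧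
      n2 (trM r (tau : A →ₗ[ℂ] ℂ)) (h - q) ≤ 2 * n2 (trM r (tau : A →ₗ[ℂ] ℂ)) (h * h - h)
  polar : ∀ (r : ℕ) (p : Proj (Matrix (Fin r) (Fin r) A)) (x : Cor p), InC C p.val →
    InC C x.val → ∃ w : Cor p, InC C w.val ∧ w ∈ unitary (Cor p) ∧
      n2 (corTr (trM r (tau : A →ₗ[ℂ] ℂ)) p) (x - w) ≤
        n2 (corTr (trM r (tau : A →ₗ[ℂ] ℂ)) p) (star x * x - 1)
  par : (∀ j s, b.c j s ∈ C) ∧ ∀ i, b.U i ∈ C
  upolar : ∀ x ∈ C, ∃ w ∈ C, w ∈ unitary A ∧ nrm2 (x - w) ≤ nrm2 (star x * x - 1)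
  wmul : ∀ (j : Fin 2) (ε δ : ℚ), ∀ u ∈ C, ∀ v ∈ C,
    (∃ w ∈ unitary A, Phi tau b j w < δ ∧ nrm2 (u * v - w) ≤ ε) →
    ∃ w ∈ C, w ∈ unitary A ∧ Phi tau b j w < δ ∧ nrm2 (u * v - w) ≤ ε
  wnondeg : ∀ (j : Fin 2) (c δ : ℚ), ∀ u ∈ C,
    (∃ v ∈ unitary A, Phi tau b j v < δ ∧ c ≤ nrm2 (u * v - v * u)) →
    ∃ v ∈ C, v ∈ unitary A ∧ Phi tau b j v < δ ∧ c ≤ nrm2 (u * v - v * u)
  wirr : ∀ (j : Fin 2) (c δ : ℚ), ∀ x ∈ C,
    (∃ p ∈ unitary A, Phi tau b j p < δ ∧ c < nrm2 (x * p - p * x)) →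
    ∃ p ∈ C, p ∈ unitary A ∧ Phi tau b j p < δ ∧ c < nrm2 (x * p - p * x)
  fail : ∀ (r : ℕ) (p : Proj (Matrix (Fin r) (Fin r) A)) (b' : Par (Cor p)) (ε δ₁ δ₂ : ℚ),
    InC C p.val → ParInC C b' →
    (∃ x y : Cor p, FailW (corTr (trM r (tau : A →ₗ[ℂ] ℂ)) p) b' ε δ₁ δ₂ x y) →
    ∃ x y : Cor p, InC C x.val ∧ InC C y.val ∧
      FailW (corTr (trM r (tau : A →ₗ[ℂ] ℂ)) p) b' ε δ₁ δ₂ x y

end Pool.Agent.FG.S
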