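import Pool.Agent.FGS.Big
import Pool.Agent.FG.UPCenter
import Pool.Agent.FG.UPInfinite
import Pool.Agent.FG.Comm

/-!
Project FGS (separable version of FG, MP_0c7c15_an), row FGS-07: facts on the big algebra.
-/

set_option autoImplicit false

open Filter Topology
open scoped ComplexOrder ENNReal

namespace Pool.Agent.FG.S

open UP UP.Br

theorem exists_cut_uniform {A : Type*} [CStarAlgebra A] [TracialState A] (x : A) (K : ℝ)
    (hK : 0 < K) : ∃ x' : A, ‖x'‖ ≤ K ∧ ∀ z : A, ‖z‖ ≤ K ^ 2 →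
      nrm2 (x - x') ≤ ‖x‖ * (nrm2 (star x * x - z) / K ^ 2) := by
  let _ := CStarAlgebra.spectralOrder A
  let _ := CStarAlgebra.spectralOrderedRing A
  obtain ⟨c, hcK⟩ : ∃ c : ℝ, c = K ^ 2 := ⟨_, rfl⟩
  have hc : 0 < c := by rw [hcK]; positivity
  set y : A := star x * x with hy
  have hys : IsSelfAdjoint y := IsSelfAdjoint.star_mul_self x
  have hy0 : 0 ≤ y := star_mul_self_nonneg x
  have hmax : ∀ t : ℝ, 0 < max t c := fun t => lt_of_lt_of_le hc (le_max_right _ _)
  have hcont : Continuous fun t : ℝ => (max t c)⁻¹ :=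
    (continuous_id.max continuous_const).inv₀ fun t => (hmax t).ne'
  set g : A := cfc (fun t : ℝ => c * (max t c)⁻¹) y with hg
  set m : A := cfc (fun t : ℝ => (max t c)⁻¹) y with hm
  set h : A := cfc (fun t : ℝ => max (t - c) 0) y with hh
  have hgs : star g = g := (cfc_predicate (fun t : ℝ => c * (max t c)⁻¹) y)
  have hcontg : Continuous fun t : ℝ => c * (max t c)⁻¹ := continuous_const.mul hcont
  have h1g : 1 - g = h * m := by
    rw [hg, hm, hh, ← cfc_mul (fun t : ℝ => max (t - c) 0) (fun t : ℝ => (max t c)⁻¹) y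
      (by fun_prop) hcont.continuousOn, ← cfc_const_one ℝ y,
      ← cfc_sub (fun _ : ℝ => (1 : ℝ)) (fun t : ℝ => c * (max t c)⁻¹) y (by fun_prop)
        hcontg.continuousOn]
    refine cfc_congr fun t _ => ?_
    rcases le_total t c with ht | ht
    · simp only [max_eq_right ht, max_eq_right (sub_nonpos.2 ht)]
      field_simp
      ring
    · have ht0 : (0 : ℝ) < t := lt_of_lt_of_le hc ht
      simp only [max_eq_left ht, max_eq_left (sub_nonneg.2 ht)]
      field_simp
  have hmn : ‖m‖ ≤ c⁻¹ := by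
    refine norm_cfc_le (by positivity) fun t _ => ?_
    rw [Real.norm_of_nonneg (inv_nonneg.2 (hmax t).le)]
    exact inv_anti₀ hc (le_max_right _ _)
  refine ⟨x * g, ?_, ?_⟩
  · have e : star (x * g) * (x * g)
        = cfc (fun t : ℝ => (c * (max t c)⁻¹) * t * (c * (max t c)⁻¹)) y := by
      rw [cfc_mul (fun t : ℝ => (c * (max t c)⁻¹) * t) (fun t : ℝ => c * (max t c)⁻¹) y
        (hcontg.mul continuous_id).continuousOn hcontg.continuousOn,
        cfc_mul (fun t : ℝ => c * (max t c)⁻¹) (fun t : ℝ => t) y hcontg.continuousOn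
        (by fun_prop), cfc_id' ℝ y, ← hg, star_mul, hgs, hy]
      noncomm_ring
    have h2 : ‖x * g‖ ^ 2 ≤ c := by
      rw [sq, ← CStarRing.norm_star_mul_self, e]
      refine norm_cfc_le hc.le fun t ht => ?_
      have ht0 : 0 ≤ t := spectrum_nonneg_of_nonneg hy0 ht
      rw [Real.norm_of_nonneg (by have := hmax t; positivity)]
      have hle : c * (max t c)⁻¹ ≤ 1 := by
        rw [← div_eq_mul_inv, div_le_one (hmax t)]
        exact le_max_right _ _
      have hle2 : (c * (max t c)⁻¹) * t ≤ c := by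
        have : (max t c)⁻¹ * t ≤ 1 := by
          rw [inv_mul_le_iff₀ (hmax t), mul_one]
          exact le_max_left _ _
        calc (c * (max t c)⁻¹) * t = c * ((max t c)⁻¹ * t) := by ring
          _ ≤ c * 1 := mul_le_mul_of_nonneg_left this hc.le
          _ = c := mul_one c
      calc (c * (max t c)⁻¹) * t * (c * (max t c)⁻¹) ≤ c * 1 :=
            mul_le_mul hle2 hle (by have := hmax t; positivity) hc.le
        _ = c := mul_one c
    rw [hcK] at h2
    exact (sq_le_sq₀ (norm_nonneg _) hK.le).1 h2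
  · intro z hz
    rw [← hcK] at hz ⊢
    have e : x - x * g = x * (h * m) := by
      rw [← h1g]; noncomm_ring
    rw [e]
    refine (nrm2_mul_le_left x _).trans ?_
    refine mul_le_mul_of_nonneg_left ?_ (norm_nonneg x)
    refine (nrm2_mul_le_right h m).trans ?_
    rw [div_eq_mul_inv]
    exact mul_le_mul (nrm2_cut_le y z hys c hz) hmn (norm_nonneg m) (nrm2_nonneg _)

section

open scoped Matrix.Norms.L2Operator

variable (n : ℕ → Type) [∀ i, Fintype (n i)] [∀ i, DecidableEq (n i)] [∀ i, Nonempty (n i)]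
  (V : Ultrafilter ℕ)

theorem big_dix (x : Big n V) : ∃ u ∈ unitary (Big n V),
    nrm2 (x - tau x • (1 : Big n V)) ≤ 2 * nrm2 (x * u - u * x) := by
  obtain ⟨x, rfl⟩ := Ultraproduct.mk_surjective _ V x
  choose u hu hux using fun i => exists_unitary_commutator_ge (x i)
  have hun : ∀ i, ‖u i‖ ≤ 1 := fun i => (CStarRing.norm_of_mem_unitary (hu i)).le
  have hmem : Memℓp u ∞ := memℓp_infty ⟨1, by rintro _ ⟨i, rfl⟩; exact hun i⟩
  let v : lp (fun i => Matrix (n i) (n i) ℂ) ∞ := ⟨u, hmem⟩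
  have hv1 : star v * v = 1 := by
    ext1
    funext i
    exact (Unitary.mem_iff.1 (hu i)).1
  have hv2 : v * star v = 1 := by
    ext1
    funext i
    exact (Unitary.mem_iff.1 (hu i)).2
  refine ⟨Ultraproduct.mk _ V v, ?_, ?_⟩
  · rw [Unitary.mem_iff, Ultraproduct.star_mk, ← map_mul, ← map_mul, hv1, hv2, map_one]
    exact ⟨rfl, rfl⟩
  · have h4 := Ultraproduct.tendsto_tau _ V x
    set c : ℂ := tau (Ultraproduct.mk _ V x) with hc
    have e1 : Ultraproduct.mk _ V x - c • (1 : Big n V) = Ultraproduct.mk _ V (x - c • 1) := by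
      rw [map_sub, map_smul, map_one]
    rw [e1, ← map_mul, ← map_mul, ← map_sub]
    have t1 := Ultraproduct.tendsto_nrm2 _ V (x - c • 1)
    have t2 := (Ultraproduct.tendsto_nrm2 _ V (x * v - v * x)).const_mul 2
    have t3 : Tendsto (fun i => ‖tau (x i) - c‖) V (𝓝 0) := by
      have := (h4.sub_const c).norm
      simpa using this
    have t4 := t2.add t3
    rw [add_zero] at t4
    refine le_of_tendsto_of_tendsto' t1 t4 fun i => ?_
    have e : (x - c • (1 : lp (fun i => Matrix (n i) (n i) ℂ) ∞)) i =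
        (x i - tau (x i) • (1 : Matrix (n i) (n i) ℂ)) +
          (tau (x i) - c) • (1 : Matrix (n i) (n i) ℂ) := by
      have : (x - c • (1 : lp (fun i => Matrix (n i) (n i) ℂ) ∞)) i =
          x i - c • (1 : Matrix (n i) (n i) ℂ) := rfl
      rw [this, sub_smul]
      abel
    rw [e]
    refine (nrm2_add_le _ _).trans ?_
    rw [nrm2_smul, nrm2_one, mul_one]
    exact add_le_add (hux i) le_rfl

theorem big_orth (hn : Tendsto (fun i => Fintype.card (n i)) V atTop) (D : ℕ) :
    ∃ e : Fin (D + 1) → Big n V, (∀ j, e j ≠ 0 ∧ e j * e j = e j) ∧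
      ∀ j k, j ≠ k → e j * e k = 0 := by
  classical
  have hs : ∀ i, ∃ s : Fin (D + 1) → Finset (n i), (∀ j k, j ≠ k → Disjoint (s j) (s k)) ∧
      (D + 1 ≤ Fintype.card (n i) → ∀ j, Fintype.card (n i) ≤ 2 * (D + 1) * (s j).card) := by
    intro i
    by_cases h : D + 1 ≤ Fintype.card (n i)
    · obtain ⟨s, h1, h2⟩ := up5_sets (n i) D h
      exact ⟨s, h1, fun _ => h2⟩
    · exact ⟨fun _ => ∅, fun _ _ _ => Finset.disjoint_empty_left _, fun h' => absurd h' h⟩
  choose s hs1 hs2 using hs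
  have hmem : ∀ j, Memℓp (fun i => up5_diag (s i j)) ∞ := by
    intro j
    apply memℓp_infty
    refine ⟨1, ?_⟩
    rintro _ ⟨i, rfl⟩
    exact up5_diag_norm _
  obtain ⟨x, hx⟩ : ∃ x : Fin (D + 1) → lp (fun i => Matrix (n i) (n i) ℂ) ∞,
      ∀ j i, x j i = up5_diag (s i j) := ⟨fun j => ⟨_, hmem j⟩, fun _ _ => rfl⟩
  refine ⟨fun j => Ultraproduct.mk _ V (x j), fun j => ⟨?_, ?_⟩, ?_⟩
  · intro h0
    simp only at h0
    have ht := Ultraproduct.tendsto_tau (fun i => Matrix (n i) (n i) ℂ) V (x j)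
    rw [h0, map_zero] at ht
    have ht2 := (Complex.continuous_re.tendsto _).comp ht
    rw [Complex.zero_re] at ht2
    have hev : ∀ᶠ i in (V : Filter ℕ), 1 / (2 * ((D : ℝ) + 1)) ≤
        (Complex.re ∘ fun i => tau (x j i)) i := by
      filter_upwards [hn.eventually_ge_atTop (D + 1)] with i hi
      simp only [Function.comp]
      rw [hx, up5_diag_tau, Complex.ofReal_re]
      have h1 := hs2 i hi j
      have h2 : (Fintype.card (n i) : ℝ) ≤ 2 * ((D : ℝ) + 1) * ((s i j).card : ℝ) := by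
        exact_mod_cast h1
      have h3 : (0 : ℝ) < Fintype.card (n i) := by
        exact_mod_cast Fintype.card_pos
      rw [div_le_div_iff₀ (by positivity) h3]
      linarith
    have h4 := ge_of_tendsto ht2 hev
    have h5 : (0 : ℝ) < 1 / (2 * ((D : ℝ) + 1)) := by positivity
    linarith
  · rw [← map_mul]
    congr 1
    ext1
    funext i
    rw [lp.infty_coeFn_mul, Pi.mul_apply, hx, up5_diag_mul_self]
  · intro j k hjk
    simp only
    rw [← map_mul]
    have h0 : x j * x k = 0 := by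
      ext1
      funext i
      rw [lp.infty_coeFn_mul, Pi.mul_apply, hx, hx, up5_diag_mul (hs1 i j k hjk)]
      rfl
    rw [h0, map_zero]

theorem big_comm (x : Big n V) (hx : star x = x) (htr : tau x = 0) :
    ∃ Y Z : Big n V, x = Y * Z - Z * Y ∧ ‖Y‖ ≤ 2 * ‖x‖ + 2 ∧ ‖Z‖ ≤ 1 := by
  classical
  obtain ⟨y, hy, hyn⟩ := Ultraproduct.exists_lift_norm_lt _ V x (ε := 1 / 2) (by norm_num)
  have hyi : ∀ i, ‖y i‖ ≤ ‖x‖ + 1 / 2 := fun i =>
    (lp.norm_apply_le_norm ENNReal.top_ne_zero y i).trans hyn.le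
  obtain ⟨w, hw⟩ : ∃ w : lp (fun i => Matrix (n i) (n i) ℂ) ∞,
    w = (1 / 2 : ℂ) • (y + star y) := ⟨_, rfl⟩
  have hwi : ∀ i, w i = (1 / 2 : ℂ) • (y i + star (y i)) := fun i => by rw [hw]; rfl
  have hwx : Ultraproduct.mk _ V w = x := by
    rw [hw, map_smul, map_add, ← Ultraproduct.star_mk, hy, hx, ← two_smul ℂ x, smul_smul]
    norm_num
  have hwn : ∀ i, ‖w i‖ ≤ ‖x‖ + 1 / 2 := by
    intro i
    rw [hwi, norm_smul]
    have h1 := norm_add_le (y i) (star (y i))
    rw [norm_star] at h1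
    have h2 := hyi i
    have h3 : ‖(1 / 2 : ℂ)‖ = 1 / 2 := by norm_num
    rw [h3]
    linarith
  have hws : ∀ i, star (w i) = w i := by
    intro i
    rw [hwi, star_smul, star_add, star_star, add_comm (star (y i))]
    congr 1
    norm_num
  obtain ⟨z, hz⟩ : ∃ z : ∀ i, Matrix (n i) (n i) ℂ, ∀ i, z i =
    if ‖tau (w i)‖ ≤ 1 / 2 then w i - tau (w i) • 1 else 0 := ⟨_, fun _ => rfl⟩
  have hzn : ∀ i, ‖z i‖ ≤ ‖x‖ + 1 := by
    intro i
    rw [hz]
    split_ifs with h
    · refine (norm_sub_le _ _).trans ?_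
      rw [norm_smul, CStarRing.norm_one, mul_one]
      have := hwn i
      linarith
    · rw [norm_zero]
      positivity
  have hzs : ∀ i, (z i).IsHermitian := by
    intro i
    rw [hz]
    split_ifs with h
    · show star (w i - tau (w i) • (1 : Matrix (n i) (n i) ℂ)) = _
      rw [star_sub, star_smul, star_one, hws, ← tau_star, hws]
    · exact Matrix.isHermitian_zero
  have hztr : ∀ i, (z i).trace = 0 := by
    intro i
    have h0 : tau (z i) = 0 := by
      rw [hz]
      split_ifs with h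
      · rw [map_sub, map_smul, tau_one, smul_eq_mul, mul_one, sub_self]
      · rw [map_zero]
    rw [tau_matrix] at h0
    have hcard : (Fintype.card (n i) : ℂ) ≠ 0 := by exact_mod_cast Fintype.card_ne_zero
    exact (mul_eq_zero.1 h0).resolve_left (inv_ne_zero hcard)
  choose Y Z hYZ hY hZ using fun i => exists_commutator (z i) (hzs i) (hztr i)
  have hYn : ∀ i, ‖Y i‖ ≤ 2 * ‖x‖ + 2 := fun i => by
    have h1 := hY i
    have h2 := hzn i
    linarith
  have hYm : Memℓp Y ∞ := memℓp_infty ⟨2 * ‖x‖ + 2, by rintro _ ⟨i, rfl⟩; exact hYn i⟩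
  have hZm : Memℓp Z ∞ := memℓp_infty ⟨1, by rintro _ ⟨i, rfl⟩; exact hZ i⟩
  let Y' : lp (fun i => Matrix (n i) (n i) ℂ) ∞ := ⟨Y, hYm⟩
  let Z' : lp (fun i => Matrix (n i) (n i) ℂ) ∞ := ⟨Z, hZm⟩
  refine ⟨Ultraproduct.mk _ V Y', Ultraproduct.mk _ V Z', ?_, ?_, ?_⟩
  · rw [← hwx, ← map_mul, ← map_mul, ← map_sub, Ultraproduct.mk_eq_mk_iff]
    have ht := (Ultraproduct.tendsto_tau _ V w).norm
    rw [hwx, htr, norm_zero] at ht
    refine ht.congr' ?_
    have hev : ∀ᶠ i in (V : Filter ℕ), ‖tau (w i)‖ < 1 / 2 :=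
      ht.eventually (gt_mem_nhds (by norm_num))
    filter_upwards [hev] with i hi
    have e1 : (Y' * Z' - Z' * Y') i = Y i * Z i - Z i * Y i := rfl
    rw [e1, ← hYZ i, hz, if_pos hi.le, sub_sub_cancel, nrm2_smul, nrm2_one, mul_one]
  · refine (Ultraproduct.norm_mk_le _ V Y').trans ?_
    exact lp.norm_le_of_forall_le (by positivity) hYn
  · refine (Ultraproduct.norm_mk_le _ V Z').trans ?_
    exact lp.norm_le_of_forall_le zero_le_one hZ

end

end Pool.Agent.FG.S
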