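import Pool.Agent.FGS.Cor
import Pool.Agent.FG.Corner

/-!
Project FGS (separable version of FG, MP_0c7c15_an), row FGS-05: the corner of a matrix
ultraproduct under any projection is a matrix ultraproduct.
-/

set_option autoImplicit false

open Filter Topology
open scoped ComplexOrder

namespace Pool.Agent.FG.S

/-- the inclusion of the corner -/
def s05_incl {B : Type*} [Ring B] [StarRing B] [Algebra ℂ B] (p : Proj B) : Cor p →⋆ₙₐ[ℂ] B where
  toFun := Cor.val
  map_smul' _ _ := rfl
  map_zero' := rfl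
  map_add' _ _ := rfl
  map_mul' _ _ := rfl
  map_star' _ := rfl

theorem corner_model_gen {I : Type} {n : I → Type} [∀ i, Fintype (n i)]
    [∀ i, DecidableEq (n i)] [∀ i, Nonempty (n i)] {B : Type*} [Ring B] [StarRing B]
    [Algebra ℂ B] [StarModule ℂ B] {σ : B →ₗ[ℂ] ℂ} (hσ : IsTr σ) {W : Ultrafilter I}
    (mod : Model n σ W) (p : Proj B) (hp : σ p.val ≠ 0) :
    ∃ k : I → ℕ, (∀ i, 0 < k i) ∧
      Tendsto (fun i => (k i : ℝ) / Fintype.card (n i)) W (𝓝 (σ p.val).re) ∧
      Nonempty (Model (fun i => Fin (k i)) (corTr σ p) W) := by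
  have h0 := tr_proj_nonneg hσ p
  have hre := Complex.nonneg_iff.1 h0
  have hval : σ p.val = (((σ p.val).re : ℝ) : ℂ) := by
    apply Complex.ext
    · simp
    · simpa using hre.2.symm
  have hs : 0 < (σ p.val).re := by
    refine lt_of_le_of_ne hre.1 ?_
    intro h
    apply hp
    rw [hval, ← h]
    simp
  obtain ⟨k, V, hk, hV, hVW, hkt, y, hy, hyp⟩ :=
    proj_lift hσ mod p.mul_self p.star_val hs hval
  refine ⟨k, hk, hkt, ?_⟩
  refine iso8_model mod p.mul_self hs (s05_incl p) ?_ ?_ ?_ k V hk hV hVW hkt y hy hyp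
  · intro x x' h
    exact Cor.ext h
  · ext x
    constructor
    · rintro ⟨z, rfl⟩
      exact z.prop
    · intro hx
      exact ⟨Cor.mk x hx, rfl⟩
  · intro m
    rw [corTr_apply, ← hval, mul_inv_cancel_left₀ hp]
    rfl

end Pool.Agent.FG.S
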