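import Pool.Agent.FGS.Rep
import Pool.Agent.FGS.RepC

/-!
Project FGS (separable version of FG, MP_0c7c15_an), row FGS-14: projections over the ultrapower
lift to sequences of projections with entries in `C` (helper26).
-/

set_option autoImplicit false

open Filter Topology
open scoped ComplexOrder ENNReal

namespace Pool.Agent.FG.S

open UP UP.Br

section

variable {A : Type} [CStarAlgebra A] [TracialState A] {b : Par A} {C : Set A}

theorem s14_trM_inc (hC : Hull b C) {r : ℕ} (X : Matrix (Fin r) (Fin r) (A0 hC)) :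
    trM r (tau : A →ₗ[ℂ] ℂ) (inc hC r X) = trM r (tau : A0 hC →ₗ[ℂ] ℂ) X := by
  rw [iso6_trM_apply, iso6_trM_apply]
  rfl

theorem s14_n2_inc (hC : Hull b C) {r : ℕ} (X : Matrix (Fin r) (Fin r) (A0 hC)) :
    n2 (trM r (tau : A →ₗ[ℂ] ℂ)) (inc hC r X) = n2 (trM r (tau : A0 hC →ₗ[ℂ] ℂ)) X := by
  unfold n2
  rw [← map_star, ← map_mul, s14_trM_inc]

theorem s14_inc_injective (hC : Hull b C) {r : ℕ} : Function.Injective (inc hC r) := by
  intro X Y h
  ext a c
  exact congrFun (congrFun h a) c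

/-- matrices with entries in `C` come from `A0` -/
theorem s14_lift (hC : Hull b C) {r : ℕ} (X : Matrix (Fin r) (Fin r) A) (hX : InC C X) :
    ∃ Y : Matrix (Fin r) (Fin r) (A0 hC), inc hC r Y = X :=
  ⟨Matrix.of fun a c => ⟨X a c, mem_A0_of_mem hC (hX a c)⟩, rfl⟩

/-- bounded sequences of matrices -/
theorem s14_seq {B : Type} [CStarAlgebra B] [TracialState B] {r : ℕ}
    (X : ℕ → Matrix (Fin r) (Fin r) B) (hX : ∀ k a c, ‖X k a c‖ ≤ 1) :
    ∃ P : Matrix (Fin r) (Fin r) (BSeq B), ∀ k, evM B r k P = X k :=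
  ⟨Matrix.of fun a c => ⟨fun k => X k a c, memℓp_infty ⟨1, by
    rintro _ ⟨k, rfl⟩
    exact hX k a c⟩⟩, fun _ => rfl⟩

theorem exists_proj_rep (hC : Hull b C) {U : Ultrafilter ℕ} (hU : (U : Filter ℕ) ≤ cofinite)
    {r : ℕ} (p : Proj (Matrix (Fin r) (Fin r) (M0 hC U)))
    (hp : trM r (tau : M0 hC U →ₗ[ℂ] ℂ) p.val ≠ 0) :
    ∃ (P : Matrix (Fin r) (Fin r) (BSeq (A0 hC)))
      (q : ℕ → Proj (Matrix (Fin r) (Fin r) (A0 hC))),
      clM (A0 hC) r U P = p.val ∧ (∀ k, evM (A0 hC) r k P = (q k).val) ∧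
      (∀ k, InC C (inc hC r (q k).val)) ∧
      ∀ k, trM r (tau : A0 hC →ₗ[ℂ] ℂ) (q k).val ≠ 0 := by
  classical
  have hr : 0 < r := by
    rcases Nat.eq_zero_or_pos r with rfl | h
    · exact absurd (by rw [iso6_trM_apply]; simp) hp
    · exact h
  obtain ⟨X, hX, hXC⟩ := exists_repC hC hU p.val
  set H : Matrix (Fin r) (Fin r) (BSeq (A0 hC)) := (1 / 2 : ℂ) • (X + star X) with hH
  have hcl : clM (A0 hC) r U H = p.val := by
    rw [hH, map_smul, map_add, map_star, hX, p.star_val, ← two_smul ℂ, smul_smul]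
    norm_num
  have hHC : ∀ k, InC C (inc hC r (evM (A0 hC) r k H)) := by
    intro k a c
    have e : inc hC r (evM (A0 hC) r k H) =
        (1 / 2 : ℂ) • (inc hC r (evM (A0 hC) r k X) + star (inc hC r (evM (A0 hC) r k X))) := by
      rw [hH, map_smul, map_smul, map_add, map_add, map_star, map_star]
    rw [e, Matrix.smul_apply, Matrix.add_apply, Matrix.star_apply]
    have h1 := hC.smul_mem (1 / 2) 0 _ (hC.add_mem _ (hXC k a c) _ (hC.star_mem _ (hXC k c a)))
    have e2 : (((1 / 2 : ℚ) : ℂ) + ((0 : ℚ) : ℂ) * Complex.I) = (1 / 2 : ℂ) := by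
      push_cast
      ring
    rw [e2] at h1
    exact h1
  have hHs : ∀ k, star (inc hC r (evM (A0 hC) r k H)) = inc hC r (evM (A0 hC) r k H) := by
    intro k
    rw [← map_star, ← map_star]
    congr 2
    rw [hH, star_smul, star_add, star_star, add_comm (star X)]
    congr 1
    simp
  have hq : ∀ k, ∃ Q : Matrix (Fin r) (Fin r) (A0 hC), InC C (inc hC r Q) ∧ Q * Q = Q ∧
      star Q = Q ∧ n2 (trM r (tau : A0 hC →ₗ[ℂ] ℂ)) (evM (A0 hC) r k H - Q) ≤
        2 * n2 (trM r (tau : A0 hC →ₗ[ℂ] ℂ)) (evM (A0 hC) r k (H * H - H)) := by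
    intro k
    obtain ⟨q, hqC, hqq, hqs, hqn⟩ := hC.proj r _ (hHC k) (hHs k)
    obtain ⟨Q, rfl⟩ := s14_lift hC q hqC
    refine ⟨Q, hqC, ?_, ?_, ?_⟩
    · exact s14_inc_injective hC (by rw [map_mul]; exact hqq)
    · exact s14_inc_injective hC (by rw [map_star]; exact hqs)
    · rw [← map_sub, ← map_mul, ← map_sub, s14_n2_inc, s14_n2_inc, ← map_mul, ← map_sub] at hqn
      exact hqn
  choose Q hQC hQQ hQs hQn using hq
  have hQb : ∀ k a c, ‖Q k a c‖ ≤ 1 := fun k a c =>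
    norm_entry_le (hQQ k) (hQs k) (by rw [hQs, hQQ]) a c
  obtain ⟨P0, hP0⟩ := s14_seq Q hQb
  have hcl0 : clM (A0 hC) r U P0 = p.val := by
    have h1 : clM (A0 hC) r U (H - P0) = 0 := by
      rw [clM_eq_zero_iff]
      have h2 := tendsto_n2M r U (H * H - H)
      have h3 : clM (A0 hC) r U (H * H - H) = 0 := by
        rw [map_sub, map_mul, hcl, p.mul_self, sub_self]
      rw [h3] at h2
      have h4 : n2 (trM r (tau : UP.Ultrapower (A0 hC) U →ₗ[ℂ] ℂ)) 0 = 0 := by
        unfold n2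
        rw [mul_zero, map_zero]
        simp
      rw [h4] at h2
      have h5 := h2.const_mul 2
      rw [mul_zero] at h5
      refine squeeze_zero (fun k => Real.sqrt_nonneg _) (fun k => ?_) h5
      rw [map_sub, hP0]
      exact hQn k
    rw [map_sub, hcl, sub_eq_zero] at h1
    exact h1.symm
  have hone : trM r (tau : A0 hC →ₗ[ℂ] ℂ) 1 ≠ 0 := by
    rw [(isTr_trM (isTr_tau (A0 hC)) hr).one]
    exact one_ne_zero
  have hzC : (0 : A) ∈ C := by
    have := hC.smul_mem 0 0 _ hC.one_mem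
    simpa using this
  have honeC : InC C (inc hC r 1) := by
    intro a c
    rw [map_one, Matrix.one_apply]
    split_ifs
    · exact hC.one_mem
    · exact hzC
  set q : ℕ → Proj (Matrix (Fin r) (Fin r) (A0 hC)) := fun k =>
    if trM r (tau : A0 hC →ₗ[ℂ] ℂ) (Q k) ≠ 0 then ⟨Q k, hQQ k, hQs k⟩
    else ⟨1, one_mul 1, star_one _⟩ with hqdef
  obtain ⟨P, hP⟩ := s14_seq (fun k => (q k).val) (fun k a c =>
    norm_entry_le (q k).mul_self (q k).star_val (by rw [(q k).star_val, (q k).mul_self]) a c)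
  refine ⟨P, q, ?_, hP, fun k => ?_, fun k => ?_⟩
  · rw [← hcl0]
    apply clM_congr
    have h6 := tendsto_trM r U P0
    rw [hcl0] at h6
    have h7 : ∀ᶠ k in (U : Filter ℕ), trM r (tau : A0 hC →ₗ[ℂ] ℂ) (evM (A0 hC) r k P0) ≠ 0 :=
      h6.eventually_ne hp
    filter_upwards [h7] with k hk
    rw [hP, hP0]
    rw [hP0] at hk
    simp only [hqdef]
    rw [if_pos hk]
  · simp only [hqdef]
    split_ifs
    · exact hQC k
    · exact honeC
  · simp only [hqdef]
    split_ifs with h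
    · exact h
    · exact hone

end

end Pool.Agent.FG.S
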