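import Pool.Agent.FGS.M0

/-!
Project FGS (MP_0c7c15_an), row FGS-13: the trace of the ultrapower of `A0` is unique.
-/

set_option autoImplicit false

open Filter Topology
open scoped ComplexOrder ENNReal

namespace Pool.Agent.FG.S

open UP UP.Br

section

variable {A : Type} [CStarAlgebra A] [TracialState A] {b : Par A} {C : Set A}

private noncomputable def s13_seq {B : Type} [CStarAlgebra B] (f : ℕ → B) (c : ℝ)
    (h : ∀ k, ‖f k‖ ≤ c) : BSeq B :=
  ⟨f, memℓp_infty ⟨c, by rintro _ ⟨i, rfl⟩; exact h i⟩⟩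

private theorem s13_seq_apply {B : Type} [CStarAlgebra B] (f : ℕ → B) (c : ℝ)
    (h : ∀ k, ‖f k‖ ≤ c) (k : ℕ) : s13_seq f c h k = f k := rfl

private theorem s13_half_norm {B : Type} [CStarAlgebra B] (y : B) :
    ‖(1 / 2 : ℂ) • (y + star y)‖ ≤ ‖y‖ := by
  rw [norm_smul]
  have h1 := norm_add_le y (star y)
  rw [norm_star] at h1
  have h2 : ‖(1 / 2 : ℂ)‖ = 1 / 2 := by simp
  rw [h2]
  linarith

/-- selfadjoint elements of trace zero are commutators -/
private theorem s13_self (hC : Hull b C) {U : Ultrafilter ℕ} (hU : (U : Filter ℕ) ≤ cofinite)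
    (h : M0 hC U) (hs : star h = h) (ht : (tau : M0 hC U →ₗ[ℂ] ℂ) h = 0) :
    ∃ Y Z : M0 hC U, h = Y * Z - Z * Y := by
  obtain ⟨x, hx⟩ := Ultraproduct.mk_surjective (fun _ : ℕ => (A0 hC : Type)) U h
  have hxk : ∀ k, ‖((x k : A0 hC) : A)‖ ≤ ‖x‖ := fun k =>
    lp.norm_apply_le_norm ENNReal.top_ne_zero x k
  have hex : ∀ k : ℕ, ∃ y ∈ C, ‖y‖ ≤ ‖((x k : A0 hC) : A)‖ + 1 ∧
      nrm2 (((x k : A0 hC) : A) - y) < 1 / ((k : ℝ) + 1) := fun k =>
    limC_norm hC (x k).2 (1 / ((k : ℝ) + 1)) (by positivity)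
  choose y hyC hyn hyd using hex
  have hyn' : ∀ k, ‖y k‖ ≤ ‖x‖ + 1 := fun k => (hyn k).trans (by linarith [hxk k])
  set w : ℕ → A := fun k => (1 / 2 : ℂ) • (y k + star (y k)) with hw
  set z : ℕ → A := fun k => w k - tau (w k) • (1 : A) with hz
  have hzC : ∀ k, z k ∈ C := fun k => hC.center (y k) (hyC k)
  have hws : ∀ k, star (w k) = w k := by
    intro k
    simp only [hw]
    rw [star_smul, star_add, star_star, add_comm (star (y k))]
    congr 1
    simp
  have htw : ∀ k, star (tau (w k)) = tau (w k) := by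
    intro k
    rw [← tau_star, hws]
  have hzs : ∀ k, star (z k) = z k := by
    intro k
    simp only [hz]
    rw [star_sub, star_smul (tau (w k)) (1 : A), star_one, hws, htw]
  have hzt : ∀ k, tau (z k) = 0 := by
    intro k
    simp only [hz]
    rw [map_sub, map_smul tau (tau (w k)) (1 : A), tau_one, smul_eq_mul, mul_one, sub_self]
  have hwn : ∀ k, ‖w k‖ ≤ ‖x‖ + 1 := fun k => (s13_half_norm (y k)).trans (hyn' k)
  have hzn : ∀ k, ‖z k‖ ≤ 2 * (‖x‖ + 1) := by
    intro k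
    have h1 : ‖tau (w k) • (1 : A)‖ ≤ ‖x‖ + 1 := by
      rw [norm_smul, CStarRing.norm_one, mul_one]
      exact (norm_tau_le (w k)).trans ((nrm2_le_norm (w k)).trans (hwn k))
    have h2 := norm_sub_le (w k) (tau (w k) • (1 : A))
    have h3 := hwn k
    simp only [hz]
    linarith
  have hcomm : ∀ k, ∃ Y ∈ C, ∃ Z ∈ C, z k = Y * Z - Z * Y ∧ ‖Y‖ ≤ 2 * ‖z k‖ + 2 ∧ ‖Z‖ ≤ 1 :=
    fun k => hC.comm (z k) (hzC k) (hzs k) (hzt k)
  choose Y hYC Z hZC hYZ hYn hZn using hcomm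
  -- the bounded sequences
  set y' : BSeq (A0 hC) := s13_seq (fun k => ⟨y k, mem_A0_of_mem hC (hyC k)⟩) (‖x‖ + 1) hyn'
    with hy'
  set z' : BSeq (A0 hC) := s13_seq (fun k => ⟨z k, mem_A0_of_mem hC (hzC k)⟩)
    (2 * (‖x‖ + 1)) hzn with hz'
  set Y' : BSeq (A0 hC) := s13_seq (fun k => ⟨Y k, mem_A0_of_mem hC (hYC k)⟩)
    (2 * (2 * (‖x‖ + 1)) + 2) (fun k => (hYn k).trans (by linarith [hzn k])) with hY'
  set Z' : BSeq (A0 hC) := s13_seq (fun k => ⟨Z k, mem_A0_of_mem hC (hZC k)⟩) 1 hZn with hZ'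
  set w' : BSeq (A0 hC) := (1 / 2 : ℂ) • (y' + star y') with hw'
  have hwk : ∀ k, ((w' k : A0 hC) : A) = w k := fun k => rfl
  have hzk : ∀ k, ((z' k : A0 hC) : A) = w k - tau (w k) • (1 : A) := fun k => rfl
  have h1 : Ultraproduct.mk (fun _ : ℕ => (A0 hC : Type)) U y' = h := by
    rw [← hx, Ultraproduct.mk_eq_mk_iff]
    have h2 : Tendsto (fun k : ℕ => 1 / ((k : ℝ) + 1)) U (𝓝 0) :=
      tendsto_one_div_add_atTop_nhds_zero_nat.mono_left (by rwa [← Nat.cofinite_eq_atTop])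
    refine squeeze_zero (fun k => nrm2_nonneg _) (fun k => ?_) h2
    have h3 := hyd k
    rw [nrm2_sub_comm] at h3
    exact h3.le
  have h2 : Ultraproduct.mk (fun _ : ℕ => (A0 hC : Type)) U (star y') = h := by
    rw [← Ultraproduct.star_mk, h1, hs]
  have h3 : Ultraproduct.mk (fun _ : ℕ => (A0 hC : Type)) U w' = h := by
    rw [hw', map_smul, map_add, h1, h2, ← two_smul ℂ h, smul_smul]
    norm_num
  have h4 : Tendsto (fun k => tau (w' k)) U (𝓝 0) := by
    have := Ultraproduct.tendsto_tau (fun _ : ℕ => (A0 hC : Type)) U w'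
    rw [h3, ht] at this
    exact this
  have h5 : Ultraproduct.mk (fun _ : ℕ => (A0 hC : Type)) U z' = h := by
    rw [← h3, Ultraproduct.mk_eq_mk_iff]
    have h6 : Tendsto (fun k => ‖tau (w' k)‖) U (𝓝 0) := by
      have := h4.norm
      rwa [norm_zero] at this
    refine h6.congr fun k => ?_
    have h7 : nrm2 (z' k - w' k) = nrm2 (((z' k : A0 hC) : A) - ((w' k : A0 hC) : A)) := rfl
    have h8 : tau (w' k) = tau (w k) := rfl
    rw [h7, hzk, hwk, h8, sub_sub_cancel_left, nrm2_neg, nrm2_smul, nrm2_one, mul_one]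
  refine ⟨Ultraproduct.mk (fun _ : ℕ => (A0 hC : Type)) U Y',
    Ultraproduct.mk (fun _ : ℕ => (A0 hC : Type)) U Z', ?_⟩
  rw [← h5, ← map_mul, ← map_mul, ← map_sub]
  congr 1
  apply lp.ext
  funext k
  apply Subtype.ext
  exact hYZ k

theorem trace_unique_M0 (hC : Hull b C) {U : Ultrafilter ℕ} (hU : (U : Filter ℕ) ≤ cofinite)
    (τ' : M0 hC U →ₗ[ℂ] ℂ) (h1 : τ' 1 = 1) (hc : ∀ x y, τ' (x * y) = τ' (y * x)) :
    τ' = tau := by
  have key : ∀ h : M0 hC U, star h = h → (tau : M0 hC U →ₗ[ℂ] ℂ) h = 0 → τ' h = 0 := by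
    intro h hs ht
    obtain ⟨Y, Z, hYZ⟩ := s13_self hC hU h hs ht
    rw [hYZ, map_sub, hc Y Z, sub_self]
  apply LinearMap.ext
  intro x
  set t : ℂ := tau x with ht
  set x0 : M0 hC U := x - t • (1 : M0 hC U) with hx0
  set a : M0 hC U := (1 / 2 : ℂ) • (x0 + star x0) with ha
  set c : M0 hC U := (-(Complex.I / 2)) • (x0 - star x0) with hcdef
  have e0 : tau x0 = 0 := by
    rw [hx0, map_sub, map_smul, tau_one, smul_eq_mul, mul_one, ← ht, sub_self]
  have e0' : tau (star x0) = 0 := by rw [tau_star, e0, star_zero]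
  have ea : τ' a = 0 := by
    apply key
    · rw [ha, star_smul, star_add, star_star, add_comm (star x0)]
      congr 1
      simp
    · rw [ha, map_smul, map_add, e0, e0', add_zero, smul_zero]
  have ec : τ' c = 0 := by
    apply key
    · rw [hcdef, star_smul, star_sub, star_star]
      have e1 : star (-(Complex.I / 2)) = Complex.I / 2 := by
        simp
        ring
      rw [e1, neg_smul, ← smul_neg, neg_sub]
    · rw [hcdef, map_smul, map_sub, e0, e0', sub_zero, smul_zero]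
  have ex : x = t • (1 : M0 hC U) + (a + Complex.I • c) := by
    have e1 : Complex.I • c = (1 / 2 : ℂ) • (x0 - star x0) := by
      rw [hcdef, smul_smul]
      congr 1
      linear_combination (-(1 / 2) : ℂ) * Complex.I_mul_I
    rw [e1, ha, ← smul_add]
    have e2 : x0 + star x0 + (x0 - star x0) = (2 : ℂ) • x0 := by
      rw [two_smul]; abel
    rw [e2, smul_smul]
    norm_num
    rw [hx0]
    abel
  calc τ' x = τ' (t • (1 : M0 hC U) + (a + Complex.I • c)) := by rw [← ex]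
    _ = t := by
      rw [map_add, map_add, map_smul τ' t 1, map_smul τ' Complex.I c, h1, ea, ec]
      simp

end

end Pool.Agent.FG.S
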