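import Pool.Agent.FGS.M0

/-!
Project FGS (separable version of FG, MP_0c7c15_an), row 09: matrices over the ultrapower
(helper54).
-/

set_option autoImplicit false
set_option linter.unusedSectionVars false

open Filter Topology
open scoped ComplexOrder ENNReal

namespace Pool.Agent.FG.S

open UP UP.Br

section General

variable {B : Type} [CStarAlgebra B] [TracialState B]

theorem isTr_tau (B : Type) [CStarAlgebra B] [TracialState B] : IsTr (tau : B →ₗ[ℂ] ℂ) :=
  ⟨tau_one, tau_mul_comm, tau_star_mul_self_nonneg⟩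

theorem clM_surjective (r : ℕ) (U : Ultrafilter ℕ) : Function.Surjective (clM B r U) := by
  intro Y
  choose x hx using fun a b => Ultraproduct.mk_surjective (fun _ : ℕ => B) U (Y a b)
  refine ⟨Matrix.of x, ?_⟩
  ext a b
  exact hx a b

theorem tendsto_trM (r : ℕ) (U : Ultrafilter ℕ) (X : Matrix (Fin r) (Fin r) (BSeq B)) :
    Tendsto (fun k => trM r (tau : B →ₗ[ℂ] ℂ) (evM B r k X)) U
      (𝓝 (trM r (tau : UP.Ultrapower B U →ₗ[ℂ] ℂ) (clM B r U X))) := by
  simp only [iso6_trM_apply]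
  refine Tendsto.const_mul _ (tendsto_finsetSum _ fun a _ => ?_)
  exact Ultraproduct.tendsto_tau (fun _ : ℕ => B) U (X a a)

theorem tendsto_n2M (r : ℕ) (U : Ultrafilter ℕ) (X : Matrix (Fin r) (Fin r) (BSeq B)) :
    Tendsto (fun k => n2 (trM r (tau : B →ₗ[ℂ] ℂ)) (evM B r k X)) U
      (𝓝 (n2 (trM r (tau : UP.Ultrapower B U →ₗ[ℂ] ℂ)) (clM B r U X))) := by
  unfold n2
  have h := tendsto_trM r U (star X * X)
  simp only [map_mul, map_star] at h
  exact ((Complex.continuous_re.tendsto _).comp h).sqrt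

/-- faithfulness of the trace of matrices -/
private theorem s09_faithful {r : ℕ} (Z : Matrix (Fin r) (Fin r) B)
    (h : n2 (trM r (tau : B →ₗ[ℂ] ℂ)) Z = 0) : Z = 0 := by
  ext a b
  have hr : 0 < r := lt_of_le_of_lt (Nat.zero_le _) a.2
  have h1 : trM r (tau : B →ₗ[ℂ] ℂ) (star Z * Z) =
      (((r : ℝ)⁻¹ * ∑ c, ∑ d, nrm2 (Z d c) ^ 2 : ℝ) : ℂ) := by
    rw [iso6_trM_apply]
    push_cast
    congr 1
    refine Finset.sum_congr rfl fun c _ => ?_
    rw [Matrix.mul_apply, map_sum]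
    refine Finset.sum_congr rfl fun d _ => ?_
    rw [Matrix.star_apply, tau_star_mul_self_eq]
    push_cast
    rfl
  unfold n2 at h
  rw [h1, Complex.ofReal_re] at h
  have h2 : 0 ≤ (r : ℝ)⁻¹ * ∑ c, ∑ d, nrm2 (Z d c) ^ 2 := by positivity
  have h3 : (r : ℝ)⁻¹ * ∑ c, ∑ d, nrm2 (Z d c) ^ 2 = 0 := (Real.sqrt_eq_zero h2).1 h
  have h4 : ∑ c, ∑ d, nrm2 (Z d c) ^ 2 = 0 := by
    rcases mul_eq_zero.1 h3 with h5 | h5
    · exact absurd h5 (by positivity)
    · exact h5
  have h6 := (Finset.sum_eq_zero_iff_of_nonneg fun c _ =>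
    Finset.sum_nonneg fun d _ => sq_nonneg (nrm2 (Z d c))).1 h4 b (Finset.mem_univ _)
  have h7 := (Finset.sum_eq_zero_iff_of_nonneg fun d _ => sq_nonneg (nrm2 (Z d b))).1 h6 a
    (Finset.mem_univ _)
  exact (nrm2_eq_zero_iff _).1 (pow_eq_zero_iff two_ne_zero |>.1 h7)

theorem clM_eq_zero_iff {r : ℕ} (U : Ultrafilter ℕ) (X : Matrix (Fin r) (Fin r) (BSeq B)) :
    clM B r U X = 0 ↔
      Tendsto (fun k => n2 (trM r (tau : B →ₗ[ℂ] ℂ)) (evM B r k X)) U (𝓝 0) := by
  constructor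
  · intro h
    have h1 := tendsto_n2M r U X
    rw [h, n2_zero] at h1
    exact h1
  · intro h
    exact s09_faithful _ (tendsto_nhds_unique (tendsto_n2M r U X) h)

theorem clM_congr {r : ℕ} (U : Ultrafilter ℕ) {X X' : Matrix (Fin r) (Fin r) (BSeq B)}
    (h : ∀ᶠ k in (U : Filter ℕ), evM B r k X = evM B r k X') : clM B r U X = clM B r U X' := by
  rw [← sub_eq_zero, ← map_sub, clM_eq_zero_iff]
  refine tendsto_const_nhds.congr' ?_
  filter_upwards [h] with k hk
  rw [map_sub, hk, sub_self, n2_zero]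

theorem norm_entry_le {r : ℕ} {X p : Matrix (Fin r) (Fin r) B} (hp : p * p = p)
    (hps : star p = p) (h : star X * X = p) (a c : Fin r) : ‖X a c‖ ≤ 1 := by
  let _ := CStarAlgebra.spectralOrder B
  let _ := CStarAlgebra.spectralOrderedRing B
  have hle : ∀ (Z : Matrix (Fin r) (Fin r) B) (d : Fin r), star Z * Z = p →
      star (Z d c) * Z d c ≤ p c c := by
    intro Z d hZ
    have h1 : p c c = ∑ j, star (Z j c) * Z j c := by
      rw [← hZ, Matrix.mul_apply]
      rfl
    rw [h1]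
    exact Finset.single_le_sum (f := fun j => star (Z j c) * Z j c)
      (fun j _ => star_mul_self_nonneg (Z j c)) (Finset.mem_univ d)
  have h2 : ‖p c c‖ ≤ 1 := by
    have h3 := CStarAlgebra.norm_le_norm_of_nonneg_of_le (star_mul_self_nonneg (p c c))
      (hle p c (by rw [hps, hp]))
    rw [CStarRing.norm_star_mul_self] at h3
    by_contra h4
    push Not at h4
    nlinarith
  have h5 := CStarAlgebra.norm_le_norm_of_nonneg_of_le (star_mul_self_nonneg (X a c)) (hle X a h)
  rw [CStarRing.norm_star_mul_self] at h5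
  nlinarith [norm_nonneg (X a c)]

end General

end Pool.Agent.FG.S
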