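import Pool.Agent.FGS.M0
import Pool.Agent.FGS.Rep
import Pool.Agent.FGS.RepC

/-!
Project FGS (separable version of FG, MP_0c7c15_an), row FGS-15: unitaries of a corner of
`M_r (M0)` lift to sequences of unitaries of the corners with entries in the hull.
-/

set_option autoImplicit false

open Filter Topology
open scoped ComplexOrder ENNReal

namespace Pool.Agent.FG.S

open UP UP.Br

/-- the inequality between 2-norms of a corner holds for the 2-norm of the algebra -/
theorem s15_n2_le {B : Type*} [Ring B] [StarRing B] [Algebra ℂ B] {τ : B →ₗ[ℂ] ℂ}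
    (hτ : IsTr τ) {p : Proj B} (hp : τ p.val ≠ 0) {x y : Cor p}
    (h : n2 (corTr τ p) x ≤ n2 (corTr τ p) y) : n2 τ x.val ≤ n2 τ y.val := by
  have h0 := Complex.nonneg_iff.1 (tr_proj_nonneg hτ p)
  have hval : τ p.val = (((τ p.val).re : ℝ) : ℂ) := by
    apply Complex.ext
    · simp
    · simpa using h0.2.symm
  have hs : 0 < (τ p.val).re := by
    refine lt_of_le_of_ne h0.1 ?_
    intro h
    apply hp
    rw [hval, ← h]
    simp
  have key : ∀ z : Cor p, n2 (corTr τ p) z = Real.sqrt ((τ p.val).re)⁻¹ * n2 τ z.val := by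
    intro z
    unfold n2
    rw [corTr_apply, Cor.val_mul, Cor.val_star, hval, ← Complex.ofReal_inv,
      Complex.re_ofReal_mul, Complex.ofReal_re, Real.sqrt_mul (inv_nonneg.2 hs.le)]
  rw [key, key] at h
  exact le_of_mul_le_mul_left h (Real.sqrt_pos.2 (inv_pos.2 hs))

section

variable {A : Type} [CStarAlgebra A] [TracialState A] {b : Par A} {C : Set A}

theorem s15_zero_mem (hC : Hull b C) : (0 : A) ∈ C := by
  have h := hC.smul_mem 0 0 1 hC.one_mem
  simpa using h

theorem s15_inC_mul (hC : Hull b C) {r : ℕ} {X Y : Matrix (Fin r) (Fin r) A} (hX : InC C X)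
    (hY : InC C Y) : InC C (X * Y) := by
  intro a c
  rw [Matrix.mul_apply]
  refine Finset.sum_induction _ (· ∈ C) (fun x y hx hy => hC.add_mem x hx y hy)
    (s15_zero_mem hC) ?_
  intro j _
  exact hC.mul_mem _ (hX a j) _ (hY j c)

theorem s15_trM_inc (hC : Hull b C) (r : ℕ) (Z : Matrix (Fin r) (Fin r) (A0 hC)) :
    trM r (tau : A →ₗ[ℂ] ℂ) (inc hC r Z) = trM r (tau : A0 hC →ₗ[ℂ] ℂ) Z := by
  rw [iso6_trM_apply, iso6_trM_apply]
  rfl

theorem s15_n2_inc (hC : Hull b C) (r : ℕ) (Z : Matrix (Fin r) (Fin r) (A0 hC)) :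
    n2 (trM r (tau : A →ₗ[ℂ] ℂ)) (inc hC r Z) = n2 (trM r (tau : A0 hC →ₗ[ℂ] ℂ)) Z := by
  unfold n2
  rw [← map_star, ← map_mul, s15_trM_inc]

theorem s15_inc_injective (hC : Hull b C) (r : ℕ) : Function.Injective (inc hC r) := by
  intro X Y h
  ext a c
  exact congrFun (congrFun h a) c

/-- matrices with entries in `C` come from matrices over `A0` -/
theorem s15_exists_inc (hC : Hull b C) {r : ℕ} {X : Matrix (Fin r) (Fin r) A} (hX : InC C X) :
    ∃ Z : Matrix (Fin r) (Fin r) (A0 hC), inc hC r Z = X :=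
  ⟨fun a c => ⟨X a c, mem_A0_of_mem hC (hX a c)⟩, rfl⟩

theorem exists_corner_unitary_rep (hC : Hull b C) {U : Ultrafilter ℕ}
    (hU : (U : Filter ℕ) ≤ cofinite) {r : ℕ} (p : Proj (Matrix (Fin r) (Fin r) (M0 hC U)))
    (hp : trM r (tau : M0 hC U →ₗ[ℂ] ℂ) p.val ≠ 0)
    (P : Matrix (Fin r) (Fin r) (BSeq (A0 hC)))
    (q : ℕ → Proj (Matrix (Fin r) (Fin r) (A0 hC))) (h1 : clM (A0 hC) r U P = p.val)
    (h2 : ∀ k, evM (A0 hC) r k P = (q k).val) (h3 : ∀ k, InC C (inc hC r (q k).val))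
    (h4 : ∀ k, trM r (tau : A0 hC →ₗ[ℂ] ℂ) (q k).val ≠ 0)
    (u : Cor p) (hu : u ∈ unitary (Cor p)) :
    ∃ (W : Matrix (Fin r) (Fin r) (BSeq (A0 hC))) (w : ∀ k, unitary (Cor (q k))),
      clM (A0 hC) r U W = u.val ∧ (∀ k, evM (A0 hC) r k W = (w k : Cor (q k)).val) ∧
      ∀ k, InC C (inc hC r (w k : Cor (q k)).val) := by
  have hr : 0 < r := by
    rcases Nat.eq_zero_or_pos r with rfl | h
    · exact absurd (by rw [iso6_trM_apply, Finset.univ_eq_empty, Finset.sum_empty, mul_zero]) hp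
    · exact h
  obtain ⟨X', hX', hXC⟩ := exists_repC hC hU u.val
  obtain ⟨Y, hY⟩ : ∃ Y : Matrix (Fin r) (Fin r) (BSeq (A0 hC)), Y = P * X' * P := ⟨_, rfl⟩
  have hYev : ∀ k, evM (A0 hC) r k Y = (q k).val * evM (A0 hC) r k X' * (q k).val := by
    intro k
    rw [hY, map_mul, map_mul, h2]
  have hYcl : clM (A0 hC) r U Y = u.val := by
    rw [hY, map_mul, map_mul, h1, hX', u.prop]
  let y : ∀ k, Cor (q k) := fun k => Cor.mk (evM (A0 hC) r k Y) (by
    rw [hYev]
    simp only [← mul_assoc]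
    rw [(q k).mul_self]
    simp only [mul_assoc]
    rw [(q k).mul_self])
  have hyval : ∀ k, (y k).val = evM (A0 hC) r k Y := fun k => rfl
  have hyC : ∀ k, InC C (inc hC r (y k).val) := by
    intro k
    rw [hyval, hYev, map_mul, map_mul]
    exact s15_inC_mul hC (s15_inC_mul hC (h3 k) (hXC k)) (h3 k)
  -- the unitaries
  have step : ∀ k, ∃ w : Cor (q k), InC C (inc hC r w.val) ∧ w ∈ unitary (Cor (q k)) ∧
      n2 (trM r (tau : A0 hC →ₗ[ℂ] ℂ)) ((y k).val - w.val) ≤
        n2 (trM r (tau : A0 hC →ₗ[ℂ] ℂ)) (star (y k).val * (y k).val - (q k).val) := by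
    intro k
    obtain ⟨q', hq'⟩ : ∃ q' : Proj (Matrix (Fin r) (Fin r) A), inc hC r (q k).val = q'.val :=
      ⟨(q k).map (inc hC r), rfl⟩
    obtain ⟨w', hw'C, hw'u, hw'⟩ := hC.polar r q' (corMap (inc hC r) hq' (y k))
      (by rw [← hq']; exact h3 k) (by rw [corMap_val]; exact hyC k)
    obtain ⟨Z, hZ⟩ := s15_exists_inc hC hw'C
    have hZprop : (q k).val * Z * (q k).val = Z := by
      apply s15_inc_injective hC r
      rw [map_mul, map_mul, hZ, hq']
      exact w'.prop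
    have hinj := s15_inc_injective hC r
    rw [Cor.mem_unitary_iff] at hw'u
    refine ⟨Cor.mk Z hZprop, ?_, ?_, ?_⟩
    · rw [Cor.val_mk, hZ]
      exact hw'C
    · rw [Cor.mem_unitary_iff, Cor.val_mk]
      constructor
      · apply hinj
        rw [map_mul, map_star, hZ, hq']
        exact hw'u.1
      · apply hinj
        rw [map_mul, map_star, hZ, hq']
        exact hw'u.2
    · have h5 : trM r (tau : A →ₗ[ℂ] ℂ) q'.val ≠ 0 := by
        rw [← hq', s15_trM_inc]
        exact h4 k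
      have h6 := s15_n2_le (isTr_trM (isTr_tau A) hr) h5 hw'
      rw [Cor.val_sub, Cor.val_sub, Cor.val_mul, Cor.val_star, Cor.val_one, corMap_val,
        ← hZ, ← hq', ← map_sub, ← map_star, ← map_mul, ← map_sub, s15_n2_inc,
        s15_n2_inc] at h6
      exact h6
  choose w hwC hwu hwn using step
  have hbound : ∀ k a c, ‖(w k).val a c‖ ≤ 1 := by
    intro k a c
    exact norm_entry_le (q k).mul_self (q k).star_val (Cor.mem_unitary_iff.1 (hwu k)).1 a c
  let W : Matrix (Fin r) (Fin r) (BSeq (A0 hC)) := fun a c =>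
    ⟨fun k => (w k).val a c, memℓp_infty ⟨1, by rintro _ ⟨k, rfl⟩; exact hbound k a c⟩⟩
  have hWev : ∀ k, evM (A0 hC) r k W = (w k).val := fun k => rfl
  refine ⟨W, fun k => ⟨w k, hwu k⟩, ?_, hWev, hwC⟩
  rw [← hYcl, eq_comm, ← sub_eq_zero, ← map_sub, clM_eq_zero_iff]
  have h7 := tendsto_n2M r U (star Y * Y - P)
  have h8 : clM (A0 hC) r U (star Y * Y - P) = 0 := by
    rw [map_sub, map_mul, map_star, hYcl, h1, (Cor.mem_unitary_iff.1 hu).1, sub_self]
  rw [h8, n2_zero] at h7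
  refine tendsto_of_tendsto_of_tendsto_of_le_of_le tendsto_const_nhds h7 ?_ ?_
  · intro k
    exact n2_nonneg _ _
  · intro k
    change n2 _ (evM (A0 hC) r k (Y - W)) ≤ n2 _ (evM (A0 hC) r k (star Y * Y - P))
    rw [map_sub, map_sub, map_mul, map_star, hWev, h2]
    exact hwn k

end

end Pool.Agent.FG.S
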