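import Pool.Agent.FGS.Rep
import Pool.Agent.FGS.TraceM0
import Pool.Agent.FGS.ProjRep
import Pool.Agent.FGS.UnitRep

/-!
Project FGS, row FGS-16: the unitary group of `M0`, identified with the unitary group of a corner
of a matrix algebra over `M0`, is the ultraproduct of the unitary groups of corners over `A0`.
-/

set_option autoImplicit false

open Filter Topology
open scoped ComplexOrder ENNReal

namespace Pool.Agent.FG.S

open UP UP.Br

section General

variable {B : Type} [CStarAlgebra B] [TracialState B]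

/-- the entries of a unitary of a corner have norm at most one -/
theorem s16_norm_le {r : ℕ} {q : Proj (Matrix (Fin r) (Fin r) B)} (w : unitary (Cor q))
    (a c : Fin r) : ‖(w : Cor q).val a c‖ ≤ 1 :=
  norm_entry_le q.mul_self q.star_val (Cor.mem_unitary_iff.1 w.2).1 a c

/-- the matrix over bounded sequences of a sequence of unitaries of corners -/
noncomputable def s16_W {r : ℕ} (q : ℕ → Proj (Matrix (Fin r) (Fin r) B))
    (w : ∀ k, unitary (Cor (q k))) : Matrix (Fin r) (Fin r) (BSeq B) :=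
  fun a c => ⟨fun k => (w k : Cor (q k)).val a c, memℓp_infty ⟨1, by
    rintro _ ⟨k, rfl⟩
    exact s16_norm_le (w k) a c⟩⟩

theorem s16_evM {r : ℕ} (q : ℕ → Proj (Matrix (Fin r) (Fin r) B))
    (w : ∀ k, unitary (Cor (q k))) (k : ℕ) : evM B r k (s16_W q w) = (w k : Cor (q k)).val := rfl

theorem s16_evM_one {r : ℕ} (q : ℕ → Proj (Matrix (Fin r) (Fin r) B)) (k : ℕ) :
    evM B r k (s16_W q 1) = (q k).val := rfl

theorem s16_evM_mul {r : ℕ} (q : ℕ → Proj (Matrix (Fin r) (Fin r) B))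
    (w w' : ∀ k, unitary (Cor (q k))) (k : ℕ) :
    evM B r k (s16_W q (w * w')) = evM B r k (s16_W q w) * evM B r k (s16_W q w') := rfl

theorem s16_congr {r : ℕ} (U : Ultrafilter ℕ) {X X' : Matrix (Fin r) (Fin r) (BSeq B)}
    (h : ∀ k, evM B r k X = evM B r k X') : clM B r U X = clM B r U X' :=
  clM_congr U (Eventually.of_forall h)

end General

section

variable {A : Type} [CStarAlgebra A] [TracialState A] {b : Par A} {C : Set A}

theorem corner_uModel (hC : Hull b C) {U : Ultrafilter ℕ} (hU : (U : Filter ℕ) ≤ cofinite)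
    {r : ℕ} (θ : M0 hC U →⋆ₙₐ[ℂ] Matrix (Fin r) (Fin r) (M0 hC U))
    (hθ : Function.Injective θ) (p : Matrix (Fin r) (Fin r) (M0 hC U)) (hp : p * p = p)
    (hps : star p = p) (hrange : Set.range θ = {x | p * x * p = x}) {t : ℝ} (ht : 0 < t)
    (htr : ∑ i, (tau : M0 hC U →ₗ[ℂ] ℂ) (p i i) = (t : ℂ)) :
    ∃ q : ℕ → Proj (Matrix (Fin r) (Fin r) (A0 hC)),
      (∀ k, InC C (inc hC r (q k).val)) ∧
      (∀ k, trM r (tau : A0 hC →ₗ[ℂ] ℂ) (q k).val ≠ 0) ∧
      Tendsto (fun k => (r : ℝ) * (trM r (tau : A0 hC →ₗ[ℂ] ℂ) (q k).val).re) U (𝓝 t) ∧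
      ∃ mod : UModel (fun k => Cor (q k)) (fun k => corTr (trM r (tau : A0 hC →ₗ[ℂ] ℂ)) (q k))
        (tau : M0 hC U →ₗ[ℂ] ℂ) U,
        ∀ u : unitary (M0 hC U), ∃ w : ∀ k, unitary (Cor (q k)), mod.lam w = u ∧
          ∀ k, InC C (inc hC r (w k : Cor (q k)).val) := by
  classical
  have hr : 0 < r := by
    rcases Nat.eq_zero_or_pos r with h | h
    · subst h
      have h0 : (t : ℂ) = 0 := by rw [← htr]; simp
      exact absurd (by exact_mod_cast h0) ht.ne'
    · exact h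
  have hr' : (0 : ℝ) < r := by exact_mod_cast hr
  have hrc : (r : ℂ) ≠ 0 := by exact_mod_cast hr.ne'
  have htc : (t : ℂ) ≠ 0 := by exact_mod_cast ht.ne'
  set pp : Proj (Matrix (Fin r) (Fin r) (M0 hC U)) := ⟨p, hp, hps⟩ with hpp
  have hpv : pp.val = p := rfl
  have htp : trM r (tau : M0 hC U →ₗ[ℂ] ℂ) p = (r : ℂ)⁻¹ * t := by
    rw [iso6_trM_apply, htr]
  have htp0 : trM r (tau : M0 hC U →ₗ[ℂ] ℂ) p ≠ 0 := by
    rw [htp]
    exact mul_ne_zero (inv_ne_zero hrc) htc
  obtain ⟨P, q, hP, hPq, hq, hq0⟩ := exists_proj_rep hC hU pp htp0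
  rw [hpv] at hP
  have hlimq : Tendsto (fun k => trM r (tau : A0 hC →ₗ[ℂ] ℂ) (q k).val) U
      (𝓝 (trM r (tau : M0 hC U →ₗ[ℂ] ℂ) p)) := by
    have h1 := tendsto_trM r U P
    rw [hP] at h1
    exact h1.congr fun k => by rw [hPq k]
  -- the image of `1`
  have hp1 : θ 1 = p := by
    have hmem : p ∈ Set.range θ := by
      rw [hrange]
      show p * p * p = p
      rw [hp, hp]
    obtain ⟨e, he⟩ := hmem
    have h1 : θ 1 * p = p := by rw [← he, ← map_mul, one_mul]
    have h2 : θ 1 ∈ {x | p * x * p = x} := by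
      rw [← hrange]
      exact ⟨1, rfl⟩
    have h3 : p * θ 1 * p = θ 1 := h2
    rw [← h3, mul_assoc, h1, hp]
  -- the trace of `θ m`
  have htrθ : ∀ m, (trM r (tau : M0 hC U →ₗ[ℂ] ℂ) p)⁻¹ *
      trM r (tau : M0 hC U →ₗ[ℂ] ℂ) (θ m) = tau m := by
    let τ' : M0 hC U →ₗ[ℂ] ℂ :=
      { toFun := fun m => (trM r (tau : M0 hC U →ₗ[ℂ] ℂ) p)⁻¹ *
          trM r (tau : M0 hC U →ₗ[ℂ] ℂ) (θ m)
        map_add' := by
          intro a b
          rw [map_add, map_add, mul_add]
        map_smul' := by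
          intro c a
          rw [map_smul, map_smul, smul_eq_mul, smul_eq_mul, RingHom.id_apply]
          ring }
    have hτ' : τ' = tau := by
      apply trace_unique_M0 hC hU
      · show (trM r (tau : M0 hC U →ₗ[ℂ] ℂ) p)⁻¹ * trM r (tau : M0 hC U →ₗ[ℂ] ℂ) (θ 1) = 1
        rw [hp1, inv_mul_cancel₀ htp0]
      · intro a b
        show (trM r (tau : M0 hC U →ₗ[ℂ] ℂ) p)⁻¹ * trM r (tau : M0 hC U →ₗ[ℂ] ℂ) (θ (a * b)) =
          (trM r (tau : M0 hC U →ₗ[ℂ] ℂ) p)⁻¹ * trM r (tau : M0 hC U →ₗ[ℂ] ℂ) (θ (b * a))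
        have e1 : θ (a * b) = θ a * θ b := map_mul θ a b
        have e2 : θ (b * a) = θ b * θ a := map_mul θ b a
        rw [e1, e2, (isTr_trM (isTr_tau (M0 hC U)) hr).comm]
    intro m
    have h1 : τ' m = tau m := by rw [hτ']
    exact h1
  -- the unitaries
  have hmem : ∀ w : ∀ k, unitary (Cor (q k)), ∃ m, θ m = clM (A0 hC) r U (s16_W q w) := by
    intro w
    have h1 : clM (A0 hC) r U (s16_W q w) ∈ {x | p * x * p = x} := by
      show p * clM (A0 hC) r U (s16_W q w) * p = clM (A0 hC) r U (s16_W q w)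
      rw [← hP, ← map_mul, ← map_mul]
      refine s16_congr U fun k => ?_
      rw [map_mul, map_mul, hPq k, s16_evM]
      exact (w k : Cor (q k)).prop
    rw [← hrange] at h1
    exact h1
  choose f hf using hmem
  have hfstar : ∀ w, star (f w) * f w = 1 := by
    intro w
    apply hθ
    rw [map_mul, map_star, hf, hp1, ← hP, ← map_star, ← map_mul]
    refine s16_congr U fun k => ?_
    rw [map_mul, map_star, hPq k, s16_evM]
    exact (Cor.mem_unitary_iff.1 (w k).2).1
  have hfstar' : ∀ w, f w * star (f w) = 1 := by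
    intro w
    apply hθ
    rw [map_mul, map_star, hf, hp1, ← hP, ← map_star, ← map_mul]
    refine s16_congr U fun k => ?_
    rw [map_mul, map_star, hPq k, s16_evM]
    exact (Cor.mem_unitary_iff.1 (w k).2).2
  have hfmul : ∀ w w', f (w * w') = f w * f w' := by
    intro w w'
    apply hθ
    rw [map_mul, hf, hf, hf, ← map_mul]
    refine s16_congr U fun k => ?_
    rw [map_mul, s16_evM_mul]
  have hfone : f 1 = 1 := by
    apply hθ
    rw [hf, hp1, ← hP]
    refine s16_congr U fun k => ?_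
    exact (s16_evM_one q k).trans (hPq k).symm
  let lam : (∀ k, unitary (Cor (q k))) →* unitary (M0 hC U) :=
    { toFun := fun w => ⟨f w, Unitary.mem_iff.2 ⟨hfstar w, hfstar' w⟩⟩
      map_one' := Subtype.ext hfone
      map_mul' := fun w w' => Subtype.ext (hfmul w w') }
  have hsurj : ∀ u : unitary (M0 hC U), ∃ w : ∀ k, unitary (Cor (q k)), lam w = u ∧
      ∀ k, InC C (inc hC r (w k : Cor (q k)).val) := by
    intro u
    have h1 : p * θ u * p = θ u := by
      have h2 : θ (u : M0 hC U) ∈ {x | p * x * p = x} := by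
        rw [← hrange]
        exact ⟨_, rfl⟩
      exact h2
    set v : Cor pp := Cor.mk (θ u) h1 with hv
    have hvv : v.val = θ u := rfl
    have hvu : v ∈ unitary (Cor pp) := by
      rw [Cor.mem_unitary_iff, hvv, ← map_star, ← map_mul, ← map_mul,
        (Unitary.mem_iff.1 u.2).1, (Unitary.mem_iff.1 u.2).2, hp1]
      exact ⟨rfl, rfl⟩
    obtain ⟨W, w, hW, hWw, hwC⟩ := exists_corner_unitary_rep hC hU pp htp0 P q hP hPq hq hq0 v hvu
    refine ⟨w, Subtype.ext (hθ ?_), hwC⟩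
    show θ (f w) = θ u
    rw [hf, ← hvv, ← hW]
    refine s16_congr U fun k => ?_
    rw [hWw k, s16_evM]
  refine ⟨q, hq, hq0, ?_, ⟨lam, fun u => ?_, fun w => ?_⟩, hsurj⟩
  · have h1 := ((Complex.continuous_re.tendsto _).comp hlimq).const_mul (r : ℝ)
    have h2 : (r : ℝ) * (trM r (tau : M0 hC U →ₗ[ℂ] ℂ) p).re = t := by
      have h3 : trM r (tau : M0 hC U →ₗ[ℂ] ℂ) p = (((r : ℝ)⁻¹ * t : ℝ) : ℂ) := by
        rw [htp]
        push_cast
        rfl
      rw [h3, Complex.ofReal_re, mul_inv_cancel_left₀ hr'.ne']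
    rw [h2] at h1
    exact h1
  · obtain ⟨w, hw, -⟩ := hsurj u
    exact ⟨w, hw⟩
  · show Tendsto (fun k => (trM r (tau : A0 hC →ₗ[ℂ] ℂ) (q k).val)⁻¹ *
      trM r (tau : A0 hC →ₗ[ℂ] ℂ) (w k : Cor (q k)).val) U (𝓝 (tau (f w)))
    have h1 := tendsto_trM r U (s16_W q w)
    rw [← hf] at h1
    have h2 := (hlimq.inv₀ htp0).mul h1
    rw [htrθ] at h2
    exact h2

end

end Pool.Agent.FG.S
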