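import Pool.Agent.FG.UDefs
import Pool.Agent.FG.Lift

/-!
# Project FGS, row FGS-04: polar decomposition and unitary groups in a model
-/

set_option autoImplicit false

open Filter Topology
open scoped ComplexOrder

namespace Pool.Agent.FG.S

/-- the class of a family of unitary matrices -/
noncomputable def s04_fam {I : Type} {n : I → Type} [∀ i, Fintype (n i)] [∀ i, DecidableEq (n i)]
    (w : ∀ i, Matrix (n i) (n i) ℂ) (hw : ∀ i, w i ∈ Matrix.unitaryGroup (n i) ℂ) : BF n :=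
  ⟨w, 1, fun i => iso2_norm_le (hw i)⟩

theorem s04_unitary {I : Type} {n : I → Type} [∀ i, Fintype (n i)] [∀ i, DecidableEq (n i)]
    {M : Type*} [Ring M] [StarRing M] [Algebra ℂ M] {τ : M →ₗ[ℂ] ℂ}
    {W : Ultrafilter I} (mod : Model n τ W) (w : ∀ i, Matrix (n i) (n i) ℂ)
    (hw : ∀ i, w i ∈ Matrix.unitaryGroup (n i) ℂ) : mod.pi (s04_fam w hw) ∈ unitary M := by
  have h1 : star (s04_fam w hw) * s04_fam w hw = 1 := by
    apply Subtype.ext
    funext i
    exact (Unitary.mem_iff.mp (hw i)).1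
  have h2 : s04_fam w hw * star (s04_fam w hw) = 1 := by
    apply Subtype.ext
    funext i
    exact (Unitary.mem_iff.mp (hw i)).2
  rw [Unitary.mem_iff]
  constructor
  · rw [← map_star, ← map_mul, h1, map_one]
  · rw [← map_star, ← map_mul, h2, map_one]

theorem model_polar {I : Type} {n : I → Type} [∀ i, Fintype (n i)] [∀ i, DecidableEq (n i)]
    {M : Type*} [Ring M] [StarRing M] [Algebra ℂ M] {τ : M →ₗ[ℂ] ℂ}
    {W : Ultrafilter I} (mod : Model n τ W) (x : M) :
    ∃ w ∈ unitary M, n2 τ (x - w) ≤ n2 τ (star x * x - 1) := by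
  obtain ⟨y, rfl⟩ := mod.surj x
  choose w hw hwn using fun i => exists_unitary_near (y.1 i)
  refine ⟨mod.pi (s04_fam w hw), s04_unitary mod w hw, ?_⟩
  have h1 := model_n2 mod (y - s04_fam w hw)
  have h2 := model_n2 mod (star y * y - 1)
  rw [map_sub] at h1
  rw [map_sub, map_mul, map_star, map_one] at h2
  exact le_of_tendsto_of_tendsto' h1 h2 fun i => hwn i

theorem uModel_of_model {I : Type} {n : I → Type} [∀ i, Fintype (n i)] [∀ i, DecidableEq (n i)]
    {M : Type*} [Ring M] [StarRing M] [Algebra ℂ M] {τ : M →ₗ[ℂ] ℂ}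
    {W : Ultrafilter I} (mod : Model n τ W) :
    Nonempty (UModel (fun i => Matrix (n i) (n i) ℂ) (fun i => mtr (n i)) τ W) := by
  refine ⟨⟨⟨⟨fun u => ⟨mod.pi (s04_fam (fun i => (u i : Matrix (n i) (n i) ℂ)) fun i => (u i).2),
    s04_unitary mod _ _⟩, ?_⟩, ?_⟩, ?_, ?_⟩⟩
  · apply Subtype.ext
    change mod.pi _ = 1
    have : s04_fam (fun i => ((1 : ∀ k, unitary (Matrix (n k) (n k) ℂ)) i : Matrix (n i) (n i) ℂ))
        (fun i => ((1 : ∀ k, unitary (Matrix (n k) (n k) ℂ)) i).2) = 1 := rfl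
    rw [this, map_one]
  · intro u v
    apply Subtype.ext
    change mod.pi _ = mod.pi _ * mod.pi _
    rw [← map_mul]
    rfl
  · rintro ⟨u, hu⟩
    obtain ⟨x, hx, hxu⟩ := lift_unitary mod hu
    refine ⟨fun i => ⟨x.1 i, hx i⟩, ?_⟩
    apply Subtype.ext
    exact hxu
  · intro u
    exact mod.tr (s04_fam (fun i => (u i : Matrix (n i) (n i) ℂ)) fun i => (u i).2)

end Pool.Agent.FG.S
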