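import Pool.Agent.FG.Lift

/-! Project FGS, row FGS-03: projections near almost idempotent hermitian elements (helper7). -/

set_option autoImplicit false

open Filter Topology
open scoped ComplexOrder Matrix

namespace Pool.Agent.FG.S

theorem near_real (l : ℝ) : |l - (if 1 / 2 ≤ l then 1 else 0)| ≤ 2 * |l ^ 2 - l| := by
  have e : l ^ 2 - l = l * (l - 1) := by ring
  rw [e, abs_mul]
  split_ifs with h
  · have h1 : 1 / 2 ≤ |l| := h.trans (le_abs_self l)
    nlinarith [abs_nonneg (l - 1)]
  · have h1 : 1 / 2 ≤ |l - 1| := by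
      rw [abs_sub_comm]
      refine le_trans ?_ (le_abs_self _)
      linarith
    rw [sub_zero]
    nlinarith [abs_nonneg l]

theorem exists_proj_near {n : Type*} [Fintype n] [DecidableEq n] (h : Matrix n n ℂ)
    (hh : star h = h) : ∃ q : Matrix n n ℂ, q * q = q ∧ star q = q ∧
      n2 (mtr n) (h - q) ≤ 2 * n2 (mtr n) (h * h - h) := by
  classical
  have hA : h.IsHermitian := hh
  set V : Matrix.unitaryGroup n ℂ := hA.eigenvectorUnitary with hV
  set l : n → ℝ := hA.eigenvalues with hl
  set e : n → ℝ := fun i => if 1 / 2 ≤ l i then 1 else 0 with he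
  have hVV : star (V : Matrix n n ℂ) * V = 1 := Unitary.coe_star_mul_self V
  have hVV' : (V : Matrix n n ℂ) * star (V : Matrix n n ℂ) = 1 := Unitary.coe_mul_star_self V
  set D : Matrix n n ℂ := Matrix.diagonal fun i => ((l i : ℝ) : ℂ) with hD
  set E : Matrix n n ℂ := Matrix.diagonal fun i => ((e i : ℝ) : ℂ) with hE
  have hdiag : star (V : Matrix n n ℂ) * h * V = D := by
    have h1 := hA.conjStarAlgAut_star_eigenvectorUnitary
    rw [Unitary.conjStarAlgAut_star_apply] at h1
    rw [h1]
    rfl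
  have hh' : h = V * D * star (V : Matrix n n ℂ) := by
    rw [← hdiag]
    calc h = ((V : Matrix n n ℂ) * star (V : Matrix n n ℂ)) * h *
          ((V : Matrix n n ℂ) * star (V : Matrix n n ℂ)) := by rw [hVV', one_mul, mul_one]
      _ = _ := by noncomm_ring
  have hEE : E * E = E := by
    rw [hE, Matrix.diagonal_mul_diagonal]
    congr 1
    funext i
    simp only [he]
    split_ifs <;> simp
  have hEs : star E = E := by
    rw [hE, Matrix.star_eq_conjTranspose, Matrix.diagonal_conjTranspose]
    congr 1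
    funext i
    simp
  have hn2 : ∀ X : Matrix n n ℂ, n2 (mtr n) (V * X * star (V : Matrix n n ℂ)) = n2 (mtr n) X := by
    intro X
    rw [iso1_n2_unitary (Unitary.star_mem V.2), n2_unitary_mul (mtr n) V.2]
  have hn : ∀ f : n → ℂ, n2 (mtr n) (Matrix.diagonal f) ^ 2 = (∑ i, ‖f i‖ ^ 2) / Fintype.card n := by
    intro f
    rw [n2_mtr_sq]
    congr 1
    refine Finset.sum_congr rfl fun i _ => ?_
    rw [Finset.sum_eq_single i]
    · rw [Matrix.diagonal_apply_eq]
    · intro j _ hj
      rw [Matrix.diagonal_apply_ne _ (Ne.symm hj), norm_zero]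
      norm_num
    · intro hi
      exact absurd (Finset.mem_univ i) hi
  refine ⟨V * E * star (V : Matrix n n ℂ), ?_, ?_, ?_⟩
  · calc V * E * star (V : Matrix n n ℂ) * (V * E * star (V : Matrix n n ℂ))
        = V * E * (star (V : Matrix n n ℂ) * V) * E * star (V : Matrix n n ℂ) := by noncomm_ring
      _ = V * (E * E) * star (V : Matrix n n ℂ) := by rw [hVV, mul_one]; noncomm_ring
      _ = _ := by rw [hEE]
  · rw [star_mul, star_mul, star_star, hEs, mul_assoc]
  · have e1 : h - V * E * star (V : Matrix n n ℂ) = V * (D - E) * star (V : Matrix n n ℂ) := by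
      conv_lhs => rw [hh']
      noncomm_ring
    have e2 : h * h - h = V * (D * D - D) * star (V : Matrix n n ℂ) := by
      have h3 : h * h = V * D * (star (V : Matrix n n ℂ) * V) * D * star (V : Matrix n n ℂ) := by
        conv_lhs => rw [hh']
        noncomm_ring
      rw [h3, hVV, mul_one]
      conv_lhs => rw [hh']
      noncomm_ring
    rw [e1, e2, hn2, hn2]
    have hsq : n2 (mtr n) (D - E) ^ 2 ≤ (2 * n2 (mtr n) (D * D - D)) ^ 2 := by
      rw [mul_pow, hD, hE, Matrix.diagonal_mul_diagonal, Matrix.diagonal_sub, Matrix.diagonal_sub,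
        hn, hn, ← mul_div_assoc]
      refine div_le_div_of_nonneg_right ?_ (Nat.cast_nonneg _)
      rw [Finset.mul_sum]
      refine Finset.sum_le_sum fun i _ => ?_
      have g1 : ‖((l i : ℝ) : ℂ) - ((e i : ℝ) : ℂ)‖ = |l i - e i| := by
        rw [← Complex.ofReal_sub, Complex.norm_real, Real.norm_eq_abs]
      have g2 : ‖((l i : ℝ) : ℂ) * ((l i : ℝ) : ℂ) - ((l i : ℝ) : ℂ)‖ = |l i ^ 2 - l i| := by
        rw [← Complex.ofReal_mul, ← Complex.ofReal_sub, Complex.norm_real, Real.norm_eq_abs, sq]
      rw [g1, g2, ← mul_pow]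
      exact pow_le_pow_left₀ (abs_nonneg _) (near_real (l i)) 2
    exact (sq_le_sq₀ (n2_nonneg _ _) (mul_nonneg zero_le_two (n2_nonneg _ _))).mp hsq

section

open scoped Matrix.Norms.L2Operator

theorem norm_proj_le {n : Type*} [Fintype n] [DecidableEq n] {q : Matrix n n ℂ}
    (h1 : q * q = q) (h2 : star q = q) : ‖q‖ ≤ 1 := by
  have h3 : ‖q‖ * ‖q‖ = ‖q‖ := by
    rw [← CStarRing.norm_star_mul_self, h2, h1]
  by_contra h4
  push Not at h4
  nlinarith

end

theorem model_proj {I : Type} {n : I → Type} [∀ i, Fintype (n i)] [∀ i, DecidableEq (n i)]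
    {B : Type*} [Ring B] [StarRing B] [Algebra ℂ B] [StarModule ℂ B] {σ : B →ₗ[ℂ] ℂ}
    {W : Ultrafilter I} (mod : Model n σ W) (h : B) (hh : star h = h) :
    ∃ q : B, q * q = q ∧ star q = q ∧ n2 σ (h - q) ≤ 2 * n2 σ (h * h - h) := by
  obtain ⟨y, hy⟩ := mod.surj h
  set y' : BF n := (1 / 2 : ℂ) • (y + star y) with hy'
  have hpi : mod.pi y' = h := by
    rw [hy', map_smul, map_add, map_star, hy, hh, ← two_smul ℂ h, smul_smul]
    norm_num
  have hst : star y' = y' := by
    rw [hy', star_smul, star_add, star_star, add_comm]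
    congr 1
    simp
  choose q hq1 hq2 hq3 using fun i => exists_proj_near (y'.1 i)
    (by have := congrArg (fun z : BF n => z.1 i) hst; exact this)
  let z : BF n := ⟨q, 1, fun i => norm_proj_le (hq1 i) (hq2 i)⟩
  have hzz : z * z = z := by
    apply Subtype.ext; funext i; exact hq1 i
  have hzs : star z = z := by
    apply Subtype.ext; funext i; exact hq2 i
  refine ⟨mod.pi z, ?_, ?_, ?_⟩
  · rw [← map_mul, hzz]
  · rw [← map_star, hzs]
  · have l1 := model_n2 mod (y' - z)
    have l2 := (model_n2 mod (y' * y' - y')).const_mul 2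
    rw [map_sub, hpi] at l1
    rw [map_sub, map_mul, hpi] at l2
    exact le_of_tendsto_of_tendsto' l1 l2 hq3

end Pool.Agent.FG.S
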