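import Pool.Agent.FGS.Big

/-!
Project FGS (MP_0c7c15_an), row FGS-01: countable hulls closed under countably many witness
relations (helper56).
-/

set_option autoImplicit false

open Filter Topology
open scoped ComplexOrder ENNReal

namespace Pool.Agent.FG.S

section Skolem

variable {ι A : Type}
  (R : ι → (r : ℕ) → List (Matrix (Fin r) (Fin r) A) → Matrix (Fin r) (Fin r) A → Prop)

/-- The entries of the chosen witnesses for lists of matrices over `S`. -/
private def s01_new (S : Set A) : Set A :=
  ⋃ (i : ι), ⋃ (r : ℕ), ⋃ (l : List (Matrix (Fin r) (Fin r) S)),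
    ⋃ (h : ∃ X, R i r (l.map (fun X => X.map Subtype.val)) X), ⋃ (a : Fin r), ⋃ (b : Fin r),
      {h.choose a b}

private def s01_step (S : Set A) : Set A := S ∪ s01_new R S

private theorem s01_step_countable [Countable ι] {S : Set A} (hS : S.Countable) :
    (s01_step R S).Countable := by
  have : Countable S := hS.to_subtype
  refine hS.union ?_
  refine Set.countable_iUnion fun i => Set.countable_iUnion fun r => ?_
  have : Countable (Matrix (Fin r) (Fin r) S) :=
    inferInstanceAs (Countable (Fin r → Fin r → S))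
  refine Set.countable_iUnion fun l => Set.countable_iUnion fun h =>
    Set.countable_iUnion fun a => Set.countable_iUnion fun b => Set.countable_singleton _

private theorem s01_lift {S : Set A} {r : ℕ} (l : List (Matrix (Fin r) (Fin r) A))
    (hl : ∀ X ∈ l, InC S X) :
    ∃ l' : List (Matrix (Fin r) (Fin r) S), l'.map (fun X => X.map Subtype.val) = l := by
  induction l with
  | nil => exact ⟨[], rfl⟩
  | cons X l ih =>
    obtain ⟨l', hl'⟩ := ih (fun Y hY => hl Y (List.mem_cons_of_mem _ hY))
    have hX : InC S X := hl X List.mem_cons_self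
    refine ⟨(Matrix.of fun a b => ⟨X a b, hX a b⟩) :: l', ?_⟩
    rw [List.map_cons, hl']
    congr 1

private theorem s01_closed {S : Set A} {i : ι} {r : ℕ} (l : List (Matrix (Fin r) (Fin r) A))
    (hl : ∀ X ∈ l, InC S X) (h : ∃ X, R i r l X) : ∃ X, InC (s01_step R S) X ∧ R i r l X := by
  obtain ⟨l', rfl⟩ := s01_lift l hl
  refine ⟨h.choose, ?_, h.choose_spec⟩
  intro a b
  refine Or.inr ?_
  simp only [s01_new, Set.mem_iUnion]
  exact ⟨i, r, l', h, a, b, rfl⟩

private theorem s01_mono (m n : ℕ) (h : m ≤ n) :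
    (s01_step R)^[m] ∅ ⊆ (s01_step R)^[n] ∅ := by
  induction n, h using Nat.le_induction with
  | base => exact subset_rfl
  | succ n _ ih =>
    rw [Function.iterate_succ_apply']
    exact ih.trans Set.subset_union_left

/-- A finite list of matrices over the union is a list of matrices over one of the steps. -/
private theorem s01_bound {r : ℕ} (l : List (Matrix (Fin r) (Fin r) A))
    (hl : ∀ X ∈ l, InC (⋃ n, (s01_step R)^[n] ∅) X) :
    ∃ n, ∀ X ∈ l, InC ((s01_step R)^[n] ∅) X := by
  induction l with
  | nil => exact ⟨0, fun X hX => absurd hX (List.not_mem_nil)⟩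
  | cons X l ih =>
    obtain ⟨n, hn⟩ := ih (fun Y hY => hl Y (List.mem_cons_of_mem _ hY))
    have hX : ∀ a b, ∃ m, X a b ∈ (s01_step R)^[m] ∅ := fun a b =>
      Set.mem_iUnion.mp (hl X List.mem_cons_self a b)
    choose m hm using hX
    refine ⟨n + ∑ a, ∑ b, m a b, ?_⟩
    intro Y hY a b
    rcases List.mem_cons.mp hY with rfl | hY
    · refine s01_mono R (m a b) _ ?_ (hm a b)
      have h1 : m a b ≤ ∑ b, m a b :=
        Finset.single_le_sum (f := fun b => m a b) (fun _ _ => Nat.zero_le _) (Finset.mem_univ b)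
      have h2 : ∑ b, m a b ≤ ∑ a, ∑ b, m a b :=
        Finset.single_le_sum (f := fun a => ∑ b, m a b) (fun _ _ => Nat.zero_le _)
          (Finset.mem_univ a)
      omega
    · exact s01_mono R n _ (Nat.le_add_right _ _) (hn Y hY a b)

end Skolem

theorem exists_hull {ι A : Type} [Countable ι]
    (R : ι → (r : ℕ) → List (Matrix (Fin r) (Fin r) A) → Matrix (Fin r) (Fin r) A → Prop) :
    ∃ C : Set A, C.Countable ∧ ∀ (i : ι) (r : ℕ) (l : List (Matrix (Fin r) (Fin r) A)),
      (∀ X ∈ l, InC C X) → (∃ X, R i r l X) → ∃ X, InC C X ∧ R i r l X := by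
  refine ⟨⋃ n, (s01_step R)^[n] ∅, ?_, ?_⟩
  · refine Set.countable_iUnion fun n => ?_
    induction n with
    | zero => exact Set.countable_empty
    | succ n ih =>
      rw [Function.iterate_succ_apply']
      exact s01_step_countable R ih
  · intro i r l hl h
    obtain ⟨n, hn⟩ := s01_bound R l hl
    obtain ⟨X, hX, hR⟩ := s01_closed R l hn h
    refine ⟨X, ?_, hR⟩
    intro a b
    refine Set.mem_iUnion.mpr ⟨n + 1, ?_⟩
    rw [Function.iterate_succ_apply']
    exact hX a b

end Pool.Agent.FG.S
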