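import Pool.Agent.FGS.Big
import Pool.Agent.FGS.Skolem
import Pool.Agent.FGS.NearProj
import Pool.Agent.FGS.ModelPolar
import Pool.Agent.FGS.CornerModel
import Pool.Agent.FGS.BigFacts

/-!
Project FGS (MP_0c7c15_an), row FGS-08: existence of the countable hull (helper75).
-/

set_option autoImplicit false
set_option linter.unusedSectionVars false

open Filter Topology
open scoped ComplexOrder ENNReal

namespace Pool.Agent.FG.S

open UP UP.Br

/-! ### a convenient form of the Skolem hull -/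

theorem s08_hull {A : Type} (K : Set A) (hK : K.Countable)
    (U : Set (A → A → Prop)) (hU : U.Countable)
    (B : Set (A → A → A → Prop)) (hB : B.Countable)
    (M : Set ((r : ℕ) → List (Matrix (Fin r) (Fin r) A) → Matrix (Fin r) (Fin r) A → Prop))
    (hM : M.Countable) :
    ∃ C : Set A, C.Countable ∧ (∀ x ∈ K, x ∈ C) ∧
      (∀ P ∈ U, ∀ x ∈ C, (∃ y, P x y) → ∃ y ∈ C, P x y) ∧
      (∀ P ∈ B, ∀ x ∈ C, ∀ x' ∈ C, (∃ y, P x x' y) → ∃ y ∈ C, P x x' y) ∧
      (∀ P ∈ M, ∀ (r : ℕ) (l : List (Matrix (Fin r) (Fin r) A)), (∀ X ∈ l, InC C X) →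
        (∃ X, P r l X) → ∃ X, InC C X ∧ P r l X) := by
  have _ := hK.to_subtype
  have _ := hU.to_subtype
  have _ := hB.to_subtype
  have _ := hM.to_subtype
  obtain ⟨C, hC, hR⟩ := exists_hull (ι := K ⊕ U ⊕ B ⊕ M) (A := A)
    (fun i r l X => Sum.elim (fun k => X = fun _ _ => k.1)
      (Sum.elim (fun P => ∃ x y, l = [fun _ _ => x] ∧ X = (fun _ _ => y) ∧ P.1 x y)
        (Sum.elim (fun P => ∃ x x' y, l = [fun _ _ => x, fun _ _ => x'] ∧
            X = (fun _ _ => y) ∧ P.1 x x' y)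
          (fun P => P.1 r l X))) i)
  refine ⟨C, hC, ?_, ?_, ?_, ?_⟩
  · intro x hx
    obtain ⟨X, hX, h⟩ := hR (Sum.inl ⟨x, hx⟩) 1 [] (by simp) ⟨fun _ _ => x, rfl⟩
    have h' : X = fun _ _ => x := h
    subst h'
    exact hX 0 0
  · intro P hP x hx hy
    obtain ⟨y, hy⟩ := hy
    obtain ⟨X, hX, h⟩ := hR (Sum.inr (Sum.inl ⟨P, hP⟩)) 1 [fun _ _ => x]
      (by
        intro X hX
        rw [List.mem_singleton] at hX
        subst hX
        exact fun _ _ => hx) ⟨fun _ _ => y, x, y, rfl, rfl, hy⟩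
    obtain ⟨x1, y1, h1, h2, h3⟩ := h
    have e1 : x = x1 := by
      have := (List.cons.inj h1).1
      exact congrFun (congrFun this 0) 0
    subst e1
    subst h2
    exact ⟨y1, hX 0 0, h3⟩
  · intro P hP x hx x' hx' hy
    obtain ⟨y, hy⟩ := hy
    obtain ⟨X, hX, h⟩ := hR (Sum.inr (Sum.inr (Sum.inl ⟨P, hP⟩))) 1
      [fun _ _ => x, fun _ _ => x']
      (by
        intro X hX
        rw [List.mem_cons, List.mem_singleton] at hX
        rcases hX with hX | hX
        · subst hX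
          exact fun _ _ => hx
        · subst hX
          exact fun _ _ => hx') ⟨fun _ _ => y, x, x', y, rfl, rfl, hy⟩
    obtain ⟨x1, x2, y1, h1, h2, h3⟩ := h
    have e1 : x = x1 := by
      have := (List.cons.inj h1).1
      exact congrFun (congrFun this 0) 0
    have e2 : x' = x2 := by
      have := (List.cons.inj (List.cons.inj h1).2).1
      exact congrFun (congrFun this 0) 0
    subst e1
    subst e2
    subst h2
    exact ⟨y1, hX 0 0, h3⟩
  · intro P hP r l hl hX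
    exact hR (Sum.inr (Sum.inr (Sum.inr ⟨P, hP⟩))) r l hl hX

/-! ### the relations -/

section Rel

variable {A : Type} [CStarAlgebra A] [TracialState A] (b : Par A)

/-- relation for the field `cut` -/
def s08_cut (K : ℚ) (x x' : A) : Prop :=
  ‖x'‖ ≤ K ∧ ∀ z : A, ‖z‖ ≤ (K : ℝ) ^ 2 →
    nrm2 (x - x') ≤ ‖x‖ * (nrm2 (star x * x - z) / (K : ℝ) ^ 2)

/-- relation for the field `dix` -/
def s08_dix (x u : A) : Prop :=
  u ∈ unitary A ∧ nrm2 (x - tau x • (1 : A)) ≤ 2 * nrm2 (x * u - u * x)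

/-- relation for the first output of the field `comm` -/
def s08_commY (x Y : A) : Prop :=
  ∃ Z, x = Y * Z - Z * Y ∧ ‖Y‖ ≤ 2 * ‖x‖ + 2 ∧ ‖Z‖ ≤ 1

/-- relation for the second output of the field `comm` -/
def s08_commZ (x Y Z : A) : Prop :=
  x = Y * Z - Z * Y ∧ ‖Y‖ ≤ 2 * ‖x‖ + 2 ∧ ‖Z‖ ≤ 1

/-- relation for the field `upolar` -/
def s08_upolar (x w : A) : Prop := w ∈ unitary A ∧ nrm2 (x - w) ≤ nrm2 (star x * x - 1)

/-- relation for the field `wmul` -/
def s08_wmul (i : Fin 2 × ℚ × ℚ) (u v w : A) : Prop :=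
  w ∈ unitary A ∧ Phi tau b i.1 w < i.2.2 ∧ nrm2 (u * v - w) ≤ i.2.1

/-- relation for the field `wnondeg` -/
def s08_wnondeg (i : Fin 2 × ℚ × ℚ) (u v : A) : Prop :=
  v ∈ unitary A ∧ Phi tau b i.1 v < i.2.2 ∧ (i.2.1 : ℝ) ≤ nrm2 (u * v - v * u)

/-- relation for the field `wirr` -/
def s08_wirr (i : Fin 2 × ℚ × ℚ) (x p : A) : Prop :=
  p ∈ unitary A ∧ Phi tau b i.1 p < i.2.2 ∧ (i.2.1 : ℝ) < nrm2 (x * p - p * x)

/-- relation for the field `proj` -/
def s08_proj (r : ℕ) (l : List (Matrix (Fin r) (Fin r) A)) (q : Matrix (Fin r) (Fin r) A) :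
    Prop :=
  ∃ h, l = [h] ∧ q * q = q ∧ star q = q ∧
    n2 (trM r (tau : A →ₗ[ℂ] ℂ)) (h - q) ≤ 2 * n2 (trM r (tau : A →ₗ[ℂ] ℂ)) (h * h - h)

/-- relation for the field `polar` -/
def s08_polar (r : ℕ) (l : List (Matrix (Fin r) (Fin r) A)) (W : Matrix (Fin r) (Fin r) A) :
    Prop :=
  ∃ (p : Proj (Matrix (Fin r) (Fin r) A)) (x w : Cor p), l = [p.val, x.val] ∧ W = w.val ∧
    w ∈ unitary (Cor p) ∧ n2 (corTr (trM r (tau : A →ₗ[ℂ] ℂ)) p) (x - w) ≤
      n2 (corTr (trM r (tau : A →ₗ[ℂ] ℂ)) p) (star x * x - 1)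

/-- the list which codes a projection and ten parameters of the corner -/
def s08_list {r : ℕ} (p : Proj (Matrix (Fin r) (Fin r) A)) (b' : Par (Cor p)) :
    List (Matrix (Fin r) (Fin r) A) :=
  [p.val, (b'.c 0 0).val, (b'.c 0 1).val, (b'.c 0 2).val, (b'.c 0 3).val,
    (b'.c 1 0).val, (b'.c 1 1).val, (b'.c 1 2).val, (b'.c 1 3).val, (b'.U 0).val, (b'.U 1).val]

/-- relation for the first output of the field `fail` -/
def s08_failX (i : ℚ × ℚ × ℚ) (r : ℕ) (l : List (Matrix (Fin r) (Fin r) A))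
    (X : Matrix (Fin r) (Fin r) A) : Prop :=
  ∃ (p : Proj (Matrix (Fin r) (Fin r) A)) (b' : Par (Cor p)) (x y : Cor p),
    l = s08_list p b' ∧ X = x.val ∧
      FailW (corTr (trM r (tau : A →ₗ[ℂ] ℂ)) p) b' i.1 i.2.1 i.2.2 x y

/-- relation for the second output of the field `fail` -/
def s08_failY (i : ℚ × ℚ × ℚ) (r : ℕ) (l : List (Matrix (Fin r) (Fin r) A))
    (X : Matrix (Fin r) (Fin r) A) : Prop :=
  ∃ (p : Proj (Matrix (Fin r) (Fin r) A)) (b' : Par (Cor p)) (x y : Cor p),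
    l = x.val :: s08_list p b' ∧ X = y.val ∧
      FailW (corTr (trM r (tau : A →ₗ[ℂ] ℂ)) p) b' i.1 i.2.1 i.2.2 x y

theorem s08_proj_ext {B : Type*} [Mul B] [Star B] {p q : Proj B} (h : p.val = q.val) :
    p = q := by
  cases p
  cases q
  cases h
  rfl

theorem s08_par_ext {B : Type*} [Ring B] [StarRing B] [Algebra ℂ B] {p : Proj B}
    {c c' : Par (Cor p)} (h1 : ∀ j s, (c.c j s).val = (c'.c j s).val)
    (h2 : ∀ i, (c.U i).val = (c'.U i).val) : c = c' := by
  cases c with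
  | mk c1 c2 =>
    cases c' with
    | mk c3 c4 =>
      have e1 : c1 = c3 := funext fun j => funext fun s => Cor.ext (h1 j s)
      have e2 : c2 = c4 := funext fun i => Cor.ext (h2 i)
      rw [e1, e2]

theorem s08_list_inj {r : ℕ} {p p' : Proj (Matrix (Fin r) (Fin r) A)} {b₁ : Par (Cor p)}
    {b₂ : Par (Cor p')} (h : s08_list p b₁ = s08_list p' b₂) : p = p' ∧ HEq b₁ b₂ := by
  unfold s08_list at h
  simp only [List.cons.injEq, and_true] at h
  obtain ⟨h0, h1, h2, h3, h4, h5, h6, h7, h8, h9, h10⟩ := h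
  have e : p = p' := s08_proj_ext h0
  subst e
  refine ⟨rfl, heq_of_eq (s08_par_ext ?_ ?_)⟩
  · intro j s
    fin_cases j <;> fin_cases s <;> assumption
  · intro i
    fin_cases i <;> assumption

theorem s08_list_inC {C : Set A} {r : ℕ} {p : Proj (Matrix (Fin r) (Fin r) A)}
    {b' : Par (Cor p)} (hp : InC C p.val) (hb : ParInC C b') : ∀ X ∈ s08_list p b', InC C X := by
  intro X hX
  unfold s08_list at hX
  simp only [List.mem_cons, List.not_mem_nil, or_false] at hX
  rcases hX with h | h | h | h | h | h | h | h | h | h | h <;> subst h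
  · exact hp
  all_goals first | exact hb.1 _ _ | exact hb.2 _

end Rel

/-! ### the existence statements for the big algebra -/

section Exist

theorem s08_isTr_tau (A : Type) [CStarAlgebra A] [TracialState A] :
    IsTr (tau : A →ₗ[ℂ] ℂ) where
  one := UP.tau_one
  comm := UP.tau_mul_comm
  pos := UP.tau_star_mul_self_nonneg

variable {n : ℕ → Type} [∀ i, Fintype (n i)] [∀ i, DecidableEq (n i)] [∀ i, Nonempty (n i)]
  {V : Ultrafilter ℕ}

theorem s08_ex_proj (r : ℕ) (h : Matrix (Fin r) (Fin r) (Big n V)) (hh : star h = h) :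
    ∃ q : Matrix (Fin r) (Fin r) (Big n V), q * q = q ∧ star q = q ∧
      n2 (trM r (tau : Big n V →ₗ[ℂ] ℂ)) (h - q) ≤
        2 * n2 (trM r (tau : Big n V →ₗ[ℂ] ℂ)) (h * h - h) := by
  rcases Nat.eq_zero_or_pos r with hr | hr
  · subst hr
    refine ⟨h, Subsingleton.elim _ _, hh, ?_⟩
    rw [sub_self, n2_zero]
    exact mul_nonneg zero_le_two (n2_nonneg _ _)
  · obtain ⟨mod⟩ := matrix_model (bigModel n V) hr
    exact model_proj mod h hh

theorem s08_ex_polar (r : ℕ) (p : Proj (Matrix (Fin r) (Fin r) (Big n V))) (x : Cor p) :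
    ∃ w ∈ unitary (Cor p), n2 (corTr (trM r (tau : Big n V →ₗ[ℂ] ℂ)) p) (x - w) ≤
      n2 (corTr (trM r (tau : Big n V →ₗ[ℂ] ℂ)) p) (star x * x - 1) := by
  by_cases hp : trM r (tau : Big n V →ₗ[ℂ] ℂ) p.val = 0
  · refine ⟨1, one_mem _, ?_⟩
    have h0 : ∀ z, corTr (trM r (tau : Big n V →ₗ[ℂ] ℂ)) p z = 0 := by
      intro z
      rw [corTr_apply, hp, inv_zero, zero_mul]
    unfold n2
    rw [h0, h0]
  · have hr : 0 < r := by
      rcases Nat.eq_zero_or_pos r with hr | hr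
      · exfalso
        apply hp
        subst hr
        rw [iso6_trM_apply, Finset.univ_eq_empty, Finset.sum_empty, mul_zero]
      · exact hr
    obtain ⟨mod⟩ := matrix_model (bigModel n V) hr
    have _ : Nonempty (Fin r) := ⟨⟨0, hr⟩⟩
    obtain ⟨k, hk, hlim, ⟨mod'⟩⟩ :=
      corner_model_gen (isTr_trM (s08_isTr_tau (Big n V)) hr) mod p hp
    exact model_polar mod' x

theorem s08_ex_upolar (x : Big n V) : ∃ w, s08_upolar x w := by
  obtain ⟨w, hw, h⟩ := model_polar (bigModel n V) x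
  exact ⟨w, hw, h⟩

end Exist

/-! ### the main statement -/

theorem exists_Hull (n : ℕ → Type) [∀ i, Fintype (n i)] [∀ i, DecidableEq (n i)]
    [∀ i, Nonempty (n i)] (V : Ultrafilter ℕ)
    (hn : Tendsto (fun i => Fintype.card (n i)) V atTop) (b : Par (Big n V)) :
    ∃ C : Set (Big n V), Hull b C := by
  choose e he1 he2 using big_orth n V hn
  obtain ⟨C, hC, hK, hU, hB, hM⟩ := s08_hull (A := Big n V)
    ({1} ∪ Set.range (fun p : Σ D : ℕ, Fin (D + 1) => e p.1 p.2) ∪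
      Set.range (fun p : Fin 2 × Fin 4 => b.c p.1 p.2) ∪ Set.range b.U)
    ((((Set.countable_singleton _).union (Set.countable_range _)).union
      (Set.countable_range _)).union (Set.countable_range _))
    (Set.range s08_cut ∪ (Set.range (fun (i : ℚ × ℚ) (x y : Big n V) =>
        y = ((i.1 : ℂ) + (i.2 : ℂ) * Complex.I) • x) ∪ (Set.range (s08_wnondeg b) ∪
      (Set.range (s08_wirr b) ∪ {s08_dix, s08_commY, s08_upolar, fun x y => y = star x,
        fun x y => y = (1 / 2 : ℂ) • (x + star x) -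
          tau ((1 / 2 : ℂ) • (x + star x)) • (1 : Big n V)}))))
    ((Set.countable_range _).union ((Set.countable_range _).union ((Set.countable_range _).union
      ((Set.countable_range _).union (Set.toFinite _).countable))))
    (Set.range (s08_wmul b) ∪ {s08_commZ, fun x x' y => y = x + x', fun x x' y => y = x * x'})
    ((Set.countable_range _).union (Set.toFinite _).countable)
    (Set.range s08_failX ∪ (Set.range s08_failY ∪ {s08_proj, s08_polar}))
    ((Set.countable_range _).union ((Set.countable_range _).union (Set.toFinite _).countable))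
  have hUu : ∀ P, P ∈ ({s08_dix, s08_commY, s08_upolar, fun x y => y = star x,
        fun x y => y = (1 / 2 : ℂ) • (x + star x) -
          tau ((1 / 2 : ℂ) • (x + star x)) • (1 : Big n V)} : Set (Big n V → Big n V → Prop)) →
      ∀ x ∈ C, (∃ y, P x y) → ∃ y ∈ C, P x y :=
    fun P hP => hU P (Or.inr (Or.inr (Or.inr (Or.inr hP))))
  have hBu : ∀ P, P ∈ ({s08_commZ, fun x x' y => y = x + x', fun x x' y => y = x * x'} :
        Set (Big n V → Big n V → Big n V → Prop)) →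
      ∀ x ∈ C, ∀ x' ∈ C, (∃ y, P x x' y) → ∃ y ∈ C, P x x' y :=
    fun P hP => hB P (Or.inr hP)
  refine ⟨C, ?_⟩
  constructor
  case countable => exact hC
  case one_mem => exact hK _ (Or.inl (Or.inl (Or.inl rfl)))
  case add_mem =>
    intro x hx y hy
    obtain ⟨z, hz, hz'⟩ := hBu (fun x x' y => y = x + x') (by simp) x hx y hy ⟨_, rfl⟩
    have h : z = x + y := hz'
    rw [← h]
    exact hz
  case mul_mem =>
    intro x hx y hy
    obtain ⟨z, hz, hz'⟩ := hBu (fun x x' y => y = x * x') (by simp) x hx y hy ⟨_, rfl⟩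
    have h : z = x * y := hz'
    rw [← h]
    exact hz
  case star_mem =>
    intro x hx
    obtain ⟨z, hz, hz'⟩ := hUu (fun x y => y = star x) (by simp) x hx ⟨_, rfl⟩
    have h : z = star x := hz'
    rw [← h]
    exact hz
  case smul_mem =>
    intro p q x hx
    obtain ⟨z, hz, hz'⟩ := hU _ (Or.inr (Or.inl ⟨(p, q), rfl⟩)) x hx ⟨_, rfl⟩
    have h : z = ((p : ℂ) + (q : ℂ) * Complex.I) • x := hz'
    rw [← h]
    exact hz
  case cut =>
    intro x hx K hK0
    exact hU _ (Or.inl ⟨K, rfl⟩) x hx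
      (exists_cut_uniform x (K : ℝ) (by exact_mod_cast hK0))
  case dix =>
    intro x hx
    exact hUu s08_dix (by simp) x hx (big_dix n V x)
  case orth =>
    intro D
    refine ⟨e D, fun j => ⟨?_, (he1 D j).1, (he1 D j).2⟩, he2 D⟩
    exact hK _ (Or.inl (Or.inl (Or.inr ⟨⟨D, j⟩, rfl⟩)))
  case center =>
    intro x hx
    obtain ⟨z, hz, hz'⟩ := hUu (fun x y => y = (1 / 2 : ℂ) • (x + star x) -
          tau ((1 / 2 : ℂ) • (x + star x)) • (1 : Big n V)) (by simp) x hx ⟨_, rfl⟩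
    have h : z = (1 / 2 : ℂ) • (x + star x) -
          tau ((1 / 2 : ℂ) • (x + star x)) • (1 : Big n V) := hz'
    rw [← h]
    exact hz
  case comm =>
    intro x hx h1 h2
    obtain ⟨Y0, Z0, h3⟩ := big_comm n V x h1 h2
    obtain ⟨Y1, hY1, h4⟩ := hUu s08_commY (by simp) x hx ⟨Y0, Z0, h3⟩
    obtain ⟨Z1, hZ1, h5⟩ := hBu s08_commZ (by simp) x hx Y1 hY1 h4
    exact ⟨Y1, hY1, Z1, hZ1, h5⟩
  case proj =>
    intro r h hh hs
    obtain ⟨q0, hq0⟩ := s08_ex_proj r h hs
    obtain ⟨q, hq, h', hl, h4⟩ := hM s08_proj (Or.inr (Or.inr (Or.inl rfl))) r [h]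
      (by
        intro X hX
        rw [List.mem_singleton] at hX
        subst hX
        exact hh) ⟨q0, h, rfl, hq0⟩
    have e1 : h = h' := (List.cons.inj hl).1
    subst e1
    exact ⟨q, hq, h4⟩
  case polar =>
    intro r p x hp hx
    obtain ⟨w0, hw0, hw1⟩ := s08_ex_polar r p x
    obtain ⟨W, hW, p', x', w, hl, hw, h4, h5⟩ := hM s08_polar (Or.inr (Or.inr (Or.inr rfl)))
      r [p.val, x.val]
      (by
        intro X hX
        rw [List.mem_cons, List.mem_singleton] at hX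
        rcases hX with hX | hX
        · subst hX
          exact hp
        · subst hX
          exact hx) ⟨w0.val, p, x, w0, rfl, rfl, hw0, hw1⟩
    have e1 : p = p' := s08_proj_ext (List.cons.inj hl).1
    subst e1
    have e2 : x = x' := Cor.ext (List.cons.inj (List.cons.inj hl).2).1
    subst e2
    subst hw
    exact ⟨w, hW, h4, h5⟩
  case par =>
    exact ⟨fun j s => hK _ (Or.inl (Or.inr ⟨(j, s), rfl⟩)), fun i => hK _ (Or.inr ⟨i, rfl⟩)⟩
  case upolar =>
    intro x hx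
    exact hUu s08_upolar (by simp) x hx (s08_ex_upolar x)
  case wmul =>
    intro j ε δ u hu v hv h
    exact hB _ (Or.inl ⟨(j, ε, δ), rfl⟩) u hu v hv h
  case wnondeg =>
    intro j c δ u hu h
    exact hU _ (Or.inr (Or.inr (Or.inl ⟨(j, c, δ), rfl⟩))) u hu h
  case wirr =>
    intro j c δ x hx h
    exact hU _ (Or.inr (Or.inr (Or.inr (Or.inl ⟨(j, c, δ), rfl⟩)))) x hx h
  case fail =>
    intro r p b' ε δ₁ δ₂ hp hb h
    obtain ⟨x0, y0, h0⟩ := h
    obtain ⟨X, hX, p1, b1, x1, y1, hl, hx1, hf⟩ := hM _ (Or.inl ⟨(ε, δ₁, δ₂), rfl⟩) r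
      (s08_list p b') (s08_list_inC hp hb) ⟨x0.val, p, b', x0, y0, rfl, rfl, h0⟩
    obtain ⟨e1, e2⟩ := s08_list_inj hl
    subst e1
    have e3 := eq_of_heq e2
    subst e3
    subst hx1
    obtain ⟨Y, hY, p2, b2, x2, y2, hl2, hy2, hf2⟩ := hM _ (Or.inr (Or.inl ⟨(ε, δ₁, δ₂), rfl⟩)) r
      (x1.val :: s08_list p b') (by
        intro Z hZ
        rcases List.mem_cons.1 hZ with hZ | hZ
        · subst hZ
          exact hX
        · exact s08_list_inC hp hb Z hZ) ⟨y1.val, p, b', x1, y1, rfl, rfl, hf⟩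
    obtain ⟨e4, e5⟩ := s08_list_inj (List.cons.inj hl2).2
    subst e4
    have e6 := eq_of_heq e5
    subst e6
    have e7 : x1 = x2 := Cor.ext (List.cons.inj hl2).1
    subst e7
    subst hy2
    exact ⟨x1, y2, hX, hY, hf2⟩

end Pool.Agent.FG.S
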