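import Pool.Agent.FGS.A0

/-!
Project FGS (separable version of FG, MP_0c7c15_an): the ultrapower `M0` of `A0`, matrices over
bounded sequences.  Definitions.
-/

set_option autoImplicit false

open Filter Topology
open scoped ComplexOrder ENNReal

namespace Pool.Agent.FG.S

open UP UP.Br

section General

variable (B : Type) [CStarAlgebra B] [TracialState B]

/-- the C*-algebra of bounded sequences -/
abbrev BSeq : Type := lp (fun _ : ℕ => B) ∞

/-- evaluation at `k` -/
noncomputable def evL (k : ℕ) : BSeq B →⋆ₐ[ℂ] B where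
  toFun x := x k
  map_one' := rfl
  map_mul' _ _ := rfl
  map_zero' := rfl
  map_add' _ _ := rfl
  commutes' _ := rfl
  map_star' _ := rfl

/-- the quotient map onto the ultrapower -/
noncomputable def mkL (U : Ultrafilter ℕ) : BSeq B →⋆ₐ[ℂ] UP.Ultrapower B U where
  toFun := Ultraproduct.mk (fun _ : ℕ => B) U
  map_one' := map_one _
  map_mul' := map_mul _
  map_zero' := map_zero _
  map_add' := map_add _
  commutes' := AlgHom.commutes _
  map_star' x := (Ultraproduct.star_mk _ U x).symm

/-- evaluation of matrices over bounded sequences -/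
noncomputable def evM (r k : ℕ) :
    Matrix (Fin r) (Fin r) (BSeq B) →⋆ₐ[ℂ] Matrix (Fin r) (Fin r) B := mapM r (evL B k)

/-- the class of a matrix over bounded sequences -/
noncomputable def clM (r : ℕ) (U : Ultrafilter ℕ) :
    Matrix (Fin r) (Fin r) (BSeq B) →⋆ₐ[ℂ] Matrix (Fin r) (Fin r) (UP.Ultrapower B U) :=
  mapM r (mkL B U)

/-- the constant sequence -/
noncomputable def constL : B →⋆ₐ[ℂ] BSeq B where
  toFun x := ⟨fun _ => x, memℓp_infty ⟨‖x‖, by rintro _ ⟨i, rfl⟩; exact le_rfl⟩⟩
  map_one' := rfl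
  map_mul' _ _ := rfl
  map_zero' := rfl
  map_add' _ _ := rfl
  commutes' _ := rfl
  map_star' _ := rfl

end General

section

variable {A : Type} [CStarAlgebra A] [TracialState A] {b : Par A} {C : Set A}

/-- the ultrapower of `A0` -/
abbrev M0 (hC : Hull b C) (U : Ultrafilter ℕ) : Type := UP.Ultrapower (A0 hC) U

/-- the inclusion of `M_r(A0)` in `M_r(A)` -/
noncomputable def inc (hC : Hull b C) (r : ℕ) :
    Matrix (Fin r) (Fin r) (A0 hC) →⋆ₐ[ℂ] Matrix (Fin r) (Fin r) A :=
  mapM r (A0 hC).subtype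

/-- the parameters of `A0` -/
def parA0 (hC : Hull b C) : Par (A0 hC) :=
  ⟨fun j s => ⟨b.c j s, mem_A0_of_mem hC (hC.par.1 j s)⟩,
    fun i => ⟨b.U i, mem_A0_of_mem hC (hC.par.2 i)⟩⟩

/-- the parameters of `M0`: constant sequences -/
noncomputable def parM0 (hC : Hull b C) (U : Ultrafilter ℕ) : Par (M0 hC U) :=
  parMap (fun x => mkL (A0 hC) U (constL (A0 hC) x)) (parA0 hC)

end

end Pool.Agent.FG.S
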