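import Pool.Agent.FGS.Big
import Pool.Agent.FG.Arith
import Pool.Agent.FG.AxT
import Pool.Agent.FG.UTransfer
import Pool.Agent.FG.Flt
import Pool.Agent.FGS.CornerModel
import Pool.Agent.FGS.ModelPolar

/-!
Project FGS (separable version of FG, MP_0c7c15_an), row FGS-06: the finite precision properties
in a corner over the big algebra force the trace of the projection to be close to a power of 3.
-/

set_option autoImplicit false

open Filter Topology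
open scoped ComplexOrder ENNReal

namespace Pool.Agent.FG.S

open UP UP.Br

theorem s06_isTr (n : ℕ → Type) [∀ i, Fintype (n i)] [∀ i, DecidableEq (n i)]
    [∀ i, Nonempty (n i)] (V : Ultrafilter ℕ) : IsTr (tau : Big n V →ₗ[ℂ] ℂ) where
  one := UP.tau_one
  comm := UP.tau_mul_comm
  pos := UP.tau_star_mul_self_nonneg

/-- the numerical end of the argument -/
theorem s06_num {V : Ultrafilter ℕ} {k : ℕ → ℕ} {t η : ℝ} (ht : 0 < t) (hη : 0 < η)
    (hkt : Tendsto (fun i => (k i : ℝ) / Fintype.card (Y i × Y i)) V (𝓝 t))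
    (key : ∀ᶠ i in (V : Filter ℕ), ∃ m : ℕ, |(k i : ℝ) - 3 ^ m| ≤ η / 2 * k i) :
    ∃ l : ℤ, |t - (3 : ℝ) ^ l| ≤ η * t := by
  obtain ⟨κ, hκ⟩ : ∃ κ, κ = (η / 2) / (1 + η / 2) := ⟨_, rfl⟩
  have hκ0 : 0 < κ := by rw [hκ]; positivity
  have hκ1 : κ * (1 + η / 2) = η / 2 := by
    rw [hκ]
    field_simp
  have hev : ∀ᶠ i in (V : Filter ℕ), |(k i : ℝ) / Fintype.card (Y i × Y i) - t| < κ * t := by
    have := (Metric.tendsto_nhds.1 hkt) (κ * t) (by positivity)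
    simpa [Real.dist_eq] using this
  obtain ⟨i, hi1, m, hm⟩ := (hev.and key).exists
  obtain ⟨q, hq⟩ : ∃ q : ℝ, q = Fintype.card (Y i × Y i) := ⟨_, rfl⟩
  have hq9 : q = (3 : ℝ) ^ (2 * (i + 1)) := by
    rw [hq, card_YY]
    push_cast
    rw [pow_mul]
    norm_num
  have hq0 : 0 < q := by rw [hq9]; positivity
  rw [← hq] at hi1
  refine ⟨(m : ℤ) - (2 * (i + 1) : ℕ), ?_⟩
  have e1 : (3 : ℝ) ^ ((m : ℤ) - (2 * (i + 1) : ℕ)) = 3 ^ m / q := by
    rw [zpow_sub₀ (by norm_num : (3 : ℝ) ≠ 0), zpow_natCast, zpow_natCast, hq9]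
  rw [e1]
  have e2 : |(k i : ℝ) / q - 3 ^ m / q| ≤ η / 2 * ((k i : ℝ) / q) := by
    rw [← sub_div, abs_div, abs_of_pos hq0, div_le_iff₀ hq0]
    have : η / 2 * ((k i : ℝ) / q) * q = η / 2 * k i := by
      field_simp
    rw [this]
    exact hm
  have e3 := abs_lt.1 hi1
  have e4 := abs_le.1 e2
  rw [abs_le]
  constructor
  · nlinarith
  · nlinarith

theorem axT_corner_size {η : ℝ} (hη : 0 < η) : ∃ ε : ℝ, 0 < ε ∧ ∀ (V : Ultrafilter ℕ) (r : ℕ)
    (p : Proj (Matrix (Fin r) (Fin r) (Big (fun i => Y i × Y i) V))) (b : Par (Cor p))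
    (δ₁ δ₂ : ℝ), 0 < δ₂ → δ₁ < δ₂ → trM r (tau : Big (fun i => Y i × Y i) V →ₗ[ℂ] ℂ) p.val ≠ 0 →
    AxT (corTr (trM r (tau : Big (fun i => Y i × Y i) V →ₗ[ℂ] ℂ)) p) b ε δ₁ δ₂ →
    ∃ l : ℤ, |r * (trM r (tau : Big (fun i => Y i × Y i) V →ₗ[ℂ] ℂ) p.val).re - (3 : ℝ) ^ l| ≤
      η * (r * (trM r (tau : Big (fun i => Y i × Y i) V →ₗ[ℂ] ℂ) p.val).re) := by
  obtain ⟨ε₁, hε₁, hε₁', hf⟩ := flt (η / 2) (by positivity)
  obtain ⟨ε₀, hε₀⟩ : ∃ ε₀, ε₀ = min ε₁ (1 / 10) := ⟨_, rfl⟩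
  have hε₀0 : 0 < ε₀ := by rw [hε₀]; exact lt_min hε₁ (by norm_num)
  refine ⟨ε₀ / 2, by positivity, ?_⟩
  intro V r p b δ₁ δ₂ hδ₂ hδ hp hax
  have hr : 0 < r := by
    rcases Nat.eq_zero_or_pos r with h | h
    · subst h
      exfalso
      apply hp
      have : p.val = 0 := Subsingleton.elim _ _
      rw [this, map_zero]
    · exact h
  haveI : Nonempty (Fin r) := ⟨⟨0, hr⟩⟩
  obtain ⟨modr⟩ := matrix_model (bigModel (fun i => Y i × Y i) V) hr
  have hσ := isTr_trM (s06_isTr (fun i => Y i × Y i) V) hr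
  obtain ⟨k, hk, hkt, ⟨modc⟩⟩ := corner_model_gen hσ modr p hp
  obtain ⟨um⟩ := uModel_of_model modc
  have hcor := isTr_corTr hσ hp
  -- the parameters
  have hc : ∀ j s, ∃ x, um.lam x = ⟨b.c j s, hax.unitary_c j s⟩ := fun j s => um.surj _
  have hU : ∀ i, ∃ x, um.lam x = ⟨b.U i, hax.unitary_U i⟩ := fun i => um.surj _
  choose c hc using hc
  choose U hU using hU
  have hb : b = mkPar (fun j s => um.lam (c j s)) (fun i => um.lam (U i)) := by
    unfold mkPar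
    simp only [hc, hU]
  rw [hb] at hax
  -- the thresholds
  have hm : max δ₁ 0 < δ₂ := max_lt hδ hδ₂
  obtain ⟨δ₂', hδ₂'⟩ : ∃ d, d = (max δ₁ 0 + δ₂) / 2 := ⟨_, rfl⟩
  obtain ⟨δ₁', hδ₁'⟩ : ∃ d, d = (δ₁ + δ₂') / 2 := ⟨_, rfl⟩
  have hl1 := le_max_left δ₁ 0
  have hl2 := le_max_right δ₁ 0
  have h3 : δ₂' < δ₂ := by rw [hδ₂']; linarith
  have h4 : δ₁ < δ₂' := by rw [hδ₂']; linarith
  have h4' : 0 < δ₂' := by rw [hδ₂']; linarith
  have h5 : δ₁ < δ₁' := by rw [hδ₁']; linarith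
  have h6 : δ₁' ≤ δ₂' := by rw [hδ₁']; linarith
  haveI : ∀ i, Nonempty (Fin (k i)) := fun i => ⟨⟨0, hk i⟩⟩
  have hdown := axT_down (fun i => isTr_mtr (Fin (k i))) hcor um c U
    (show ε₀ / 2 < ε₀ by linarith) h5 h3 hax
  have key : ∀ᶠ i in (V : Filter ℕ), ∃ m : ℕ, |(k i : ℝ) - 3 ^ m| ≤ η / 2 * k i := by
    filter_upwards [hdown] with i hi
    have h7 := axT_ax hε₀0 (by rw [hε₀]; exact min_le_left _ _)
      (by rw [hε₀]; exact min_le_right _ _) hε₁' h4' h6 hi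
    obtain ⟨m, hm⟩ := hf (Fin (k i)) _ h7
    rw [Fintype.card_fin] at hm
    exact ⟨m, hm⟩
  -- the limit
  have hr' : (0 : ℝ) < r := by exact_mod_cast hr
  have h0 := tr_proj_nonneg hσ p
  have hre := Complex.nonneg_iff.1 h0
  have hs : 0 < (trM r (tau : Big (fun i => Y i × Y i) V →ₗ[ℂ] ℂ) p.val).re := by
    refine lt_of_le_of_ne hre.1 ?_
    intro h
    apply hp
    apply Complex.ext
    · rw [← h]; simp
    · simpa using hre.2.symm
  refine s06_num (mul_pos hr' hs) hη ?_ key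
  have h8 := hkt.const_mul (r : ℝ)
  refine h8.congr ?_
  intro i
  rw [Fintype.card_prod (Fin r), Fintype.card_fin]
  push_cast
  have h7 : (0 : ℝ) < Fintype.card (Y i × Y i) := by exact_mod_cast Fintype.card_pos
  field_simp

end Pool.Agent.FG.S
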