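import Pool.Agent.FGS.M0
import Pool.Agent.FG.Statement

/-!
Project FGS (separable version of FG, MP_0c7c15_an), row FGS-10: the ultrapower of the II_1 factor
`toFactor A` is the ultrapower of the C*-algebra `A`; the fundamental group is an invariant.
-/

set_option autoImplicit false

open Filter Topology
open scoped ComplexOrder ENNReal

namespace Pool.Agent.FG.S

open UP UP.Br

section Quot

variable {P Q R : Type*} [Ring P] [StarRing P] [Algebra ℂ P] [Ring Q] [StarRing Q] [Algebra ℂ Q]
  [Ring R] [StarRing R] [Algebra ℂ R]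

/-- two surjective *-homomorphisms with the same kernel have isomorphic ranges -/
theorem s10_exists_equiv (f : P →⋆ₐ[ℂ] Q) (g : P →⋆ₐ[ℂ] R) (hf : Function.Surjective f)
    (hg : Function.Surjective g) (h : ∀ x, f x = 0 ↔ g x = 0) :
    ∃ e : Q ≃⋆ₐ[ℂ] R, ∀ x, e (f x) = g x := by
  have h' : ∀ x y, f x = f y ↔ g x = g y := by
    intro x y
    rw [← sub_eq_zero, ← map_sub, h, map_sub, sub_eq_zero]
  choose s hs using hf
  choose t ht using hg
  have h1 : ∀ x, g (s (f x)) = g x := fun x => (h' _ _).1 (hs _)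
  have h2 : ∀ x, f (t (g x)) = f x := fun x => (h' _ _).2 (ht _)
  let e : Q ≃⋆ₐ[ℂ] R :=
    { toFun := fun q => g (s q)
      invFun := fun r => f (t r)
      left_inv := fun q => by
        show f (t (g (s q))) = q
        rw [h2, hs]
      right_inv := fun r => by
        show g (s (f (t r))) = r
        rw [h1, ht]
      map_mul' := fun a b => by
        show g (s (a * b)) = g (s a) * g (s b)
        conv_lhs => rw [← hs a, ← hs b, ← map_mul, h1, map_mul]
      map_add' := fun a b => by
        show g (s (a + b)) = g (s a) + g (s b)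
        conv_lhs => rw [← hs a, ← hs b, ← map_add, h1, map_add]
      map_star' := fun a => by
        show g (s (star a)) = star (g (s a))
        conv_lhs => rw [← hs a, ← map_star, h1, map_star]
      map_smul' := fun c a => by
        show g (s (c • a)) = c • g (s a)
        conv_lhs => rw [← hs a, ← map_smul, h1, map_smul] }
  exact ⟨e, fun x => h1 x⟩

end Quot

section Iso

variable (A : Type) [CStarAlgebra A] [TracialState A] (hA : UnitBallComplete A)
    (hc : ∀ z : A, (∀ x : A, z * x = x * z) → ∃ c : ℂ, z = c • (1 : A))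
    (hi : ¬ FiniteDimensional ℂ A)

/-- a bounded sequence of `A` as a bounded sequence of the II_1 factor -/
noncomputable def s10_seq : BSeq A →⋆ₐ[ℂ] (toFactor A hA hc hi).BddSeq where
  toFun x := ⟨fun k => (lamN (x k) : (vN A).toStarSubalgebra), ‖x‖, fun k => by
    refine (norm_lamN (x k)).le.trans ?_
    exact lp.norm_apply_le_norm ENNReal.top_ne_zero x k⟩
  map_one' := Subtype.ext (funext fun k => map_one (lamN : A →⋆ₐ[ℂ] (vN A).toStarSubalgebra))
  map_mul' x y := Subtype.ext (funext fun k =>
    map_mul (lamN : A →⋆ₐ[ℂ] (vN A).toStarSubalgebra) (x k) (y k))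
  map_zero' := Subtype.ext (funext fun k => map_zero (lamN : A →⋆ₐ[ℂ] (vN A).toStarSubalgebra))
  map_add' x y := Subtype.ext (funext fun k =>
    map_add (lamN : A →⋆ₐ[ℂ] (vN A).toStarSubalgebra) (x k) (y k))
  commutes' c := Subtype.ext (funext fun k =>
    AlgHomClass.commutes (lamN : A →⋆ₐ[ℂ] (vN A).toStarSubalgebra) c)
  map_star' x := Subtype.ext (funext fun k =>
    map_star (lamN : A →⋆ₐ[ℂ] (vN A).toStarSubalgebra) (x k))

theorem s10_seq_apply (x : BSeq A) (k : ℕ) :
    (s10_seq A hA hc hi x).1 k = (lamN (x k) : (vN A).toStarSubalgebra) := rfl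

theorem s10_tau (a : A) :
    (toFactor A hA hc hi).τ (lamN a : (vN A).toStarSubalgebra) = tau a := vecTr_lamN a

theorem s10_sq2 (a : A) :
    (toFactor A hA hc hi).sq2 (lamN a : (vN A).toStarSubalgebra) = nrm2 a ^ 2 := by
  have h : (toFactor A hA hc hi).sq2 (lamN a : (vN A).toStarSubalgebra)
      = ((toFactor A hA hc hi).τ (lamN (star a * a) : (vN A).toStarSubalgebra)).re := by
    rw [map_mul, map_star]
    rfl
  rw [h, s10_tau, nrm2_sq]

theorem s10_seq_surjective : Function.Surjective (s10_seq A hA hc hi) := by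
  intro y
  obtain ⟨K, hK⟩ := y.2
  have hy : ∀ k, ∃ a : A, (lamN a : (vN A).toStarSubalgebra) = y.1 k := fun k =>
    lamN_surjective hA (y.1 k)
  choose a ha using hy
  have hn : ∀ k, ‖a k‖ ≤ K := by
    intro k
    rw [← norm_lamN (a k), ha k]
    exact hK k
  refine ⟨⟨a, memℓp_infty ⟨K, by rintro _ ⟨i, rfl⟩; exact hn i⟩⟩, ?_⟩
  exact Subtype.ext (funext ha)

/-- the class of a bounded sequence of `A` in the ultrapower of the II_1 factor -/
noncomputable def s10_cls (U : Ultrafilter ℕ) :
    BSeq A →⋆ₐ[ℂ] (toFactor A hA hc hi).Ultrapower U where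
  toFun x := Ideal.Quotient.mk ((toFactor A hA hc hi).nullIdeal U) (s10_seq A hA hc hi x)
  map_one' := by rw [map_one, map_one]
  map_mul' x y := by rw [map_mul, map_mul]
  map_zero' := by rw [map_zero, map_zero]
  map_add' x y := by rw [map_add, map_add]
  commutes' c := by
    rw [AlgHomClass.commutes]
    rfl
  map_star' x := by
    rw [map_star]
    rfl

theorem s10_cls_apply (U : Ultrafilter ℕ) (x : BSeq A) : s10_cls A hA hc hi U x =
    Ideal.Quotient.mk ((toFactor A hA hc hi).nullIdeal U) (s10_seq A hA hc hi x) := rfl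

theorem s10_cls_surjective (U : Ultrafilter ℕ) : Function.Surjective (s10_cls A hA hc hi U) := by
  intro y
  obtain ⟨y, rfl⟩ := Ideal.Quotient.mk_surjective y
  obtain ⟨x, rfl⟩ := s10_seq_surjective A hA hc hi y
  exact ⟨x, rfl⟩

theorem s10_cls_eq_zero_iff (U : Ultrafilter ℕ) (x : BSeq A) :
    s10_cls A hA hc hi U x = 0 ↔ mkL A U x = 0 := by
  have h1 : mkL A U x = 0 ↔ Tendsto (fun k => nrm2 (x k)) U (𝓝 0) :=
    Ultraproduct.mk_eq_zero_iff (fun _ : ℕ => A) U
  rw [h1, s10_cls_apply, Ideal.Quotient.eq_zero_iff_mem, IIOneFactor.mem_nullIdeal]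
  have h2 : (fun k => (toFactor A hA hc hi).sq2 ((s10_seq A hA hc hi x).1 k))
      = fun k => nrm2 (x k) ^ 2 := by
    funext k
    rw [s10_seq_apply, s10_sq2]
  rw [h2]
  constructor
  · intro h
    have h3 := h.sqrt
    rw [Real.sqrt_zero] at h3
    refine h3.congr fun k => ?_
    exact Real.sqrt_sq (nrm2_nonneg (x k))
  · intro h
    have h3 := h.pow 2
    rwa [zero_pow two_ne_zero] at h3

end Iso

/-- the ultrapower of the factor of left multiplications is the ultrapower of the algebra -/
theorem exists_iso_ultrapower (A : Type) [CStarAlgebra A] [TracialState A]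
    (hA : UnitBallComplete A)
    (hc : ∀ z : A, (∀ x : A, z * x = x * z) → ∃ c : ℂ, z = c • (1 : A))
    (hi : ¬ FiniteDimensional ℂ A) (U : Ultrafilter ℕ) :
    ∃ e : (toFactor A hA hc hi).Ultrapower U ≃⋆ₐ[ℂ] UP.Ultrapower A U,
      ∀ x, tau (e x) = (toFactor A hA hc hi).ultraTrace U x := by
  obtain ⟨e, he⟩ := s10_exists_equiv (s10_cls A hA hc hi U) (mkL A U)
    (s10_cls_surjective A hA hc hi U) (Ultraproduct.mk_surjective (fun _ : ℕ => A) U)
    (s10_cls_eq_zero_iff A hA hc hi U)
  refine ⟨e, fun x => ?_⟩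
  obtain ⟨x, rfl⟩ := s10_cls_surjective A hA hc hi U x
  rw [he]
  have h1 : Tendsto (fun k => tau (x k)) U (𝓝 (tau (mkL A U x))) :=
    Ultraproduct.tendsto_tau (fun _ : ℕ => A) U x
  have h2 : Tendsto (fun k => (toFactor A hA hc hi).τ ((s10_seq A hA hc hi x).1 k)) U
      (𝓝 ((toFactor A hA hc hi).ultraTrace U (s10_cls A hA hc hi U x))) :=
    (toFactor A hA hc hi).tendsto_tau U (s10_seq A hA hc hi x)
  have h3 : (fun k => (toFactor A hA hc hi).τ ((s10_seq A hA hc hi x).1 k))
      = fun k => tau (x k) := by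
    funext k
    rw [s10_seq_apply, s10_tau]
  rw [h3] at h2
  exact tendsto_nhds_unique h1 h2

/-- the fundamental group is invariant under trace preserving *-isomorphisms -/
theorem fundamentalGroup_congr {M M' : Type} [Ring M] [StarRing M] [Algebra ℂ M] [Ring M']
    [StarRing M'] [Algebra ℂ M'] {τ : M →ₗ[ℂ] ℂ} {τ' : M' →ₗ[ℂ] ℂ} (e : M ≃⋆ₐ[ℂ] M')
    (he : ∀ x, τ' (e x) = τ x) : FG.fundamentalGroup τ ⊆ FG.fundamentalGroup τ' := by
  rintro t ⟨ht, k, p, hp, hps, htr, θ, hθ, hr⟩
  have hmul : ∀ x y : Matrix (Fin k) (Fin k) M, (x * y).map e = x.map e * y.map e := by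
    intro x y
    ext i j
    simp only [Matrix.map_apply, Matrix.mul_apply, map_sum, map_mul]
  have hstar : ∀ x : Matrix (Fin k) (Fin k) M, (star x).map e = star (x.map e) := by
    intro x
    ext i j
    simp only [Matrix.map_apply, Matrix.star_apply, map_star]
  have hinj : ∀ x y : Matrix (Fin k) (Fin k) M, x.map e = y.map e → x = y := by
    intro x y h
    ext i j
    exact e.injective (congrFun (congrFun h i) j)
  let θ' : M' →⋆ₙₐ[ℂ] Matrix (Fin k) (Fin k) M' :=
    { toFun := fun x => (θ (e.symm x)).map e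
      map_smul' := fun c x => by
        ext i j
        simp
      map_zero' := by
        ext i j
        simp
      map_add' := fun x y => by
        ext i j
        simp
      map_mul' := fun x y => by
        rw [map_mul, map_mul, hmul]
      map_star' := fun x => by
        rw [map_star, map_star, hstar] }
  refine ⟨ht, k, p.map e, ?_, ?_, ?_, θ', ?_, ?_⟩
  · rw [← hmul, hp]
  · rw [← hstar, hps]
  · rw [← htr]
    exact Finset.sum_congr rfl fun i _ => he (p i i)
  · intro x y hxy
    exact e.symm.injective (hθ (hinj _ _ hxy))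
  · ext x
    change x ∈ Set.range θ' ↔ p.map e * x * p.map e = x
    rw [Set.mem_range]
    constructor
    · rintro ⟨y, rfl⟩
      have h1 : θ (e.symm y) ∈ {x | p * x * p = x} := hr ▸ Set.mem_range_self _
      change p.map e * (θ (e.symm y)).map e * p.map e = (θ (e.symm y)).map e
      rw [← hmul, ← hmul, show p * θ (e.symm y) * p = θ (e.symm y) from h1]
    · intro hx
      obtain ⟨y, hy⟩ : x.map e.symm ∈ Set.range θ := by
        rw [hr]
        change p * x.map e.symm * p = x.map e.symm
        apply hinj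
        have h2 : (x.map e.symm).map e = x := by
          ext i j
          exact e.apply_symm_apply (x i j)
        rw [hmul, hmul, h2, hx]
      refine ⟨e y, ?_⟩
      change (θ (e.symm (e y))).map e = x
      rw [e.symm_apply_apply, hy]
      ext i j
      exact e.apply_symm_apply (x i j)

end Pool.Agent.FG.S
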