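import Pool.Agent.FGS.CornerU
import Pool.Agent.FGS.AxTM0
import Pool.Agent.FGS.AxTBig
import Pool.Agent.FGS.Size
import Pool.Agent.FGS.A0Facts
import Pool.Agent.FGS.UltraIso
import Pool.Agent.FGS.ExistsHull
import Pool.Agent.FG.Main
import Pool.Agent.FG.AxT
import Pool.Agent.FG.UTransfer

/-!
Project FGS (separable version of FG, MP_0c7c15_an): assembly (helper39).
-/

set_option autoImplicit false

open Filter Topology
open scoped ComplexOrder ENNReal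

namespace Pool.Agent.FG.S

open UP UP.Br

theorem s19_mono {M : Type*} [Ring M] [StarRing M] [Algebra ℂ M] {τ : M →ₗ[ℂ] ℂ} {b : Par M}
    {ε ε' δ₁ δ₁' δ₂ δ₂' : ℝ} (he : ε ≤ ε') (h1 : δ₁ ≤ δ₁') (h2 : δ₂' ≤ δ₂)
    (h : AxT τ b ε δ₁ δ₂) : AxT τ b ε' δ₁' δ₂' where
  unitary_c := h.unitary_c
  unitary_U := h.unitary_U
  mul j u hu v hv hPu hPv := by
    obtain ⟨w, hw, hPw, hn⟩ := h.mul j u hu v hv (hPu.trans_le h2) (hPv.trans_le h2)
    exact ⟨w, hw, hPw.trans_le h1, hn.trans he⟩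
  sep j u hu v hv hPu hPv := by
    rcases h.sep j u hu v hv (hPu.trans_le h2) (hPv.trans_le h2) with h3 | h3
    · exact Or.inl (h3.trans he)
    · exact Or.inr (by linarith)
  comm j u hu v hv hPu hPv := by
    obtain ⟨s, hs⟩ := h.comm j u hu v hv (hPu.trans_le h2) (hPv.trans_le h2)
    exact ⟨s, hs.trans he⟩
  nondeg j u hu hPu := by
    rcases h.nondeg j u hu (hPu.trans_le h2) with ⟨s, hs⟩ | ⟨v, hv, hPv, hn⟩
    · exact Or.inl ⟨s, hs.trans he⟩
    · exact Or.inr ⟨v, hv, hPv.trans_le h1, by linarith⟩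
  cross u hu v hv hPu hPv := (h.cross u hu v hv (hPu.trans_le h2) (hPv.trans_le h2)).trans he
  irr x hx hp := by
    have h3 := h.irr x hx fun j p hpu hPp => (hp j p hpu (hPp.trans_le h1)).trans (by linarith)
    linarith

theorem s19_zpow_limit {U : Ultrafilter ℕ} {x : ℕ → ℝ} {t : ℝ} (ht : 0 < t)
    (hx : Tendsto x U (𝓝 t))
    (h : ∀ η : ℝ, 0 < η → ∀ᶠ k in (U : Filter ℕ), ∃ l : ℤ, |x k - (3 : ℝ) ^ l| ≤ η * x k) :
    ∃ m : ℤ, t = 3 ^ m := by
  obtain ⟨m, hm1, hm2⟩ := exists_mem_Ico_zpow ht (by norm_num : (1 : ℝ) < 3)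
  by_contra hne
  rw [not_exists] at hne
  have hlt : (3 : ℝ) ^ m < t := lt_of_le_of_ne hm1 (Ne.symm (hne m))
  obtain ⟨g, hg⟩ : ∃ g, g = min (t - (3 : ℝ) ^ m) ((3 : ℝ) ^ (m + 1) - t) := ⟨_, rfl⟩
  have hg0 : 0 < g := by
    rw [hg]
    exact lt_min (by linarith) (by linarith)
  have hg1 : g ≤ t - (3 : ℝ) ^ m := by rw [hg]; exact min_le_left _ _
  have hg2 : g ≤ (3 : ℝ) ^ (m + 1) - t := by rw [hg]; exact min_le_right _ _
  have h1 := Metric.tendsto_nhds.1 hx (g / 4) (by positivity)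
  have h2 := h (g / (8 * t)) (by positivity)
  have h3 : ∀ᶠ k in (U : Filter ℕ), x k < 2 * t := hx.eventually_lt_const (by linarith)
  obtain ⟨k, hk1, ⟨l, hk2⟩, hk3⟩ := (h1.and (h2.and h3)).exists
  rw [Real.dist_eq, abs_lt] at hk1
  have hk4 : g / (8 * t) * x k < g / 4 := by
    have e : g / 4 = g / (8 * t) * (2 * t) := by
      field_simp
      ring
    rw [e]
    exact mul_lt_mul_of_pos_left hk3 (by positivity)
  have hk5 := abs_le.1 (hk2.trans hk4.le)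
  rcases le_or_gt l m with hl | hl
  · have h4 : (3 : ℝ) ^ l ≤ 3 ^ m := zpow_le_zpow_right₀ (by norm_num) hl
    linarith [hk1.1, hk1.2, hk5.1, hk5.2]
  · have h4 : (3 : ℝ) ^ (m + 1) ≤ 3 ^ l := zpow_le_zpow_right₀ (by norm_num) hl
    linarith [hk1.1, hk1.2, hk5.1, hk5.2]

theorem s19_trM_inc {A : Type} [CStarAlgebra A] [TracialState A] {b : Par A} {C : Set A}
    (hC : Hull b C) (r : ℕ) (x : Matrix (Fin r) (Fin r) (A0 hC)) :
    trM r (tau : A →ₗ[ℂ] ℂ) (inc hC r x) = trM r (tau : A0 hC →ₗ[ℂ] ℂ) x := by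
  rw [iso6_trM_apply, iso6_trM_apply]
  rfl

theorem fundamentalGroup_M0 {V : Ultrafilter ℕ} {b : Par (Big (fun i => Y i × Y i) V)}
    {C : Set (Big (fun i => Y i × Y i) V)} (hC : Hull b C)
    (hb : Good (tau : Big (fun i => Y i × Y i) V →ₗ[ℂ] ℂ) b) {U : Ultrafilter ℕ}
    (hU : (U : Filter ℕ) ≤ cofinite) :
    FG.fundamentalGroup (tau : M0 hC U →ₗ[ℂ] ℂ) ⊆ {t | ∃ m : ℤ, t = 3 ^ m} := by
  rintro t ⟨ht, r, p, hp, hps, htr, θ, hθ, hrange⟩
  obtain ⟨q, hqC, hq0, hqt, mod, hmodC⟩ := corner_uModel hC hU θ hθ p hp hps hrange ht htr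
  refine s19_zpow_limit ht hqt fun η hη => ?_
  have hr : 0 < r := by
    rcases Nat.eq_zero_or_pos r with h | h
    · exfalso
      apply hq0 0
      rw [iso6_trM_apply]
      subst h
      simp
    · exact h
  obtain ⟨ε, hε, hsize⟩ := axT_corner_size hη
  obtain ⟨e, he0, he1⟩ := exists_rat_btwn (show (0 : ℝ) < min ε (1 / 8) from
    lt_min hε (by norm_num))
  have he2 : (e : ℝ) < ε := he1.trans_le (min_le_left _ _)
  have he3 : (e : ℝ) < 1 / 8 := he1.trans_le (min_le_right _ _)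
  obtain ⟨δ₂, hδ₂, hgood⟩ := good_axT (isTr_tau _) hb (ε := (e : ℝ) / 4) (by positivity)
    (by linarith)
  obtain ⟨d, hd0, hd1⟩ := exists_rat_btwn hδ₂
  have h1 : AxT (tau : Big (fun i => Y i × Y i) V →ₗ[ℂ] ℂ) b ((e / 4 : ℚ) : ℝ)
      ((d / 4 : ℚ) : ℝ) (d : ℝ) := by
    refine s19_mono ?_ le_rfl hd1.le (hgood ((d / 4 : ℚ) : ℝ) ?_)
    · push_cast
      exact le_rfl
    · push_cast
      positivity
  have he0' : 0 < e := by exact_mod_cast he0
  have hd0' : 0 < d := by exact_mod_cast hd0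
  have h2 : AxT (tau : M0 hC U →ₗ[ℂ] ℂ) (parM0 hC U) ((e / 2 : ℚ) : ℝ) ((d / 3 : ℚ) : ℝ)
      (d : ℝ) := axT_M0 hC hU (by linarith) (by linarith) h1
  choose c hc hcC using fun j s => hmodC ⟨(parM0 hC U).c j s, h2.unitary_c j s⟩
  choose W hW hWC using fun i => hmodC ⟨(parM0 hC U).U i, h2.unitary_U i⟩
  have h3 : mkPar (fun j s => mod.lam (c j s)) (fun i => mod.lam (W i)) = parM0 hC U := by
    unfold mkPar
    simp only [hc, hW]
  have h4 := axT_down (fun k => isTr_corTr (isTr_trM (isTr_tau (A0 hC)) hr) (hq0 k))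
    (isTr_tau (M0 hC U)) mod c W (ε := ((e / 2 : ℚ) : ℝ)) (ε' := ((3 * e / 4 : ℚ) : ℝ))
    (δ₁ := ((d / 3 : ℚ) : ℝ)) (δ₁' := ((d / 2 : ℚ) : ℝ)) (δ₂ := (d : ℝ))
    (δ₂' := ((3 * d / 4 : ℚ) : ℝ)) (by exact_mod_cast (by linarith : e / 2 < 3 * e / 4))
    (by exact_mod_cast (by linarith : d / 3 < d / 2))
    (by exact_mod_cast (by linarith : 3 * d / 4 < d)) (by rw [h3]; exact h2)
  filter_upwards [h4] with k hk
  have h5 := axT_big hC (q k) (hqC k) _ ⟨fun j s => hcC j s k, fun i => hWC i k⟩ hk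
  have h6 : trM r (tau : Big (fun i => Y i × Y i) V →ₗ[ℂ] ℂ) ((q k).map (inc hC r)).val
      = trM r (tau : A0 hC →ₗ[ℂ] ℂ) (q k).val := s19_trM_inc hC r (q k).val
  have h7 := hsize V r ((q k).map (inc hC r)) _ _ _
    (by exact_mod_cast (by positivity : 0 < 3 * d / 4))
    (by exact_mod_cast (by linarith : d / 2 < 3 * d / 4)) (by rw [h6]; exact hq0 k)
    (s19_mono (show ((3 * e / 4 : ℚ) : ℝ) ≤ ε by push_cast; linarith) le_rfl le_rfl h5)
  rw [h6] at h7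
  exact h7

open scoped Matrix.Norms.L2Operator in
theorem s19_complete (n : ℕ → Type) [∀ i, Fintype (n i)] [∀ i, DecidableEq (n i)]
    [∀ i, Nonempty (n i)] (V : Ultrafilter ℕ) (hV : (V : Filter ℕ) ≤ cofinite) :
    UnitBallComplete (Big n V) := unitBallComplete_ultraproduct _ V hV

theorem s19_wrap (A : Type) [CStarAlgebra A] [TracialState A] (hA : UnitBallComplete A)
    (hc : ∀ z : A, (∀ x : A, z * x = x * z) → ∃ c : ℂ, z = c • (1 : A))
    (hi : ¬ FiniteDimensional ℂ A) (hs : TopologicalSpace.SeparableSpace (L2 A))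
    (h : ∀ U : Ultrafilter ℕ, (U : Filter ℕ) ≤ cofinite →
      FG.fundamentalGroup (tau : UP.Ultrapower A U →ₗ[ℂ] ℂ) ⊆ {t | ∃ m : ℤ, t = 3 ^ m}) :
    ∃ (H : Type) (_ : NormedAddCommGroup H) (_ : InnerProductSpace ℂ H)
    (_ : CompleteSpace H) (_ : TopologicalSpace.SeparableSpace H) (F : IIOneFactor H),
    ∀ U : Ultrafilter ℕ, (U : Filter ℕ) ≤ cofinite →
      FG.fundamentalGroup (F.ultraTrace U) ⊆ {t | ∃ m : ℤ, t = 3 ^ m} := by
  refine ⟨L2 A, inferInstance, inferInstance, inferInstance, hs, toFactor A hA hc hi,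
    fun U hU => ?_⟩
  obtain ⟨e, he⟩ := exists_iso_ultrapower A hA hc hi U
  exact (fundamentalGroup_congr e he).trans (h U hU)

theorem s19_final (V : Ultrafilter ℕ) (hV : (V : Filter ℕ) ≤ cofinite)
    (b : Par (Big (fun i => Y i × Y i) V))
    (hb : Good (tau : Big (fun i => Y i × Y i) V →ₗ[ℂ] ℂ) b)
    (C : Set (Big (fun i => Y i × Y i) V)) (hC : Hull b C) :
    ∃ (H : Type) (_ : NormedAddCommGroup H) (_ : InnerProductSpace ℂ H)
    (_ : CompleteSpace H) (_ : TopologicalSpace.SeparableSpace H) (F : IIOneFactor H),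
    ∀ U : Ultrafilter ℕ, (U : Filter ℕ) ≤ cofinite →
      FG.fundamentalGroup (F.ultraTrace U) ⊆ {t | ∃ m : ℤ, t = 3 ^ m} := by
  have hA : UnitBallComplete (A0 hC) :=
    unitBallComplete_A0 hC (s19_complete (fun i => Y i × Y i) V hV)
  exact s19_wrap (A0 hC) hA (center_A0 hC) (not_finiteDimensional_A0 hC) (separable_A0 hC)
    fun U hU => fundamentalGroup_M0 hC hb hU

theorem s19_final2 (V : Ultrafilter ℕ) (hV : (V : Filter ℕ) ≤ cofinite) :
    ∃ (H : Type) (_ : NormedAddCommGroup H) (_ : InnerProductSpace ℂ H)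
    (_ : CompleteSpace H) (_ : TopologicalSpace.SeparableSpace H) (F : IIOneFactor H),
    ∀ U : Ultrafilter ℕ, (U : Filter ℕ) ≤ cofinite →
      FG.fundamentalGroup (F.ultraTrace U) ⊆ {t | ∃ m : ℤ, t = 3 ^ m} := by
  obtain ⟨b, hb⟩ := std_good V (fun i => i)
    (tau : Big (fun i => Y i × Y i) V →ₗ[ℂ] ℂ) (isTr_tau _)
    (bigModel (fun i => Y i × Y i) V)
  obtain ⟨C, hC⟩ := exists_Hull (fun i => Y i × Y i) V
    (upf_card_tendsto.mono_left (hV.trans Nat.cofinite_eq_atTop.le)) b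
  exact s19_final V hV b hb C hC

theorem final_separable : ∃ (H : Type) (_ : NormedAddCommGroup H) (_ : InnerProductSpace ℂ H)
    (_ : CompleteSpace H) (_ : TopologicalSpace.SeparableSpace H) (F : IIOneFactor H),
    ∀ U : Ultrafilter ℕ, (U : Filter ℕ) ≤ cofinite →
      FG.fundamentalGroup (F.ultraTrace U) ⊆ {t | ∃ m : ℤ, t = 3 ^ m} :=
  s19_final2 (Filter.hyperfilter ℕ) Filter.hyperfilter_le_cofinite

end Pool.Agent.FG.S
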